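import Pool.Agent.Q8.GF.Top

/-!
The forms of Gordan and Noether on a curve: identities with fixed factors.
-/

open MvPolynomial
open Pool.Agent.W515.SLP (AnnP Deg annP_zero annP_of_gt annP_of_homog lin)
open H503R3.QCI (Homog NZD Reg)
open TH130CI

namespace Pool.Agent.Q8.GF

open Module
open Pool.Agent.Q8.GC
open Pool.Agent.Q8.GD

variable {K : Type*} [Field K] {n : ℕ}

/-- the ideal quotient by one element -/
noncomputable def co (I : Ideal (MvPolynomial (Fin n) K)) (f : MvPolynomial (Fin n) K) :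
    Ideal (MvPolynomial (Fin n) K) :=
  Submodule.comap (LinearMap.mulRight (MvPolynomial (Fin n) K) f) I

lemma mem_co {I : Ideal (MvPolynomial (Fin n) K)} {f x : MvPolynomial (Fin n) K} :
    x ∈ co I f ↔ x * f ∈ I := Iff.rfl

lemma soc_co {I : Ideal (MvPolynomial (Fin n) K)} {σ : ℕ} (hS : Soc I σ)
    {f : MvPolynomial (Fin n) K} {β : ℕ} (hf : f.IsHomogeneous β) : Soc (co I f) (σ - β) := by
  intro j w hw hj h
  rw [mem_co]
  refine hS (j + β) _ (hw.mul hf) (by omega) fun i => ?_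
  have h1 := mem_co.mp (h i)
  rwa [mul_assoc] at h1

/-- a nonzero polynomial over the quotient is not zero at a general point -/
lemma open_ne {I : Ideal (MvPolynomial (Fin n) K)}
    {f : MvPolynomial (Fin n) (MvPolynomial (Fin n) K ⧸ I)} (hf : f ≠ 0) :
    ∃ P : MvPolynomial (Fin n) K, P ≠ 0 ∧ ∀ q, eval q P ≠ 0 → ev q f ≠ 0 := by
  obtain ⟨ψ, hψ⟩ := exists_cmap_ne (K := K) hf
  refine ⟨_, hψ, fun q hq h => hq ?_⟩
  rw [eval_cmap, h, map_zero]

lemma exists_ne [Infinite K] {P : MvPolynomial (Fin n) K} (hP : P ≠ 0) : ∃ q, eval q P ≠ 0 := by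
  by_contra hcon
  push Not at hcon
  exact hP (MvPolynomial.funext fun q => by rw [hcon, map_zero])

lemma zero_of_open [Infinite K] {I : Ideal (MvPolynomial (Fin n) K)} {P : MvPolynomial (Fin n) K}
    (hP : P ≠ 0) {f : MvPolynomial (Fin n) (MvPolynomial (Fin n) K ⧸ I)}
    (h : ∀ q, eval q P ≠ 0 → ev q f = 0) : f = 0 := by
  by_contra hf
  obtain ⟨P', hP', h'⟩ := open_ne hf
  obtain ⟨q, hq⟩ := exists_ne (mul_ne_zero hP hP')
  rw [map_mul] at hq
  exact h' q (right_ne_zero_of_mul hq) (h q (left_ne_zero_of_mul hq))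

/-- **A linear form along which `m` is constant takes the place of the general linear form.** -/
lemma stepD [CharZero K] {I : Ideal (MvPolynomial (Fin n) K)} {a b : ℕ}
    {m : Fin n → MvPolynomial (Fin n) K} {j0 : Fin n} (hj0 : m j0 ≠ 0) {v : Fin n → K}
    (hv : ∀ j, m j0 * dd (fun i => C (v i)) m j = dd (fun i => C (v i)) m j0 * m j)
    (h : ∀ q, lin q ^ (a + 1) * lin (vl q m) ^ (b + 1) ∈ I) (q : Fin n → K) :
    lin q ^ a * lin (vl q m) ^ (b + 1) * lin v ∈ I := by
  have h0 : ell I ^ (a + 1) * mu I m ^ (b + 1) = 0 := (zero_iff (K := K) I).mpr h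
  have hev : ∀ q : Fin n → K, ev q (ell I ^ a * mu I m ^ (b + 1) * C (Ideal.Quotient.mk I (lin v))) =
      Ideal.Quotient.mk I (lin q ^ a * lin (vl q m) ^ (b + 1) * lin v) := by
    intro q
    rw [map_mul, map_mul, map_pow, map_pow, ev_ell, ev_mu, ev_C, ← map_pow, ← map_pow, ← map_mul,
      ← map_mul]
  have hz : ell I ^ a * mu I m ^ (b + 1) * C (Ideal.Quotient.mk I (lin v)) = 0 := by
    apply zero_of_open hj0
    intro q hq
    rw [hev, Ideal.Quotient.eq_zero_iff_mem]
    have h1 := ev_deriv h0 q v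
    have h2 := MM_mem hq hv
    have h3 : vl q (fun i => C (v i) : Fin n → MvPolynomial (Fin n) K) = v := by
      ext i
      exact eval_C _
    rw [h3] at h2
    obtain ⟨α, hα⟩ := Submodule.mem_span_singleton.mp h2
    apply nat_mem (N := a + 1) (by omega)
    have h4 := I.mul_mem_left (((b + 1 : ℕ) : MvPolynomial (Fin n) K) * C α) (h q)
    have h5 := I.sub_mem h1 h4
    rw [← hα, lin_smul'] at h5
    convert h5 using 1
    ring
  rw [← Ideal.Quotient.eq_zero_iff_mem, ← hev, hz, map_zero]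

lemma stepT [CharZero K] {I : Ideal (MvPolynomial (Fin n) K)} {a : ℕ}
    {m : Fin n → MvPolynomial (Fin n) K}
    (h : ∀ q, lin q ^ (a + 1) * lin (vl q m) ∈ I) (q u : Fin n → K) :
    lin q ^ (a + 2) * lin (MM q m u) ∈ I := by
  have h0 : ell I ^ (a + 1) * mu I m ^ (0 + 1) = 0 :=
    (zero_iff (K := K) I).mpr fun q => by rw [zero_add, pow_one]; exact h q
  have h1 := ev_deriv h0 q u
  rw [zero_add, pow_one, pow_zero, mul_one, Nat.cast_one, one_mul] at h1
  have h2 := I.mul_mem_left (lin q) h1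
  have h3 := I.mul_mem_left (((a + 1 : ℕ) : MvPolynomial (Fin n) K) * lin u) (h q)
  have h4 := I.sub_mem h2 h3
  convert h4 using 1
  ring

end Pool.Agent.Q8.GF
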