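import Pool.Agent.Q8.GF.CurA

/-!
The powers of the space spanned by the forms of Gordan and Noether.
-/

open MvPolynomial
open Pool.Agent.W515.SLP (AnnP Deg annP_zero annP_of_gt annP_of_homog lin)
open H503R3.QCI (Homog NZD Reg)
open TH130CI

namespace Pool.Agent.Q8.GF

open Module
open Pool.Agent.Q8.GC
open Pool.Agent.Q8.GD

variable {K : Type*} [Field K] {n : ℕ}

/-- the span of the values of `m`, as linear forms -/
noncomputable def LS (m : Fin n → MvPolynomial (Fin n) K) : Submodule K (MvPolynomial (Fin n) K) :=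
  Submodule.span K (Set.range fun q => (lin (vl q m) : MvPolynomial (Fin n) K))

lemma vl_mem_LS (m : Fin n → MvPolynomial (Fin n) K) (q : Fin n → K) :
    (lin (vl q m) : MvPolynomial (Fin n) K) ∈ LS m := Submodule.subset_span ⟨q, rfl⟩

lemma LS_homog (m : Fin n → MvPolynomial (Fin n) K) (j : ℕ) {f : MvPolynomial (Fin n) K}
    (hf : f ∈ LS m ^ j) : f.IsHomogeneous j := by
  induction j generalizing f with
  | zero =>
    rw [pow_zero] at hf
    obtain ⟨c, rfl⟩ := Submodule.mem_one.mp hf
    exact isHomogeneous_C _ _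
  | succ j ih =>
    rw [pow_succ] at hf
    refine Submodule.mul_induction_on hf ?_ ?_
    · intro x hx y hy
      refine (ih hx).mul ?_
      have : LS m ≤ homogeneousSubmodule (Fin n) K 1 := by
        unfold LS
        rw [Submodule.span_le]
        rintro _ ⟨q, rfl⟩
        exact lin_homog _
      exact this hy
    · intro x y hx hy
      exact hx.add hy

theorem idH [CharZero K] {I : Ideal (MvPolynomial (Fin n) K)} {s : ℕ}
    {m : Fin n → MvPolynomial (Fin n) K} {j0 : Fin n} (hj0 : m j0 ≠ 0)
    (hm : ∀ q, lin q ^ s * lin (vl q m) ∈ I)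
    (hF : ∀ q' : Fin n → K, ∀ j, m j0 * dd (fun i => C (vl q' m i)) m j =
      dd (fun i => C (vl q' m i)) m j0 * m j) :
    ∀ j, j ≤ s → ∀ f ∈ LS m ^ j, ∀ q, lin q ^ (s - j) * lin (vl q m) * f ∈ I := by
  intro j
  induction j with
  | zero =>
    intro _ f hf q
    exact I.mul_mem_right _ (hm q)
  | succ j ih =>
    intro hj f hf
    rw [pow_succ] at hf
    refine Submodule.mul_induction_on hf ?_ ?_
    · intro x hx y hy
      have h1 := ih (by omega) x hx
      have h2 : ∀ q, lin q ^ (s - (j + 1) + 1) * lin (vl q m) ^ (0 + 1) ∈ co I x := by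
        intro q
        rw [mem_co, zero_add, pow_one, show s - (j + 1) + 1 = s - j by omega]
        exact h1 q
      unfold LS at hy
      intro q
      refine Submodule.span_induction ?_ ?_ ?_ ?_ hy
      · rintro _ ⟨q', rfl⟩
        have h3 := mem_co.mp (stepD hj0 (hF q') h2 q)
        rw [zero_add, pow_one] at h3
        convert h3 using 1
        ring
      · rw [mul_zero, mul_zero]
        exact I.zero_mem
      · intro v v' _ _ h3 h4
        rw [mul_add, mul_add]
        exact I.add_mem h3 h4
      · intro c v _ h3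
        rw [mul_smul_comm, mul_smul_comm, smul_eq_C_mul]
        exact I.mul_mem_left _ h3
    · intro x y hx hy q
      rw [mul_add]
      exact I.add_mem (hx q) (hy q)

/-- a general power does not kill a given element -/
lemma open_ell [CharZero K] {I : Ideal (MvPolynomial (Fin n) K)} {σ : ℕ} (hS : Soc I σ)
    {f : MvPolynomial (Fin n) K} {β : ℕ} (hf : f.IsHomogeneous β) (hfI : f ∉ I) {k : ℕ}
    (hk : k + β ≤ σ) :
    ∃ P : MvPolynomial (Fin n) K, P ≠ 0 ∧ ∀ q, eval q P ≠ 0 → lin q ^ k * f ∉ I := by
  have h1 : ell (co I f) ^ k ≠ 0 := ell_pow_ne (soc_co hS hf) (by rwa [mem_co, one_mul]) k (by omega)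
  obtain ⟨P, hP, h⟩ := open_ne h1
  refine ⟨P, hP, fun q hq hmem => h q hq ?_⟩
  rw [map_pow, ev_ell, ← map_pow, Ideal.Quotient.eq_zero_iff_mem]
  exact hmem

lemma open_m [CharZero K] {I : Ideal (MvPolynomial (Fin n) K)} {g : MvPolynomial (Fin n) K}
    {m : Fin n → MvPolynomial (Fin n) K} {q0 : Fin n → K} (h0 : lin (vl q0 m) * g ∉ I) :
    ∃ P : MvPolynomial (Fin n) K, P ≠ 0 ∧ ∀ q, eval q P ≠ 0 → lin (vl q m) * g ∉ I := by
  have h1 : mu (co I g) m ≠ 0 := by
    intro hz
    apply h0
    have h2 : ev q0 (mu (co I g) m) = 0 := by rw [hz, map_zero]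
    rw [ev_mu, Ideal.Quotient.eq_zero_iff_mem] at h2
    exact h2
  obtain ⟨P, hP, h⟩ := open_ne h1
  refine ⟨P, hP, fun q hq hmem => h q hq ?_⟩
  rw [ev_mu, Ideal.Quotient.eq_zero_iff_mem]
  exact hmem

/-- **A triangular family.** -/
theorem chain [CharZero K] {I : Ideal (MvPolynomial (Fin n) K)} {σ : ℕ} (hS : Soc I σ)
    {m : Fin n → MvPolynomial (Fin n) K} {β τ : ℕ} (hτ : τ + β ≤ σ)
    (h1 : ∀ f ∈ LS m ^ (β - 1), ∀ q, lin q ^ τ * lin (vl q m) * f ∈ I)
    (h2 : ∃ h ∈ LS m ^ β, h ∉ I) :
    ∀ i, i ≤ β → ∃ g ∈ LS m ^ i, (∃ h ∈ LS m ^ (β - i), g * h ∉ I) ∧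
      ∃ f : Fin i → MvPolynomial (Fin n) K, (∀ l, f l ∈ LS m ^ β) ∧
        ∀ c : Fin i → K, ∀ h ∈ LS m ^ (β - i), ∑ l, C (c l) * f l + g * h ∈ I → c = 0 := by
  classical
  intro i
  induction i with
  | zero =>
    intro _
    obtain ⟨h, hh, hhI⟩ := h2
    refine ⟨1, by rw [pow_zero]; exact Submodule.one_le.mp le_rfl, ⟨h, by rwa [Nat.sub_zero],
      by rwa [one_mul]⟩, Fin.elim0, fun l => l.elim0, fun c _ _ _ => Subsingleton.elim _ _⟩
  | succ i ih =>
    intro hi
    obtain ⟨g, hg, ⟨h0, hh0, hgh0⟩, f, hf, hc⟩ := ih (by omega)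
    have hmem : g * h0 ∈ LS m ^ β := by
      have := Submodule.mul_mem_mul hg hh0
      rwa [← pow_add, show i + (β - i) = β by omega] at this
    obtain ⟨P1, hP1, h3⟩ := open_ell hS (LS_homog m β hmem) hgh0 hτ
    -- the next point
    obtain ⟨q0, h', hh', hq0⟩ : ∃ q0 : Fin n → K, ∃ h' ∈ LS m ^ (β - (i + 1)),
        lin (vl q0 m) * (g * h') ∉ I := by
      by_contra hcon
      push Not at hcon
      apply hgh0
      rw [show β - i = (β - (i + 1)) + 1 by omega, pow_succ] at hh0
      refine Submodule.mul_induction_on hh0 ?_ ?_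
      · intro x hx y hy
        unfold LS at hy
        refine Submodule.span_induction ?_ ?_ ?_ ?_ hy
        · rintro _ ⟨q', rfl⟩
          have := hcon q' x hx
          convert this using 1
          ring
        · rw [mul_zero, mul_zero]
          exact I.zero_mem
        · intro v v' _ _ h3 h4
          rw [mul_add, mul_add]
          exact I.add_mem h3 h4
        · intro c v _ h3
          rw [mul_smul_comm, mul_smul_comm, smul_eq_C_mul]
          exact I.mul_mem_left _ h3
      · intro x y hx hy
        rw [mul_add]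
        exact I.add_mem hx hy
    obtain ⟨P2, hP2, h4⟩ := open_m hq0
    obtain ⟨q, hq⟩ := exists_ne (mul_ne_zero hP1 hP2)
    rw [map_mul] at hq
    have h5 := h3 q (left_ne_zero_of_mul hq)
    have h6 := h4 q (right_ne_zero_of_mul hq)
    refine ⟨g * lin (vl q m), ?_, ⟨h', hh', ?_⟩, Fin.snoc f (g * h0), ?_, ?_⟩
    · rw [pow_succ]
      exact Submodule.mul_mem_mul hg (vl_mem_LS m q)
    · intro hmem'
      apply h6
      convert hmem' using 1
      ring
    · intro l
      refine Fin.lastCases ?_ (fun j => ?_) l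
      · rw [Fin.snoc_last]
        exact hmem
      · rw [Fin.snoc_castSucc]
        exact hf j
    · intro c h hh hsum
      rw [Fin.sum_univ_castSucc] at hsum
      simp only [Fin.snoc_castSucc, Fin.snoc_last] at hsum
      have h7 : C (c (Fin.last i)) * h0 + lin (vl q m) * h ∈ LS m ^ (β - i) := by
        apply Submodule.add_mem
        · rw [← smul_eq_C_mul]
          exact Submodule.smul_mem _ _ hh0
        · rw [show β - i = (β - (i + 1)) + 1 by omega, pow_succ']
          exact Submodule.mul_mem_mul (vl_mem_LS m q) hh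
      have h8 := hc (fun l => c l.castSucc) _ h7 (by
        convert hsum using 1
        ring)
      have h9 : C (c (Fin.last i)) * (g * h0) + g * lin (vl q m) * h ∈ I := by
        convert hsum using 1
        have : ∑ l : Fin i, C (c l.castSucc) * f l = 0 := by
          refine Finset.sum_eq_zero fun l _ => ?_
          have := congrFun h8 l
          simp only [Pi.zero_apply] at this
          rw [this, map_zero, zero_mul]
        rw [this, zero_add]
      have h10 : lin q ^ τ * (g * lin (vl q m) * h) ∈ I := by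
        have h11 := h1 (g * h) (by
          have := Submodule.mul_mem_mul hg hh
          rwa [← pow_add, show i + (β - (i + 1)) = β - 1 by omega] at this) q
        convert h11 using 1
        ring
      have h12 : C (c (Fin.last i)) * (lin q ^ τ * (g * h0)) ∈ I := by
        have := I.sub_mem (I.mul_mem_left (lin q ^ τ) h9) h10
        convert this using 1
        ring
      have h13 : c (Fin.last i) = 0 := by
        by_contra hne
        apply h5
        have := I.mul_mem_left (C (c (Fin.last i))⁻¹) h12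
        rwa [← mul_assoc, ← map_mul, inv_mul_cancel₀ hne, map_one, one_mul] at this
      ext l
      refine Fin.lastCases ?_ (fun j => ?_) l
      · rw [h13]
        rfl
      · exact congrFun h8 j

/-- **Many independent elements in the last power.** -/
theorem many [CharZero K] {I : Ideal (MvPolynomial (Fin n) K)} {σ : ℕ} (hS : Soc I σ)
    {m : Fin n → MvPolynomial (Fin n) K} {β τ : ℕ} (hτ : τ + β ≤ σ)
    (h1 : ∀ f ∈ LS m ^ (β - 1), ∀ q, lin q ^ τ * lin (vl q m) * f ∈ I)
    (h2 : ∃ h ∈ LS m ^ β, h ∉ I) :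
    ∃ f : Fin (β + 1) → MvPolynomial (Fin n) K, (∀ l, f l ∈ LS m ^ β) ∧
      ∀ c : Fin (β + 1) → K, ∑ l, C (c l) * f l ∈ I → c = 0 := by
  classical
  obtain ⟨g, hg, ⟨h, hh, hgh⟩, f, hf, hc⟩ := chain hS hτ h1 h2 β le_rfl
  have hgI : g ∉ I := fun h' => hgh (I.mul_mem_right _ h')
  refine ⟨Fin.snoc f g, ?_, ?_⟩
  · intro l
    refine Fin.lastCases ?_ (fun j => ?_) l
    · rw [Fin.snoc_last]
      exact hg
    · rw [Fin.snoc_castSucc]
      exact hf j
  · intro c hsum
    rw [Fin.sum_univ_castSucc] at hsum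
    simp only [Fin.snoc_castSucc, Fin.snoc_last] at hsum
    have h8 := hc (fun l => c l.castSucc) (C (c (Fin.last β))) (by
      rw [Nat.sub_self, pow_zero]
      exact Submodule.mem_one.mpr ⟨_, rfl⟩) (by
      convert hsum using 1
      ring)
    have h9 : C (c (Fin.last β)) * g ∈ I := by
      convert hsum using 1
      have : ∑ l : Fin β, C (c l.castSucc) * f l = 0 := by
        refine Finset.sum_eq_zero fun l _ => ?_
        have := congrFun h8 l
        simp only [Pi.zero_apply] at this
        rw [this, map_zero, zero_mul]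
      rw [this, zero_add]
    have h13 : c (Fin.last β) = 0 := by
      by_contra hne
      apply hgI
      have := I.mul_mem_left (C (c (Fin.last β))⁻¹) h9
      rwa [← mul_assoc, ← map_mul, inv_mul_cancel₀ hne, map_one, one_mul] at this
    ext l
    refine Fin.lastCases ?_ (fun j => ?_) l
    · rw [h13]
      rfl
    · exact congrFun h8 j

end Pool.Agent.Q8.GF
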