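import Pool.Agent.Q8.GF.CurB

/-!
Elements which are killed by the linear forms of a codimension two space modulo an ideal of
dimension two.
-/

open MvPolynomial
open Pool.Agent.W515.SLP (AnnP Deg annP_zero annP_of_gt annP_of_homog lin)
open H503R3.QCI (Homog NZD Reg comp_mul)
open TH130CI

namespace Pool.Agent.Q8.GF

open Module
open Pool.Agent.Q8.GC
open Pool.Agent.Q8.GD

variable {K : Type*} [Field K] {n : ℕ}

lemma split_hom {J : Ideal (MvPolynomial (Fin n) K)} (hJ : Homog J) {y : MvPolynomial (Fin n) K}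
    (hy : y.IsHomogeneous 1) {f : MvPolynomial (Fin n) K} {j : ℕ} (hf : f.IsHomogeneous (j + 1))
    (h : f ∈ J ⊔ Ideal.span {y}) :
    ∃ f' : MvPolynomial (Fin n) K, f'.IsHomogeneous j ∧ f - y * f' ∈ J := by
  obtain ⟨u, hu, w, hw, huw⟩ := Submodule.mem_sup.mp h
  obtain ⟨c, rfl⟩ := Ideal.mem_span_singleton'.mp hw
  refine ⟨homogeneousComponent j c, homogeneousComponent_isHomogeneous _ _, ?_⟩
  have h2 := congrArg (homogeneousComponent (j + 1)) huw
  rw [map_add, mul_comm c y, Nat.add_comm j 1, comp_mul hy, Nat.add_comm 1 j,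
    homogeneousComponent_of_mem hf, if_pos rfl] at h2
  rw [← h2, add_sub_cancel_right]
  exact hJ u hu _

section

variable {J3 J4 J5 : Ideal (MvPolynomial (Fin n) K)} {x y : MvPolynomial (Fin n) K}
  {WL : Set (MvPolynomial (Fin n) K)} {ρ : ℕ} {φ : MvPolynomial (Fin n) K →ₗ[K] K}

/-- one dimension -/
theorem dim_one (h4 : Homog J4) (hy1 : y.IsHomogeneous 1) (hJ5 : J5 = J4 ⊔ Ideal.span {y})
    (hy : NZD J4 y) (hgen : ∀ f, (∀ l ∈ WL, l * f ∈ J5) → ∀ i, X i * f ∈ J5)
    (hS : Soc J5 ρ) (hφ : Deg φ ρ) (hJφ : J5 = gor φ) (h1 : (1 : MvPolynomial (Fin n) K) ∉ J5)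
    (hρ : 0 < ρ) :
    ∀ j : ℕ, (j < ρ → ∀ f : MvPolynomial (Fin n) K, f.IsHomogeneous j → (∀ l ∈ WL, l * f ∈ J4) →
        f ∈ J4) ∧
      (∀ f g : MvPolynomial (Fin n) K, f.IsHomogeneous j → g.IsHomogeneous j →
        (∀ l ∈ WL, l * f ∈ J4) → (∀ l ∈ WL, l * g ∈ J4) →
        ∃ α γ : K, (α ≠ 0 ∨ γ ≠ 0) ∧ C α * f + C γ * g ∈ J4) := by
  have h45 : J4 ≤ J5 := by rw [hJ5]; exact le_sup_left
  have hlow : ∀ j, j < ρ → ∀ f : MvPolynomial (Fin n) K, f.IsHomogeneous j →
      (∀ l ∈ WL, l * f ∈ J4) → f ∈ J5 := fun j hj f hf hl =>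
    hS j f hf hj (hgen f fun l hlW => h45 (hl l hlW))
  have hhigh : ∀ j, ρ < j → ∀ f : MvPolynomial (Fin n) K, f.IsHomogeneous j → f ∈ J5 := by
    intro j hj f hf
    rw [hJφ, mem_gor]
    exact annP_of_gt hφ hj hf
  have hstep : ∀ j, ∀ f : MvPolynomial (Fin n) K, f.IsHomogeneous (j + 1) →
      (∀ l ∈ WL, l * f ∈ J4) → f ∈ J5 → ∃ f' : MvPolynomial (Fin n) K, f'.IsHomogeneous j ∧
        (∀ l ∈ WL, l * f' ∈ J4) ∧ f - y * f' ∈ J4 := by
    intro j f hf hl hf5
    rw [hJ5] at hf5
    obtain ⟨f', hf', hff'⟩ := split_hom h4 hy1 hf hf5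
    refine ⟨f', hf', fun l hlW => hy _ ?_, hff'⟩
    have h2 := J4.sub_mem (hl l hlW) (J4.mul_mem_left l hff')
    convert h2 using 1
    ring
  intro j
  induction j with
  | zero =>
    have hz : ∀ f : MvPolynomial (Fin n) K, f.IsHomogeneous 0 → (∀ l ∈ WL, l * f ∈ J4) →
        f ∈ J4 := by
      intro f hf hl
      have h5 := hlow 0 hρ f hf hl
      have h6 : f = C (coeff 0 f) := by
        rw [← mem_homogeneousSubmodule] at hf
        exact (totalDegree_eq_zero_iff_eq_C.mp (Nat.le_zero.mp hf.totalDegree_le))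
      by_cases hc : coeff 0 f = 0
      · rw [h6, hc, map_zero]
        exact J4.zero_mem
      · exfalso
        apply h1
        have h7 := J5.mul_mem_left (C (coeff 0 f)⁻¹) h5
        rw [h6, ← map_mul, coeff_C, if_pos rfl, inv_mul_cancel₀ hc, map_one] at h7
        exact h7
    refine ⟨fun _ => hz, fun f g hf _ hlf _ => ⟨1, 0, Or.inl one_ne_zero, ?_⟩⟩
    rw [map_one, one_mul, map_zero, zero_mul, add_zero]
    exact hz f hf hlf
  | succ j ih =>
    refine ⟨fun hj f hf hl => ?_, fun f g hf hg hlf hlg => ?_⟩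
    · obtain ⟨f', hf', hlf', hff'⟩ := hstep j f hf hl (hlow _ hj f hf hl)
      have h2 := ih.1 (by omega) f' hf' hlf'
      have h3 := J4.add_mem hff' (J4.mul_mem_left y h2)
      rwa [sub_add_cancel] at h3
    · by_cases hfg : f ∈ J5 ∧ g ∈ J5
      · obtain ⟨f', hf', hlf', hff'⟩ := hstep j f hf hlf hfg.1
        obtain ⟨g', hg', hlg', hgg'⟩ := hstep j g hg hlg hfg.2
        obtain ⟨α, γ, hne, h2⟩ := ih.2 f' g' hf' hg' hlf' hlg'
        refine ⟨α, γ, hne, ?_⟩
        have h3 := J4.add_mem (J4.add_mem (J4.mul_mem_left (C α) hff')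
          (J4.mul_mem_left (C γ) hgg')) (J4.mul_mem_left y h2)
        convert h3 using 1
        ring
      · have hjρ : j + 1 = ρ := by
          rcases lt_trichotomy (j + 1) ρ with h | h | h
          · exact absurd ⟨hlow _ h f hf hlf, hlow _ h g hg hlg⟩ hfg
          · exact h
          · exact absurd ⟨hhigh _ h f hf, hhigh _ h g hg⟩ hfg
        have hin : ∀ h : MvPolynomial (Fin n) K, h.IsHomogeneous (j + 1) → φ h = 0 → h ∈ J5 := by
          intro h hh hφh
          rw [hJφ, mem_gor]
          refine annP_of_homog hφ hjρ.le hh fun v hv => ?_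
          rw [← hjρ, Nat.sub_self] at hv
          have h6 : v = C (coeff 0 v) :=
            totalDegree_eq_zero_iff_eq_C.mp (Nat.le_zero.mp hv.totalDegree_le)
          rw [h6, mul_comm, ← smul_eq_C_mul, map_smul, hφh, smul_zero]
        refine ⟨φ g, - φ f, ?_, ?_⟩
        · by_contra hcon
          push Not at hcon
          exact hfg ⟨hin f hf (by simpa using hcon.2), hin g hg hcon.1⟩
        · have hh : (C (φ g) * f + C (- φ f) * g).IsHomogeneous (j + 1) := by
            apply IsHomogeneous.add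
            · have := (isHomogeneous_C (Fin n) (φ g)).mul hf
              rwa [zero_add] at this
            · have := (isHomogeneous_C (Fin n) (- φ f)).mul hg
              rwa [zero_add] at this
          have hl : ∀ l ∈ WL, l * (C (φ g) * f + C (- φ f) * g) ∈ J4 := by
            intro l hlW
            have h2 := J4.add_mem (J4.mul_mem_left (C (φ g)) (hlf l hlW))
              (J4.mul_mem_left (C (- φ f)) (hlg l hlW))
            convert h2 using 1
            ring
          have h5 := hin _ hh (by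
            rw [map_add, ← smul_eq_C_mul, ← smul_eq_C_mul, map_smul, map_smul]
            simp only [smul_eq_mul]
            ring)
          obtain ⟨f', hf', hlf', hff'⟩ := hstep j _ hh hl h5
          have h2 := ih.1 (by omega) f' hf' hlf'
          have h3 := J4.add_mem hff' (J4.mul_mem_left y h2)
          rwa [sub_add_cancel] at h3

/-- **Two dimensions.** -/
theorem dim_two (h3 : Homog J3) (hx1 : x.IsHomogeneous 1) (hJ4 : J4 = J3 ⊔ Ideal.span {x})
    (hx : NZD J3 x) (h4 : Homog J4) (hy1 : y.IsHomogeneous 1) (hJ5 : J5 = J4 ⊔ Ideal.span {y})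
    (hy : NZD J4 y) (hgen : ∀ f, (∀ l ∈ WL, l * f ∈ J5) → ∀ i, X i * f ∈ J5)
    (hS : Soc J5 ρ) (hφ : Deg φ ρ) (hJφ : J5 = gor φ) (h1 : (1 : MvPolynomial (Fin n) K) ∉ J5)
    (hρ : 0 < ρ) :
    ∀ (j : ℕ) (f : Fin (j + 1) → MvPolynomial (Fin n) K), (∀ i, (f i).IsHomogeneous j) →
      (∀ i, ∀ l ∈ WL, l * f i ∈ J3) → ∃ c : Fin (j + 1) → K, c ≠ 0 ∧ ∑ i, C (c i) * f i ∈ J3 := by
  classical
  have h34 : J3 ≤ J4 := by rw [hJ4]; exact le_sup_left
  have h45 : J4 ≤ J5 := by rw [hJ5]; exact le_sup_left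
  intro j
  induction j with
  | zero =>
    intro f hf hl
    have h6 : f 0 = C (coeff 0 (f 0)) :=
      totalDegree_eq_zero_iff_eq_C.mp (Nat.le_zero.mp (hf 0).totalDegree_le)
    have h5 : f 0 ∈ J5 := hS 0 _ (hf 0) hρ (hgen _ fun l hlW => h45 (h34 (hl 0 l hlW)))
    refine ⟨fun _ => 1, fun h => one_ne_zero (congrFun h 0), ?_⟩
    rw [Fin.sum_univ_one, map_one, one_mul]
    by_cases hc : coeff 0 (f 0) = 0
    · rw [h6, hc, map_zero]
      exact J3.zero_mem
    · exfalso
      apply h1
      have h7 := J5.mul_mem_left (C (coeff 0 (f 0))⁻¹) h5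
      rw [h6, ← map_mul, coeff_C, if_pos rfl, inv_mul_cancel₀ hc, map_one] at h7
      exact h7
  | succ j ih =>
    intro f hf hl
    have hkey : ∀ g : Fin (j + 1) → MvPolynomial (Fin n) K, (∀ i, (g i).IsHomogeneous (j + 1)) →
        (∀ i, ∀ l ∈ WL, l * g i ∈ J3) → (∀ i, g i ∈ J4) →
        ∃ c : Fin (j + 1) → K, c ≠ 0 ∧ ∑ i, C (c i) * g i ∈ J3 := by
      intro g hg hlg hg4
      have h2 : ∀ i, ∃ f' : MvPolynomial (Fin n) K, f'.IsHomogeneous j ∧ g i - x * f' ∈ J3 :=
        fun i => split_hom h3 hx1 (hg i) (by rw [← hJ4]; exact hg4 i)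
      choose g' hg' hgg' using h2
      obtain ⟨c, hc, hsum⟩ := ih g' hg' (fun i l hlW => hx _ (by
        have h2 := J3.sub_mem (hlg i l hlW) (J3.mul_mem_left l (hgg' i))
        convert h2 using 1
        ring))
      refine ⟨c, hc, ?_⟩
      have h5 := J3.add_mem (J3.sum_mem fun i (_ : i ∈ Finset.univ) =>
        J3.mul_mem_left (C (c i)) (hgg' i)) (J3.mul_mem_left x hsum)
      convert h5 using 1
      rw [Finset.mul_sum, ← Finset.sum_add_distrib]
      refine Finset.sum_congr rfl fun i _ => ?_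
      ring
    by_cases hall : ∀ i, f i ∈ J4
    · obtain ⟨c, hc, hsum⟩ := hkey (fun i => f i.castSucc) (fun i => hf _) (fun i => hl _)
        (fun i => hall _)
      refine ⟨Fin.snoc c 0, ?_, ?_⟩
      · intro h
        apply hc
        ext i
        have := congrFun h i.castSucc
        rw [Fin.snoc_castSucc] at this
        exact this
      · rw [Fin.sum_univ_castSucc]
        simp only [Fin.snoc_castSucc, Fin.snoc_last, map_zero, zero_mul, add_zero]
        exact hsum
    · push Not at hall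
      obtain ⟨i0, hi0⟩ := hall
      have h2 : ∀ k : Fin (j + 1), ∃ c : K, f (i0.succAbove k) + C c * f i0 ∈ J4 := by
        intro k
        obtain ⟨α, γ, hne, h5⟩ := (dim_one h4 hy1 hJ5 hy hgen hS hφ hJφ h1 hρ (j + 1)).2
          (f i0) (f (i0.succAbove k)) (hf _) (hf _) (fun l hlW => h34 (hl _ l hlW))
          (fun l hlW => h34 (hl _ l hlW))
        have hγ : γ ≠ 0 := by
          intro h0
          rw [h0, map_zero, zero_mul, add_zero] at h5
          have hα : α ≠ 0 := by
            rcases hne with h | h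
            · exact h
            · exact absurd h0 h
          apply hi0
          have := J4.mul_mem_left (C α⁻¹) h5
          rwa [← mul_assoc, ← map_mul, inv_mul_cancel₀ hα, map_one, one_mul] at this
        refine ⟨γ⁻¹ * α, ?_⟩
        have := J4.mul_mem_left (C γ⁻¹) h5
        rw [mul_add, ← mul_assoc, ← mul_assoc, ← map_mul, ← map_mul, inv_mul_cancel₀ hγ, map_one,
          one_mul, add_comm] at this
        exact this
      choose c2 hc2 using h2
      obtain ⟨c, hc, hsum⟩ := hkey (fun k => f (i0.succAbove k) + C (c2 k) * f i0)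
        (fun k => (hf _).add (by
          have := (isHomogeneous_C (Fin n) (c2 k)).mul (hf i0)
          rwa [zero_add] at this))
        (fun k l hlW => by
          have := J3.add_mem (hl (i0.succAbove k) l hlW) (J3.mul_mem_left (C (c2 k)) (hl i0 l hlW))
          convert this using 1
          ring) hc2
      refine ⟨i0.insertNth (∑ k, c k * c2 k) c, ?_, ?_⟩
      · intro h
        apply hc
        ext k
        have := congrFun h (i0.succAbove k)
        rw [Fin.insertNth_apply_succAbove] at this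
        exact this
      · rw [Fin.sum_univ_succAbove _ i0]
        simp only [Fin.insertNth_apply_same, Fin.insertNth_apply_succAbove]
        convert hsum using 1
        rw [map_sum, Finset.sum_mul, ← Finset.sum_add_distrib]
        refine Finset.sum_congr rfl fun k _ => ?_
        rw [map_mul]
        ring

end

end Pool.Agent.Q8.GF
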