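import Pool.Agent.Q8.GF.CurC
import Pool.Agent.Q8.GD.Low

/-!
The forms of Gordan and Noether of a complete intersection in five variables do not move on a curve.
-/

open MvPolynomial
open Pool.Agent.W515.SLP (AnnP Deg annP_zero annP_of_gt annP_of_homog lin)
open H503R3.QCI (Homog NZD Reg comp_mul comp_mul_of_lt homog_span isSocleDegree_ci)
open TH130CI
open Pool.Agent.Y204.LF (reg_prefix exists_lin_of_reg)

namespace Pool.Agent.Q8.GF

open Module
open Pool.Agent.Q8.GC
open Pool.Agent.Q8.GD

variable {K : Type*} [Field K] {n : ℕ}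

lemma LS_mul {I : Ideal (MvPolynomial (Fin n) K)} {m : Fin n → MvPolynomial (Fin n) K}
    {f : MvPolynomial (Fin n) K} (h : ∀ q, lin (vl q m) * f ∈ I) {v : MvPolynomial (Fin n) K}
    (hv : v ∈ LS m) : v * f ∈ I := by
  unfold LS at hv
  refine Submodule.span_induction ?_ ?_ ?_ ?_ hv
  · rintro _ ⟨q', rfl⟩
    exact h q'
  · rw [zero_mul]
    exact I.zero_mem
  · intro v v' _ _ h3 h4
    rw [add_mul]
    exact I.add_mem h3 h4
  · intro c v _ h3
    rw [smul_mul_assoc, smul_eq_C_mul]
    exact I.mul_mem_left _ h3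

lemma exists_three {V : Type*} [AddCommGroup V] [Module K V] [FiniteDimensional K V]
    {ι : Type*} {v : ι → V} (hdim : finrank K (Submodule.span K (Set.range v)) = 3) {p r : V}
    (hp : p ∈ Submodule.span K (Set.range v)) (hr : r ∈ Submodule.span K (Set.range v))
    (hp0 : p ≠ 0) (hrp : r ∉ Submodule.span K {p}) :
    ∃ i, ∀ z ∈ Submodule.span K (Set.range v), ∃ α γ δ : K, z = α • p + γ • r + δ • v i := by
  classical
  set L := Submodule.span K (Set.range v) with hL
  set T1 : Submodule K V := Submodule.span K {p} with hT1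
  set T2 : Submodule K V := T1 ⊔ Submodule.span K {r} with hT2
  have h1 : 1 ≤ finrank K T1 := by rw [hT1, finrank_span_singleton hp0]
  have h12 : T1 < T2 := by
    refine lt_of_le_of_ne le_sup_left fun h => hrp ?_
    rw [h]
    exact Submodule.mem_sup_right (Submodule.mem_span_singleton_self r)
  have h2 := Submodule.finrank_lt_finrank_of_lt h12
  have h2L : T2 ≤ L := sup_le (by rwa [hT1, Submodule.span_singleton_le_iff_mem])
    (by rwa [Submodule.span_singleton_le_iff_mem])
  have h2u : finrank K T2 ≤ 2 := by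
    have h3 := Submodule.finrank_add_le_finrank_add_finrank T1 (Submodule.span K {r})
    have h4 : finrank K (Submodule.span K {r}) ≤ 1 := by
      have := finrank_span_le_card (R := K) ({r} : Set V)
      simpa using this
    have h5 : finrank K T1 = 1 := by rw [hT1, finrank_span_singleton hp0]
    have h6 : finrank K T2 ≤ finrank K T1 + finrank K (Submodule.span K {r}) := h3
    omega
  obtain ⟨i, hi⟩ : ∃ i, v i ∉ T2 := by
    by_contra hcon
    push Not at hcon
    have h3 : L ≤ T2 := by
      rw [hL, Submodule.span_le]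
      rintro _ ⟨i, rfl⟩
      exact hcon i
    have h4 := Submodule.finrank_mono h3
    omega
  refine ⟨i, fun z hz => ?_⟩
  set T3 : Submodule K V := T2 ⊔ Submodule.span K {v i} with hT3
  have h23 : T2 < T3 := by
    refine lt_of_le_of_ne le_sup_left fun h => hi ?_
    rw [h]
    exact Submodule.mem_sup_right (Submodule.mem_span_singleton_self _)
  have h3 := Submodule.finrank_lt_finrank_of_lt h23
  have h3L : T3 ≤ L := sup_le h2L (by
    rw [Submodule.span_singleton_le_iff_mem]
    exact Submodule.subset_span ⟨i, rfl⟩)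
  have h3e : T3 = L := Submodule.eq_of_le_of_finrank_le h3L (by omega)
  rw [← h3e] at hz
  obtain ⟨t, ht, w, hw, rfl⟩ := Submodule.mem_sup.mp hz
  obtain ⟨t1, ht1, t2, ht2, rfl⟩ := Submodule.mem_sup.mp ht
  obtain ⟨α, rfl⟩ := Submodule.mem_span_singleton.mp ht1
  obtain ⟨γ, rfl⟩ := Submodule.mem_span_singleton.mp ht2
  obtain ⟨δ, rfl⟩ := Submodule.mem_span_singleton.mp hw
  exact ⟨α, γ, δ, rfl⟩

/-- **The power of the space of the forms.** -/
theorem top_pow [CharZero K] {I : Ideal (MvPolynomial (Fin n) K)} {s : ℕ} (hS : Soc I (s + 2))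
    {m : Fin n → MvPolynomial (Fin n) K} {j0 : Fin n} (hj0 : m j0 ≠ 0)
    (hm : ∀ q, lin q ^ s * lin (vl q m) ∈ I)
    (hF : ∀ q' : Fin n → K, ∀ j, m j0 * dd (fun i => C (vl q' m i)) m j =
      dd (fun i => C (vl q' m i)) m j0 * m j)
    {β : ℕ} (hβ : ∀ q, lin (vl q m) ^ (β + 1) ∈ I)
    (hdim : finrank K (Submodule.span K (Set.range fun q => vl q m)) = 3)
    {e : Fin n → K} {j : Fin n}
    (hP : m j0 * dd (fun i => C (e i)) m j ≠ dd (fun i => C (e i)) m j0 * m j) :
    ∀ f ∈ LS m ^ (β + 1), f ∈ I := by
  classical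
  have hid := idH hj0 hm hF
  by_cases hβs : s ≤ β
  · -- the trivial case
    have h1 : ∀ f ∈ LS m ^ (s + 1), f ∈ I := by
      intro f hf
      rw [pow_succ'] at hf
      refine Submodule.mul_induction_on hf ?_ ?_
      · intro x hx y hy
        refine LS_mul (fun q => ?_) hx
        have h2 := hid s le_rfl y hy q
        rwa [Nat.sub_self, pow_zero, one_mul] at h2
      · intro x y hx hy
        exact I.add_mem hx hy
    intro f hf
    obtain ⟨k, hk⟩ := Nat.exists_eq_add_of_le hβs
    rw [show β + 1 = k + (s + 1) by omega, pow_add] at hf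
    refine Submodule.mul_induction_on hf ?_ ?_
    · intro x hx y hy
      exact I.mul_mem_left _ (h1 y hy)
    · intro x y hx hy
      exact I.add_mem hx hy
  · push Not at hβs
    by_contra hcon
    push Not at hcon
    obtain ⟨f, hf, hfI⟩ := hcon
    obtain ⟨Pf, hPf, h1⟩ := open_ell hS (LS_homog m _ hf) hfI (k := s - β + 1) (by omega)
    obtain ⟨q, hq⟩ := exists_ne (mul_ne_zero hPf (mul_ne_zero hj0 (sub_ne_zero.mpr hP)))
    rw [map_mul, map_mul] at hq
    have hq1 := h1 q (left_ne_zero_of_mul hq)
    have hq2 := left_ne_zero_of_mul (right_ne_zero_of_mul hq)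
    have hq3 := right_ne_zero_of_mul (right_ne_zero_of_mul hq)
    set p := vl q m with hp
    set r := MM q m e with hr
    have hp0 : p ≠ 0 := fun h0 => hq2 (congrFun h0 j0)
    have hre : ∀ i, r i = eval q (dd (fun i => C (e i)) m i) := by
      intro i
      have h2 := MM_vl q (fun i => C (e i) : Fin n → MvPolynomial (Fin n) K) m
      have h3 : vl q (fun i => C (e i) : Fin n → MvPolynomial (Fin n) K) = e := by
        ext i
        exact eval_C _
      rw [h3] at h2
      exact congrFun h2 i
    have hrp : r ∉ Submodule.span K {p} := by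
      intro h2
      obtain ⟨α, hα⟩ := Submodule.mem_span_singleton.mp h2
      apply hq3
      rw [map_sub, map_mul, map_mul, ← hre, ← hre, ← hα]
      change p j0 * (α * p j) - α * p j0 * p j = 0
      ring
    set L := Submodule.span K (Set.range fun q => vl q m) with hL
    have hLall : ∀ q', vl q' m ∈ L := fun q' => Submodule.subset_span ⟨q', rfl⟩
    obtain ⟨q2, h3⟩ := exists_three hdim (hLall q) (MM_mem_of_forall L hLall q e) hp0 hrp
    set p2 := vl q2 m with hp2
    -- the tangent directions
    have hTp : ∀ g ∈ LS m ^ β, lin q ^ (s - β + 1) * lin p * g ∈ I := by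
      intro g hg
      have h4 := hid β (by omega) g hg q
      have h5 := I.mul_mem_left (lin q) h4
      convert h5 using 1
      rw [pow_succ]
      ring
    have hTr : ∀ g ∈ LS m ^ β, lin q ^ (s - β + 1) * lin r * g ∈ I := by
      intro g hg
      have h4 := hid β (by omega) g hg
      obtain ⟨t, ht⟩ : ∃ t, s - β = t + 1 := ⟨s - β - 1, by omega⟩
      have h5 : ∀ q, lin q ^ (t + 1) * lin (vl q m) ∈ co I g := by
        intro q
        rw [mem_co, ← ht]
        exact h4 q
      have h6 := mem_co.mp (stepT h5 q e)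
      rwa [show t + 2 = s - β + 1 by omega] at h6
    have key : ∀ i, i ≤ β + 1 → ∀ x ∈ LS m ^ i, ∃ c : K, ∀ g ∈ LS m ^ (β + 1 - i),
        lin q ^ (s - β + 1) * (g * (x - C c * lin p2 ^ i)) ∈ I := by
      intro i
      induction i with
      | zero =>
        intro _ x hx
        rw [pow_zero] at hx
        obtain ⟨c, rfl⟩ := Submodule.mem_one.mp hx
        refine ⟨c, fun g _ => ?_⟩
        rw [pow_zero, mul_one]
        have : (algebraMap K (MvPolynomial (Fin n) K)) c - C c = 0 := sub_self _
        rw [this, mul_zero, mul_zero]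
        exact I.zero_mem
      | succ i ih =>
        intro hi x hx
        rw [pow_succ] at hx
        refine Submodule.mul_induction_on hx ?_ ?_
        · intro x' hx' y hy
          obtain ⟨c', hc'⟩ := ih (by omega) x' hx'
          obtain ⟨z, hz, rfl⟩ : ∃ z ∈ L, lin z = y := by
            have h4 : LS m = L.map (linL K n) := by
              rw [hL, Submodule.map_span, ← Set.range_comp]
              rfl
            rw [h4] at hy
            exact hy
          obtain ⟨α, γ, δ, rfl⟩ := h3 z hz
          refine ⟨c' * δ, fun g hg => ?_⟩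
          have hgx : g * x' ∈ LS m ^ β := by
            have h4 := Submodule.mul_mem_mul hg hx'
            rwa [← pow_add, show β + 1 - (i + 1) + i = β by omega] at h4
          have hgp : g * lin p2 ∈ LS m ^ (β + 1 - i) := by
            have h4 := Submodule.mul_mem_mul hg (vl_mem_LS m q2)
            rwa [← pow_succ, show β + 1 - (i + 1) + 1 = β + 1 - i by omega] at h4
          have h5 := I.add_mem (I.add_mem (I.mul_mem_left (C α) (hTp _ hgx))
            (I.mul_mem_left (C γ) (hTr _ hgx))) (I.mul_mem_left (C δ) (hc' _ hgp))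
          convert h5 using 1
          rw [lin_add', lin_add', lin_smul', lin_smul', lin_smul', map_mul, pow_succ (lin p2) i]
          ring
        · rintro x y ⟨c1, h4⟩ ⟨c2, h5⟩
          refine ⟨c1 + c2, fun g hg => ?_⟩
          have h6 := I.add_mem (h4 g hg) (h5 g hg)
          convert h6 using 1
          rw [map_add]
          ring
    obtain ⟨c, hc⟩ := key (β + 1) le_rfl f hf
    have h4 := hc 1 (by rw [Nat.sub_self, pow_zero]; exact Submodule.one_le.mp le_rfl)
    rw [one_mul, mul_sub] at h4
    apply hq1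
    have h5 := I.add_mem h4 (I.mul_mem_left (lin q ^ (s - β + 1)) (I.mul_mem_left (C c) (hβ q2)))
    rwa [sub_add_cancel] at h5

end Pool.Agent.Q8.GF
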