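import Pool.Agent.Q8.GF.CurD

/-!
The forms of Gordan and Noether of a complete intersection in five variables do not move on a curve.
-/

open MvPolynomial
open Pool.Agent.W515.SLP (AnnP Deg annP_zero annP_of_gt annP_of_homog lin)
open H503R3.QCI (Homog NZD Reg comp_mul comp_mul_of_lt homog_span isSocleDegree_ci)
open TH130CI
open Pool.Agent.Y204.LF (reg_prefix exists_lin_of_reg)

namespace Pool.Agent.Q8.GF

open Module
open Pool.Agent.Q8.GC
open Pool.Agent.Q8.GD

variable {K : Type*} [Field K] {n : ℕ}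

/-- elements of low degree are in the ideal of the first generators -/
lemma mem_low {N k : ℕ} (hk : k ≤ N) {a : Fin N → MvPolynomial (Fin n) K} {e : Fin N → ℕ}
    (ha : ∀ i, (a i).IsHomogeneous (e i)) {t : ℕ} (ht : ∀ i : Fin N, k ≤ (i : ℕ) → t < e i)
    {f : MvPolynomial (Fin n) K} (hf : f.IsHomogeneous t) (hfI : f ∈ Ideal.span (Set.range a)) :
    f ∈ Ideal.span (Set.range fun i : Fin k => a (Fin.castLE hk i)) := by
  classical
  have hH : Homog (Ideal.span (Set.range fun i : Fin k => a (Fin.castLE hk i))) := by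
    apply homog_span
    rintro _ ⟨i, rfl⟩
    exact ⟨_, ha _⟩
  obtain ⟨c, hc⟩ := (Ideal.mem_span_range_iff_exists_fun).mp hfI
  have h1 := congrArg (homogeneousComponent t) hc
  rw [homogeneousComponent_of_mem hf, if_pos rfl, map_sum] at h1
  rw [← h1]
  refine Ideal.sum_mem _ fun i _ => ?_
  by_cases hi : k ≤ (i : ℕ)
  · rw [mul_comm, comp_mul_of_lt (ha i) (ht i hi)]
    exact Ideal.zero_mem _
  · push Not at hi
    apply hH
    apply Ideal.mul_mem_left
    exact Ideal.subset_span ⟨⟨i, hi⟩, rfl⟩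

lemma range_snoc_sup {k : ℕ} (a : Fin k → MvPolynomial (Fin n) K) (x : MvPolynomial (Fin n) K) :
    Ideal.span (Set.range (Fin.snoc a x : Fin (k + 1) → MvPolynomial (Fin n) K)) =
      Ideal.span (Set.range a) ⊔ Ideal.span {x} := by
  apply le_antisymm
  · rw [Ideal.span_le]
    rintro _ ⟨i, rfl⟩
    refine Fin.lastCases ?_ (fun j => ?_) i
    · rw [Fin.snoc_last]
      exact Submodule.mem_sup_right (Ideal.subset_span rfl)
    · rw [Fin.snoc_castSucc]
      exact Submodule.mem_sup_left (Ideal.subset_span ⟨j, rfl⟩)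
  · refine sup_le ?_ ?_
    · rw [Ideal.span_le]
      rintro _ ⟨j, rfl⟩
      exact Ideal.subset_span ⟨j.castSucc, Fin.snoc_castSucc _ _ _⟩
    · rw [Ideal.span_le, Set.singleton_subset_iff]
      exact Ideal.subset_span ⟨Fin.last k, Fin.snoc_last _ _⟩

lemma nzd_pow_mem {J : Ideal (MvPolynomial (Fin n) K)} {x : MvPolynomial (Fin n) K} (h : NZD J x)
    (k : ℕ) (hk : x ^ k ∈ J) : (1 : MvPolynomial (Fin n) K) ∈ J := by
  induction k with
  | zero => rwa [pow_zero] at hk
  | succ k ih =>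
    rw [pow_succ'] at hk
    exact ih (h _ hk)

/-- **The forms do not move on a curve.** -/
theorem curve_false [CharZero K] {a : Fin 5 → MvPolynomial (Fin 5) K} {e : Fin 5 → ℕ}
    (ha : ∀ i, (a i).IsHomogeneous (e i)) (he : ∀ i, 2 ≤ e i) (hreg : Reg a) (hmono : Monotone e)
    {s : ℕ} (hσ : ∑ i, (e i - 1) = s + 2) {m : Fin 5 → MvPolynomial (Fin 5) K} {j0 : Fin 5}
    (hj0 : m j0 ≠ 0) (hm : ∀ q, lin q ^ s * lin (vl q m) ∈ Ideal.span (Set.range a))
    (hF : ∀ q' : Fin 5 → K, ∀ j, m j0 * dd (fun i => C (vl q' m i)) m j =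
      dd (fun i => C (vl q' m i)) m j0 * m j)
    {β : ℕ} (h1β : 1 ≤ β) (hβs : β ≤ s) (hβe : β + 1 < e 3)
    (hβ : ∀ q, lin (vl q m) ^ (β + 1) ∈ Ideal.span (Set.range a))
    (hβ0 : ∃ q, lin (vl q m) ^ β ∉ Ideal.span (Set.range a))
    (hdim : 3 ≤ finrank K (Submodule.span K (Set.range fun q => vl q m)))
    {u : Fin 5 → K} {j : Fin 5}
    (hP : m j0 * dd (fun i => C (u i)) m j ≠ dd (fun i => C (u i)) m j0 * m j) : False := by
  classical
  have he1 : ∀ i, 1 ≤ e i := fun i => (by omega : 1 ≤ 2).trans (he i)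
  have hS : Soc (Ideal.span (Set.range a)) (s + 2) := by
    intro j w hw hj hXw
    rw [← hσ] at hj
    exact socle_ci _ a e ha he1 (sreg_of_reg ha he1 hreg) rfl j w hw hj hXw
  set a3 : Fin 3 → MvPolynomial (Fin 5) K := fun i => a (Fin.castLE (by omega) i) with ha3
  set e3 : Fin 3 → ℕ := fun i => e (Fin.castLE (by omega) i) with he3
  have hreg3 : Reg a3 := reg_prefix (by omega) hreg
  have ha3h : ∀ i, (a3 i).IsHomogeneous (e3 i) := fun i => ha _
  have he31 : ∀ i, 1 ≤ e3 i := fun i => he1 _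
  obtain ⟨x, hx⟩ := exists_lin_of_reg (by omega : 3 < 5) ha3h he31 hreg3
  set a4 : Fin 4 → MvPolynomial (Fin 5) K := Fin.snoc a3 (lin x) with ha4
  set e4 : Fin 4 → ℕ := Fin.snoc e3 1 with he4
  have hreg4 : Reg a4 := reg_snoc hreg3 hx
  have ha4h : ∀ i, (a4 i).IsHomogeneous (e4 i) := by
    intro i
    refine Fin.lastCases ?_ (fun j => ?_) i
    · rw [ha4, he4, Fin.snoc_last, Fin.snoc_last]
      exact lin_homog x
    · rw [ha4, he4, Fin.snoc_castSucc, Fin.snoc_castSucc]
      exact ha3h _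
  have he41 : ∀ i, 1 ≤ e4 i := by
    intro i
    refine Fin.lastCases ?_ (fun j => ?_) i
    · rw [he4, Fin.snoc_last]
    · rw [he4, Fin.snoc_castSucc]
      exact he31 _
  obtain ⟨y, hy⟩ := exists_lin_of_reg (by omega : 4 < 5) ha4h he41 hreg4
  set a5 : Fin 5 → MvPolynomial (Fin 5) K := Fin.snoc a4 (lin y) with ha5
  set e5 : Fin 5 → ℕ := Fin.snoc e4 1 with he5
  have hreg5 : Reg a5 := reg_snoc hreg4 hy
  have ha5h : ∀ i, (a5 i).IsHomogeneous (e5 i) := by
    intro i
    refine Fin.lastCases ?_ (fun j => ?_) i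
    · rw [ha5, he5, Fin.snoc_last, Fin.snoc_last]
      exact lin_homog y
    · rw [ha5, he5, Fin.snoc_castSucc, Fin.snoc_castSucc]
      exact ha4h _
  have he51 : ∀ i, 1 ≤ e5 i := by
    intro i
    refine Fin.lastCases ?_ (fun j => ?_) i
    · rw [he5, Fin.snoc_last]
    · rw [he5, Fin.snoc_castSucc]
      exact he41 _
  obtain ⟨φ, hφ, hJφ⟩ := ci_gor ha5h he51 hreg5
  set ρ := ∑ i, (e5 i - 1) with hρ
  have hρ0 : 0 < ρ := by
    have h0 : e5 0 = e 0 := rfl
    have h1 : e5 0 - 1 ≤ ρ := Finset.single_le_sum (f := fun i => e5 i - 1)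
      (fun i _ => Nat.zero_le _) (Finset.mem_univ 0)
    have h2 := he 0
    omega
  have hS5 : Soc (Ideal.span (Set.range a5)) ρ := fun j w hw hj hXw =>
    socle_ci _ a5 e5 ha5h he51 (sreg_of_reg ha5h he51 hreg5) rfl j w hw hj hXw
  set J3 := Ideal.span (Set.range a3) with hJ3
  set J4 := Ideal.span (Set.range a4) with hJ4
  set J5 := Ideal.span (Set.range a5) with hJ5
  have hJ4e : J4 = J3 ⊔ Ideal.span {lin x} := range_snoc_sup _ _
  have hJ5e : J5 = J4 ⊔ Ideal.span {lin y} := range_snoc_sup _ _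
  have h1J5 : (1 : MvPolynomial (Fin 5) K) ∉ J5 := by
    intro h1
    obtain ⟨⟨h0, -, hh0I⟩, -⟩ := isSocleDegree_ci a5 e5 ha5h he51 hreg5
    apply hh0I
    have := J5.mul_mem_left h0 h1
    rwa [mul_one] at this
  have h34 : J3 ≤ J4 := by rw [hJ4e]; exact le_sup_left
  have h45 : J4 ≤ J5 := by rw [hJ5e]; exact le_sup_left
  have h3I : J3 ≤ Ideal.span (Set.range a) := by
    rw [hJ3, Ideal.span_le]
    rintro _ ⟨i, rfl⟩
    exact Ideal.subset_span ⟨_, rfl⟩
  have hH3 : Homog J3 := homog_span (by rintro _ ⟨i, rfl⟩; exact ⟨_, ha3h i⟩)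
  have hH4 : Homog J4 := homog_span (by rintro _ ⟨i, rfl⟩; exact ⟨_, ha4h i⟩)
  -- low degrees
  have hlow : ∀ f : MvPolynomial (Fin 5) K, f.IsHomogeneous (β + 1) →
      f ∈ Ideal.span (Set.range a) → f ∈ J3 := by
    intro f hf hfI
    refine mem_low (k := 3) (by omega) ha (t := β + 1) (fun i hi => ?_) hf hfI
    exact lt_of_lt_of_le hβe (hmono (Fin.le_def.mpr hi))
  set L := Submodule.span K (Set.range fun q => vl q m) with hL
  have hnil : ∀ z ∈ L, ∃ k, lin z ^ k ∈ J3 := by
    have h1 : L ≤ (J3.radical.restrictScalars K).comap (linL K 5) := by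
      rw [hL, Submodule.span_le]
      rintro _ ⟨q, rfl⟩
      refine ⟨β + 1, hlow _ ?_ (hβ q)⟩
      have h2 := (lin_homog (vl q m)).pow (β + 1)
      rwa [one_mul] at h2
    intro z hz
    exact h1 hz
  have hxL : x ∉ L := by
    intro h
    obtain ⟨k, hk⟩ := hnil x h
    exact h1J5 (h45 (h34 (nzd_pow_mem hx k hk)))
  have hyL : y ∉ L ⊔ Submodule.span K {x} := by
    intro h
    obtain ⟨z, hz, w, hw, hzw⟩ := Submodule.mem_sup.mp h
    obtain ⟨α, rfl⟩ := Submodule.mem_span_singleton.mp hw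
    obtain ⟨k, hk⟩ := hnil z hz
    apply h1J5
    apply h45
    refine nzd_pow_mem hy k ?_
    rw [← hzw, lin_add', lin_smul']
    have h2 : (Ideal.Quotient.mk J4) ((lin z + C α * lin x) ^ k) =
        Ideal.Quotient.mk J4 (lin z ^ k) := by
      have h3 : Ideal.Quotient.mk J4 (lin x : MvPolynomial (Fin 5) K) = 0 := by
        rw [Ideal.Quotient.eq_zero_iff_mem, hJ4e]
        exact Submodule.mem_sup_right (Ideal.subset_span rfl)
      rw [map_pow, map_add, map_mul, h3, mul_zero, add_zero, map_pow]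
    rw [← Ideal.Quotient.eq_zero_iff_mem, h2, Ideal.Quotient.eq_zero_iff_mem]
    exact h34 hk
  have hd1 : finrank K L < finrank K (L ⊔ Submodule.span K {x} : Submodule K (Fin 5 → K)) := by
    apply Submodule.finrank_lt_finrank_of_lt
    refine lt_of_le_of_ne le_sup_left fun h => hxL ?_
    rw [h]
    exact Submodule.mem_sup_right (Submodule.mem_span_singleton_self _)
  have hd2 : finrank K (L ⊔ Submodule.span K {x} : Submodule K (Fin 5 → K)) <
      finrank K (L ⊔ Submodule.span K {x} ⊔ Submodule.span K {y} :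
        Submodule K (Fin 5 → K)) := by
    apply Submodule.finrank_lt_finrank_of_lt
    refine lt_of_le_of_ne le_sup_left fun h => hyL ?_
    rw [h]
    exact Submodule.mem_sup_right (Submodule.mem_span_singleton_self _)
  have hd3 := Submodule.finrank_le (L ⊔ Submodule.span K {x} ⊔ Submodule.span K {y} :
    Submodule K (Fin 5 → K))
  rw [finrank_fin_fun] at hd3
  have hd4 : finrank K L = 3 := by omega
  have htop : (L ⊔ Submodule.span K {x} ⊔ Submodule.span K {y} : Submodule K (Fin 5 → K)) = ⊤ := by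
    apply Submodule.eq_top_of_finrank_eq
    rw [finrank_fin_fun]
    omega
  -- the last power
  have hpow := top_pow hS hj0 hm hF hβ hd4 hP
  have hkill : ∀ v ∈ LS m, ∀ f ∈ LS m ^ β, v * f ∈ J3 := by
    intro v hv f hf
    have h1 : v * f ∈ LS m ^ (β + 1) := by
      rw [pow_succ']
      exact Submodule.mul_mem_mul hv hf
    exact hlow _ (LS_homog m _ h1) (hpow _ h1)
  obtain ⟨f, hf, hfc⟩ := many hS (m := m) (β := β) (τ := s - (β - 1)) (by omega)
    (idH hj0 hm hF (β - 1) (by omega)) (by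
      obtain ⟨q, hq⟩ := hβ0
      exact ⟨_, Submodule.pow_mem_pow _ (vl_mem_LS m q) β, hq⟩)
  obtain ⟨c, hc, hsum⟩ := dim_two (WL := (LS m : Set (MvPolynomial (Fin 5) K))) hH3 (lin_homog x)
    hJ4e hx hH4 (lin_homog y) hJ5e hy (by
      intro f hl i
      have h1 : (Pi.single i 1 : Fin 5 → K) ∈
          (L ⊔ Submodule.span K {x} ⊔ Submodule.span K {y} : Submodule K (Fin 5 → K)) := by
        rw [htop]
        trivial
      obtain ⟨t, ht, w, hw, hX⟩ := Submodule.mem_sup.mp h1
      obtain ⟨z, hz, w', hw', rfl⟩ := Submodule.mem_sup.mp ht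
      obtain ⟨α, rfl⟩ := Submodule.mem_span_singleton.mp hw'
      obtain ⟨γ, rfl⟩ := Submodule.mem_span_singleton.mp hw
      have h2 : (X i : MvPolynomial (Fin 5) K) = lin z + C α * lin x + C γ * lin y := by
        rw [← lin_single, ← hX, lin_add', lin_add', lin_smul', lin_smul']
      have h3 : (lin z : MvPolynomial (Fin 5) K) ∈ LS m := by
        have h4 : LS m = L.map (linL K 5) := by
          rw [hL, Submodule.map_span, ← Set.range_comp]
          rfl
        rw [h4]
        exact ⟨z, hz, rfl⟩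
      have hx5 : (lin x : MvPolynomial (Fin 5) K) ∈ J5 := by
        apply h45
        rw [hJ4e]
        exact Submodule.mem_sup_right (Ideal.subset_span rfl)
      have hy5 : (lin y : MvPolynomial (Fin 5) K) ∈ J5 := by
        rw [hJ5e]
        exact Submodule.mem_sup_right (Ideal.subset_span rfl)
      rw [h2, add_mul, add_mul]
      apply J5.add_mem
      · apply J5.add_mem (hl _ h3)
        exact J5.mul_mem_right _ (J5.mul_mem_left _ hx5)
      · exact J5.mul_mem_right _ (J5.mul_mem_left _ hy5))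
    hS5 hφ hJφ h1J5 hρ0 β f (fun i => LS_homog m _ (hf i)) (fun i l hl => hkill l hl _ (hf i))
  exact hc (hfc c (h3I hsum))

end Pool.Agent.Q8.GF
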