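import Pool.Agent.Q8.GF.Sol

/-!
Polynomial vector fields with values in a curve.
-/

open MvPolynomial
open Pool.Agent.W515.SLP (AnnP Deg annP_zero annP_of_gt annP_of_homog lin)
open H503R3.QCI (Homog NZD Reg)
open TH130CI

namespace Pool.Agent.Q8.GF

open Module
open Pool.Agent.Q8.GC
open Pool.Agent.Q8.GD

variable {K : Type*} [Field K] {n : ℕ}

/-- **The rank of the derivative of a map with values in a curve.** -/
theorem rank_two [CharZero K] {r : ℕ} (hr : r + 1 + 1 = n) {a : Fin r → MvPolynomial (Fin n) K}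
    {e : Fin r → ℕ} (ha : ∀ i, (a i).IsHomogeneous (e i)) (he : ∀ i, 1 ≤ e i) (hreg : Reg a)
    {Y : Fin n → MvPolynomial (Fin n) K} (haY : ∀ i, aeval Y (a i) = 0) (x0 : Fin n → K)
    (u : Fin 3 → Fin n → K) (hli : LinearIndependent K fun i => MM x0 Y (u i)) : False := by
  classical
  -- dual vectors
  obtain ⟨g, hg⟩ : ∃ g : (Fin n → K) →ₗ[K] (Fin 3 → K), ∀ j, g (MM x0 Y (u j)) = Pi.single j 1 := by
    have hinj : LinearMap.ker (Fintype.linearCombination K fun i => MM x0 Y (u i)) = ⊥ := by
      rw [LinearMap.ker_eq_bot']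
      intro c hc
      rw [Fintype.linearCombination_apply] at hc
      exact funext (Fintype.linearIndependent_iff.mp hli c hc)
    obtain ⟨g, hg⟩ := LinearMap.exists_leftInverse_of_injective _ hinj
    refine ⟨g, fun j => ?_⟩
    have h1 := LinearMap.congr_fun hg (Pi.single j 1)
    rw [LinearMap.comp_apply, Fintype.linearCombination_apply_single, one_smul] at h1
    exact h1
  let b : Fin 3 → Fin n → K := fun i k => g (Pi.single k 1) i
  have hb : ∀ i (w : Fin n → K), ∑ k, b i k * w k = g w i := by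
    intro i w
    conv_rhs => rw [← Finset.univ_sum_single w]
    rw [map_sum, Finset.sum_apply]
    refine Finset.sum_congr rfl fun k _ => ?_
    have h1 : (Pi.single k (w k) : Fin n → K) = w k • Pi.single k 1 := by
      rw [← Pi.single_smul, smul_eq_mul, mul_one]
    rw [h1, map_smul, Pi.smul_apply, smul_eq_mul, mul_comm]
  obtain ⟨d, G, hG, hG0, hGa⟩ := exists_rel (k := 1) (by omega) ha he hreg b
  set f : Fin 3 → MvPolynomial (Fin n) K := fun i => ∑ j, C (b i j) * Y j with hf
  have hGf : aeval f G = 0 := by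
    have h1 : (aeval Y : MvPolynomial (Fin n) K →ₐ[K] MvPolynomial (Fin n) K)
        (aeval (fun i => (lin (b i) : MvPolynomial (Fin n) K)) G) = aeval f G := by
      rw [← AlgHom.comp_apply]
      congr 1
      apply MvPolynomial.algHom_ext
      intro i
      rw [AlgHom.comp_apply, aeval_X, aeval_X]
      simp only [lin, map_sum, map_mul, aeval_X, hf]
      refine Finset.sum_congr rfl fun j _ => ?_
      congr 1
      exact aeval_C _ _
    rw [← h1]
    have h2 : Ideal.span (Set.range a) ≤ RingHom.ker (aeval Y :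
        MvPolynomial (Fin n) K →ₐ[K] MvPolynomial (Fin n) K) := by
      rw [Ideal.span_le]
      rintro _ ⟨i, rfl⟩
      exact haY i
    exact h2 hGa
  obtain ⟨c, hc0, hc⟩ := dep_grad ⟨d, G, hG, hG0, hGf⟩
  let P : Matrix (Fin 3) (Fin 3) (MvPolynomial (Fin n) K) := fun i j =>
    ∑ l, C (u j l) * pderiv l (f i)
  have hdet : P.det = 0 := by
    rw [← Matrix.exists_vecMul_eq_zero_iff]
    refine ⟨c, hc0, ?_⟩
    ext1 j
    rw [Matrix.vecMul, dotProduct, Pi.zero_apply]
    simp only [P, Finset.mul_sum]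
    rw [Finset.sum_comm]
    refine Finset.sum_eq_zero fun l _ => ?_
    have h1 := hc l
    calc ∑ i, c i * (C (u j l) * pderiv l (f i)) = C (u j l) * ∑ i, c i * pderiv l (f i) := by
          rw [Finset.mul_sum]
          refine Finset.sum_congr rfl fun i _ => ?_
          ring
      _ = 0 := by rw [h1, mul_zero]
  have h1 := congrArg (eval x0) hdet
  rw [RingHom.map_det, map_zero] at h1
  have h2 : (eval x0).mapMatrix P = (1 : Matrix (Fin 3) (Fin 3) K) := by
    ext i j
    rw [RingHom.mapMatrix_apply, Matrix.map_apply]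
    simp only [P, map_sum, map_mul, eval_C]
    have h3 : ∀ l, eval x0 (pderiv l (f i)) = ∑ k, b i k * eval x0 (pderiv l (Y k)) := by
      intro l
      simp only [hf, map_sum]
      refine Finset.sum_congr rfl fun k _ => ?_
      rw [Derivation.leibniz, pderiv_C, smul_zero, add_zero, smul_eq_mul, map_mul, eval_C]
    simp only [h3]
    have h4 : ∑ l, u j l * ∑ k, b i k * eval x0 (pderiv l (Y k)) =
        ∑ k, b i k * MM x0 Y (u j) k := by
      simp only [MM_apply, Finset.mul_sum]
      rw [Finset.sum_comm]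
      refine Finset.sum_congr rfl fun k _ => Finset.sum_congr rfl fun l _ => ?_
      ring
    rw [h4, hb, hg, Matrix.one_apply]
    by_cases h : i = j
    · subst h
      rw [Pi.single_eq_same, if_pos rfl]
    · rw [Pi.single_eq_of_ne h, if_neg h]
  rw [h2, Matrix.det_one] at h1
  exact one_ne_zero h1

/-- **The derivative in the directions orthogonal to the value is proportional to the value.** -/
theorem dir_par [CharZero K] {r : ℕ} (hr : r + 1 + 1 = n) {a : Fin r → MvPolynomial (Fin n) K}
    {e : Fin r → ℕ} (ha : ∀ i, (a i).IsHomogeneous (e i)) (he : ∀ i, 1 ≤ e i) (hreg : Reg a)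
    {Y : Fin n → MvPolynomial (Fin n) K} (haY : ∀ i, aeval Y (a i) = 0) {ρ : ℕ} (hρ : 1 ≤ ρ)
    (hY : ∀ k, (Y k).IsHomogeneous ρ) (hYX : ∑ k, Y k * X k = 0)
    {ε : Fin n → MvPolynomial (Fin n) K} (hε : ∑ k, Y k * ε k = 0) (j k : Fin n) :
    Y j * dd ε Y k = Y k * dd ε Y j := by
  classical
  apply MvPolynomial.funext
  intro x0
  rw [map_mul, map_mul]
  have hdd : ∀ k, eval x0 (dd ε Y k) = MM x0 Y (vl x0 ε) k := by
    intro k
    rw [MM_vl]
    rfl
  rw [hdd, hdd]
  by_cases hY0 : vl x0 Y = 0
  · have h1 : ∀ k, eval x0 (Y k) = 0 := fun k => congrFun hY0 k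
    rw [h1, h1, zero_mul, zero_mul]
  -- a vector which is not orthogonal
  obtain ⟨k0, hk0⟩ : ∃ k0, eval x0 (Y k0) ≠ 0 := by
    by_contra hcon
    push Not at hcon
    exact hY0 (funext hcon)
  have hEul : MM x0 Y x0 = (ρ : K) • vl x0 Y := by
    ext k
    rw [MM_apply, Pi.smul_apply, smul_eq_mul]
    have h1 := congrArg (eval x0) (hY k).sum_X_mul_pderiv
    rw [map_sum, map_nsmul] at h1
    simp only [map_mul, eval_X] at h1
    rw [h1, nsmul_eq_mul]
    rfl
  have hpair : ∀ u, ∑ k, MM x0 Y u k * x0 k = - ∑ k, eval x0 (Y k) * u k := by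
    intro u
    have h1 : ∀ l, ∑ k, eval x0 (pderiv l (Y k)) * x0 k + eval x0 (Y l) = 0 := by
      intro l
      have h2 := congrArg (fun P => eval x0 (pderiv l P)) hYX
      simp only [map_sum, map_zero, Derivation.leibniz, smul_eq_mul, map_add, map_mul, eval_X] at h2
      rw [Finset.sum_add_distrib] at h2
      have h3 : ∑ k, eval x0 (Y k) * eval x0 (pderiv l (X k : MvPolynomial (Fin n) K)) =
          eval x0 (Y l) := by
        rw [Finset.sum_eq_single l]
        · rw [pderiv_X_self, map_one, mul_one]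
        · intro k _ hk
          rw [pderiv_X_of_ne hk, map_zero, mul_zero]
        · intro h; exact absurd (Finset.mem_univ l) h
      rw [h3] at h2
      rw [← h2, add_comm]
      congr 1
      refine Finset.sum_congr rfl fun k _ => mul_comm _ _
    have h4 : ∑ k, MM x0 Y u k * x0 k = ∑ l, u l * ∑ k, eval x0 (pderiv l (Y k)) * x0 k := by
      simp only [MM_apply, Finset.sum_mul, Finset.mul_sum]
      rw [Finset.sum_comm]
      refine Finset.sum_congr rfl fun l _ => Finset.sum_congr rfl fun k _ => ?_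
      ring
    rw [h4, ← Finset.sum_neg_distrib]
    refine Finset.sum_congr rfl fun l _ => ?_
    have h5 := h1 l
    have h6 : ∑ k, eval x0 (pderiv l (Y k)) * x0 k = - eval x0 (Y l) := eq_neg_of_add_eq_zero_left h5
    rw [h6]
    ring
  set u2 := vl x0 ε with hu2
  set u3 : Fin n → K := Pi.single k0 1 with hu3
  have hnot : ¬ LinearIndependent K (fun i => MM x0 Y ((![x0, u2, u3] : Fin 3 → Fin n → K) i)) :=
    fun h => rank_two hr ha he hreg haY x0 _ h
  rw [Fintype.not_linearIndependent_iff] at hnot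
  obtain ⟨g, hg, i0, hi0⟩ := hnot
  rw [Fin.sum_univ_three] at hg
  simp only [Matrix.cons_val_zero, Matrix.cons_val_one, Matrix.cons_val_two, Matrix.head_cons,
    Matrix.tail_cons, Matrix.cons_val] at hg
  have hu2Y : ∑ k, eval x0 (Y k) * u2 k = 0 := by
    have h1 := congrArg (eval x0) hε
    rw [map_sum, map_zero] at h1
    rw [← h1]
    refine Finset.sum_congr rfl fun k _ => ?_
    rw [map_mul]
    rfl
  have hxY : ∑ k, eval x0 (Y k) * x0 k = 0 := by
    have h1 := congrArg (eval x0) hYX
    rw [map_sum, map_zero] at h1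
    rw [← h1]
    refine Finset.sum_congr rfl fun k _ => ?_
    rw [map_mul, eval_X]
  have hu3Y : ∑ k, eval x0 (Y k) * u3 k = eval x0 (Y k0) := by
    rw [Finset.sum_eq_single k0]
    · rw [hu3, Pi.single_eq_same, mul_one]
    · intro k _ hk
      rw [hu3, Pi.single_eq_of_ne hk, mul_zero]
    · intro h; exact absurd (Finset.mem_univ k0) h
  have hg2 : g 2 = 0 := by
    have h1 : ∑ k, (g 0 • MM x0 Y x0 + g 1 • MM x0 Y u2 + g 2 • MM x0 Y u3) k * x0 k = 0 := by
      rw [hg]
      simp
    simp only [Pi.add_apply, Pi.smul_apply, smul_eq_mul, add_mul, Finset.sum_add_distrib] at h1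
    have h2 : ∀ (c : K) (u : Fin n → K), ∑ k, c * MM x0 Y u k * x0 k =
        c * - ∑ k, eval x0 (Y k) * u k := by
      intro c u
      rw [← hpair, Finset.mul_sum]
      refine Finset.sum_congr rfl fun k _ => ?_
      ring
    rw [h2, h2, h2, hxY, hu2Y, hu3Y, neg_zero, mul_zero, mul_zero, zero_add, zero_add,
      mul_neg, neg_eq_zero, mul_eq_zero] at h1
    exact h1.resolve_right hk0
  have hg1 : g 1 ≠ 0 := by
    intro h1
    rw [h1, hg2, zero_smul, zero_smul, add_zero, add_zero, hEul, smul_smul] at hg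
    rcases smul_eq_zero.mp hg with h2 | h2
    · rcases mul_eq_zero.mp h2 with h3 | h3
      · fin_cases i0
        · exact hi0 h3
        · exact hi0 h1
        · exact hi0 hg2
      · exact Nat.cast_ne_zero.mpr (by omega) h3
    · exact hY0 h2
  rw [hg2, zero_smul, add_zero, hEul, smul_smul] at hg
  have h5 : ∀ k, g 1 * MM x0 Y u2 k = - (g 0 * (ρ : K)) * eval x0 (Y k) := by
    intro k
    have h6 := congrFun hg k
    simp only [Pi.add_apply, Pi.smul_apply, smul_eq_mul, Pi.zero_apply] at h6
    have h7 : vl x0 Y k = eval x0 (Y k) := rfl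
    rw [h7] at h6
    linear_combination h6
  apply mul_left_cancel₀ hg1
  linear_combination eval x0 (Y j) * h5 k - eval x0 (Y k) * h5 j

end Pool.Agent.Q8.GF
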