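import Pool.Agent.Q8.GF.CvA

/-!
The fibres of a map to a curve of hyperplanes are hyperplanes.
-/

open MvPolynomial
open Pool.Agent.W515.SLP (AnnP Deg annP_zero annP_of_gt annP_of_homog lin)
open H503R3.QCI (Homog NZD Reg)
open TH130CI

namespace Pool.Agent.Q8.GF

open Module
open Pool.Agent.Q8.GC
open Pool.Agent.Q8.GD

variable {K : Type*} [Field K] {n : ℕ}

/-- a linear differential equation which is regular at zero -/
theorem ode [CharZero K] {w A B : Polynomial K} (h : A * Polynomial.derivative w = B * w)
    (hA : A.eval 0 ≠ 0) (hw : w.eval 0 = 0) : w = 0 := by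
  by_contra hw0
  obtain ⟨g, hg, hnd⟩ := Polynomial.exists_eq_pow_rootMultiplicity_mul_and_not_dvd w hw0 0
  have ha : 0 < Polynomial.rootMultiplicity 0 w := by
    rw [Polynomial.rootMultiplicity_pos hw0]
    exact hw
  obtain ⟨b, hb⟩ : ∃ b, Polynomial.rootMultiplicity 0 w = b + 1 :=
    ⟨Polynomial.rootMultiplicity 0 w - 1, by omega⟩
  rw [hb, Polynomial.C_0, sub_zero] at hg
  rw [Polynomial.C_0, sub_zero, Polynomial.X_dvd_iff] at hnd
  have h1 : Polynomial.X ^ b * (A * (((b + 1 : ℕ) : Polynomial K) * g +
      Polynomial.X * Polynomial.derivative g)) = Polynomial.X ^ b * (B * Polynomial.X * g) := by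
    have h2 : Polynomial.derivative w = Polynomial.X ^ b * (((b + 1 : ℕ) : Polynomial K) * g +
        Polynomial.X * Polynomial.derivative g) := by
      rw [hg, Polynomial.derivative_mul, Polynomial.derivative_X_pow]
      simp only [Nat.add_sub_cancel, Polynomial.C_eq_natCast]
      ring
    rw [h2] at h
    rw [hg] at h
    linear_combination h
  have h2 := mul_left_cancel₀ (pow_ne_zero _ Polynomial.X_ne_zero) h1
  have h3 := congrArg (Polynomial.eval 0) h2
  simp only [Polynomial.eval_mul, Polynomial.eval_add, Polynomial.eval_natCast,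
    Polynomial.eval_X, zero_mul, mul_zero, add_zero] at h3
  rcases mul_eq_zero.mp h3 with h4 | h4
  · exact hA h4
  · rcases mul_eq_zero.mp h4 with h5 | h5
    · exact Nat.cast_ne_zero.mpr (Nat.succ_ne_zero b) h5
    · apply hnd
      rwa [Polynomial.coeff_zero_eq_eval_zero]

/-- restriction to a line -/
noncomputable def line (q ε : Fin n → K) : MvPolynomial (Fin n) K →ₐ[K] Polynomial K :=
  aeval fun i => Polynomial.C (q i) + Polynomial.C (ε i) * Polynomial.X

lemma eval_linep (q ε : Fin n → K) (t : K) (P : MvPolynomial (Fin n) K) :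
    (line q ε P).eval t = eval (fun i => q i + ε i * t) P := by
  induction P using MvPolynomial.induction_on with
  | C a =>
    rw [line, aeval_C, eval_C]
    exact Polynomial.eval_C
  | add p q hp hq => rw [map_add, Polynomial.eval_add, hp, hq, map_add]
  | mul_X p i hp =>
    rw [map_mul, Polynomial.eval_mul, hp, map_mul, eval_X, line, aeval_X]
    simp

lemma deriv_linep (q ε : Fin n → K) (P : MvPolynomial (Fin n) K) :
    Polynomial.derivative (line q ε P) = line q ε (∑ l, C (ε l) * pderiv l P) := by
  classical
  induction P using MvPolynomial.induction_on with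
  | C a =>
    rw [line, aeval_C]
    simp only [pderiv_C, mul_zero, Finset.sum_const_zero, map_zero]
    exact Polynomial.derivative_C
  | add p q hp hq =>
    simp only [map_add, mul_add, Finset.sum_add_distrib]
    rw [hp, hq]
  | mul_X p i hp =>
    rw [map_mul, Polynomial.derivative_mul, hp]
    simp only [Derivation.leibniz, smul_eq_mul, mul_add, Finset.sum_add_distrib, map_add]
    have h1 : ∑ l, C (ε l) * (p * pderiv l (X i : MvPolynomial (Fin n) K)) = C (ε i) * p := by
      rw [Finset.sum_eq_single i]
      · rw [pderiv_X_self, mul_one]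
      · intro l _ hl
        rw [pderiv_X_of_ne hl.symm, mul_zero, mul_zero]
      · intro h; exact absurd (Finset.mem_univ i) h
    have h2 : ∑ l, C (ε l) * (X i * pderiv l p) = X i * ∑ l, C (ε l) * pderiv l p := by
      rw [Finset.mul_sum]
      refine Finset.sum_congr rfl fun l _ => ?_
      ring
    rw [h1, h2, map_mul (line q ε), map_mul (line q ε)]
    have h3 : Polynomial.derivative (line q ε (X i)) = line q ε (C (ε i)) := by
      rw [line, aeval_X, aeval_C]
      simp
    rw [h3]
    ring

/-- **The value is constant on a hyperplane.** -/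
theorem fibre [CharZero K] {Y : Fin n → MvPolynomial (Fin n) K}
    (hpar : ∀ ε : Fin n → MvPolynomial (Fin n) K, ∑ k, Y k * ε k = 0 → ∀ j k,
      Y j * dd ε Y k = Y k * dd ε Y j) {q : Fin n → K} {k0 : Fin n} (hk0 : eval q (Y k0) ≠ 0)
    {ε : Fin n → K} (hε : ∑ k, eval q (Y k) * ε k = 0) (k : Fin n) :
    Polynomial.C (eval q (Y k0)) * line q ε (Y k) = Polynomial.C (eval q (Y k)) * line q ε (Y k0) := by
  classical
  set S : MvPolynomial (Fin n) K := ∑ i, Y i * C (ε i) with hS
  have hst : ∀ j k, Y j * (Y k0 * dd (fun i => C (ε i)) Y k - S * pderiv k0 (Y k)) =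
      Y k * (Y k0 * dd (fun i => C (ε i)) Y j - S * pderiv k0 (Y j)) := by
    intro j k
    have hdd : ∀ k, dd (fun i => Y k0 * C (ε i) - S * Pi.single (M := fun _ => MvPolynomial (Fin n) K) k0 1 i) Y k =
        Y k0 * dd (fun i => C (ε i)) Y k - S * pderiv k0 (Y k) := by
      intro k
      simp only [dd, sub_mul, Finset.sum_sub_distrib]
      congr 1
      · rw [Finset.mul_sum]
        refine Finset.sum_congr rfl fun i _ => ?_
        ring
      · rw [Finset.sum_eq_single k0]
        · rw [Pi.single_eq_same, mul_one]
        · intro i _ hi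
          rw [Pi.single_eq_of_ne hi, mul_zero, zero_mul]
        · intro h; exact absurd (Finset.mem_univ k0) h
    rw [← hdd, ← hdd]
    apply hpar
    simp only [mul_sub, Finset.sum_sub_distrib]
    rw [Finset.sum_eq_single (s := Finset.univ) (f := fun i => Y i * (S * Pi.single (M := fun _ => MvPolynomial (Fin n) K) k0 1 i)) k0]
    · rw [Pi.single_eq_same, mul_one, hS, Finset.mul_sum, sub_eq_zero]
      refine Finset.sum_congr rfl fun i _ => ?_
      ring
    · intro i _ hi
      rw [Pi.single_eq_of_ne hi, mul_zero, mul_zero]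
    · intro h; exact absurd (Finset.mem_univ k0) h
  have hder : ∀ k, line q ε (dd (fun i => C (ε i)) Y k) = Polynomial.derivative (line q ε (Y k)) := by
    intro k
    rw [deriv_linep]
    rfl
  have hst2 : ∀ j k, line q ε (Y j) * (line q ε (Y k0) * Polynomial.derivative (line q ε (Y k)) -
      line q ε S * line q ε (pderiv k0 (Y k))) =
      line q ε (Y k) * (line q ε (Y k0) * Polynomial.derivative (line q ε (Y j)) -
      line q ε S * line q ε (pderiv k0 (Y j))) := by
    intro j k
    have h1 := congrArg (line q ε) (hst j k)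
    simp only [map_mul, map_sub, hder] at h1
    exact h1
  have hev0 : ∀ P, (line q ε P).eval 0 = eval q P := by
    intro P
    rw [eval_linep]
    simp
  have hZ0 : (line q ε (Y k0)).eval 0 ≠ 0 := by rwa [hev0]
  have hZne : line q ε (Y k0) ≠ 0 := by
    intro h0
    rw [h0, Polynomial.eval_zero] at hZ0
    exact hZ0 rfl
  -- the direction stays orthogonal
  have hw : line q ε S = 0 := by
    have hSe : line q ε S = ∑ i, line q ε (Y i) * Polynomial.C (ε i) := by
      rw [hS, map_sum]
      refine Finset.sum_congr rfl fun i _ => ?_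
      rw [map_mul]
      congr 1
      rw [line, aeval_C]
      rfl
    have hSd : Polynomial.derivative (line q ε S) =
        ∑ i, Polynomial.derivative (line q ε (Y i)) * Polynomial.C (ε i) := by
      rw [hSe, Polynomial.derivative_sum]
      refine Finset.sum_congr rfl fun i _ => ?_
      rw [Polynomial.derivative_mul, Polynomial.derivative_C, mul_zero, add_zero]
    have h1 : ∑ k, Polynomial.C (ε k) * (line q ε (Y k0) * (line q ε (Y k0) *
        Polynomial.derivative (line q ε (Y k)) - line q ε S * line q ε (pderiv k0 (Y k)))) =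
        ∑ k, Polynomial.C (ε k) * (line q ε (Y k) * (line q ε (Y k0) *
        Polynomial.derivative (line q ε (Y k0)) - line q ε S * line q ε (pderiv k0 (Y k0)))) :=
      Finset.sum_congr rfl fun k _ => by rw [hst2]
    have h2 : ∑ k, Polynomial.C (ε k) * (line q ε (Y k) * (line q ε (Y k0) *
        Polynomial.derivative (line q ε (Y k0)) - line q ε S * line q ε (pderiv k0 (Y k0)))) =
        line q ε S * (line q ε (Y k0) *
        Polynomial.derivative (line q ε (Y k0)) - line q ε S * line q ε (pderiv k0 (Y k0))) := by
      conv_rhs => rw [hSe, Finset.sum_mul]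
      refine Finset.sum_congr rfl fun i _ => ?_
      rw [← hSe]
      ring
    have h3 : ∑ k, Polynomial.C (ε k) * (line q ε (Y k0) * (line q ε (Y k0) *
        Polynomial.derivative (line q ε (Y k)) - line q ε S * line q ε (pderiv k0 (Y k)))) =
        line q ε (Y k0) * line q ε (Y k0) * Polynomial.derivative (line q ε S) -
        line q ε S * (line q ε (Y k0) * ∑ k, Polynomial.C (ε k) * line q ε (pderiv k0 (Y k))) := by
      rw [hSd, Finset.mul_sum, Finset.mul_sum, Finset.mul_sum, ← Finset.sum_sub_distrib]
      refine Finset.sum_congr rfl fun i _ => ?_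
      ring
    rw [h2, h3] at h1
    apply ode (A := line q ε (Y k0) * line q ε (Y k0))
      (B := line q ε (Y k0) * Polynomial.derivative (line q ε (Y k0)) -
        line q ε S * line q ε (pderiv k0 (Y k0)) +
        line q ε (Y k0) * ∑ k, Polynomial.C (ε k) * line q ε (pderiv k0 (Y k)))
    · linear_combination h1
    · rw [Polynomial.eval_mul]
      exact mul_ne_zero hZ0 hZ0
    · rw [hev0, hS, map_sum, ← hε]
      refine Finset.sum_congr rfl fun i _ => ?_
      rw [map_mul, eval_C]
  have h4 := hst2 k0 k
  rw [hw, zero_mul, zero_mul, sub_zero, sub_zero] at h4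
  have h5 := mul_left_cancel₀ hZne (h4.trans (by ring :
    line q ε (Y k) * (line q ε (Y k0) * Polynomial.derivative (line q ε (Y k0))) =
    line q ε (Y k0) * (line q ε (Y k) * Polynomial.derivative (line q ε (Y k0)))))
  have h6 := ode (w := Polynomial.C (eval q (Y k0)) * line q ε (Y k) -
    Polynomial.C (eval q (Y k)) * line q ε (Y k0)) (A := line q ε (Y k0))
    (B := Polynomial.derivative (line q ε (Y k0))) (by
      rw [Polynomial.derivative_sub, Polynomial.derivative_mul, Polynomial.derivative_mul,
        Polynomial.derivative_C, Polynomial.derivative_C, zero_mul, zero_mul, zero_add, zero_add]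
      linear_combination Polynomial.C (eval q (Y k0)) * h5) hZ0 (by
      rw [Polynomial.eval_sub, Polynomial.eval_mul, Polynomial.eval_mul, Polynomial.eval_C,
        Polynomial.eval_C, hev0, hev0]
      ring)
  exact sub_eq_zero.mp h6

/-- **An equation for the value of the map gives an equation on the hyperplane.** -/
theorem plane [CharZero K] {Y : Fin n → MvPolynomial (Fin n) K}
    (hpar : ∀ ε : Fin n → MvPolynomial (Fin n) K, ∑ k, Y k * ε k = 0 → ∀ j k,
      Y j * dd ε Y k = Y k * dd ε Y j) (hYX : ∑ k, Y k * X k = 0)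
    {P : Fin n → MvPolynomial (Fin n) K} (hP : ∑ k, Y k * P k = 0)
    {q : Fin n → K} {k0 : Fin n} (hk0 : eval q (Y k0) ≠ 0)
    {x : Fin n → K} (hx : ∑ k, eval q (Y k) * x k = 0) :
    ∑ k, eval q (Y k) * eval x (P k) = 0 := by
  have hε : ∑ k, eval q (Y k) * (x - q) k = 0 := by
    have h1 := congrArg (eval q) hYX
    rw [map_sum, map_zero] at h1
    simp only [map_mul, eval_X] at h1
    simp only [Pi.sub_apply, mul_sub, Finset.sum_sub_distrib]
    rw [hx, h1, sub_zero]
  have hev0 : ∀ P, (line q (x - q) P).eval 0 = eval q P := by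
    intro P
    rw [eval_linep]
    simp
  have hZne : line q (x - q) (Y k0) ≠ 0 := by
    intro h0
    apply hk0
    rw [← hev0, h0, Polynomial.eval_zero]
  have h1 : line q (x - q) (Y k0) * ∑ k, Polynomial.C (eval q (Y k)) * line q (x - q) (P k) = 0 := by
    have h2 := congrArg (line q (x - q)) hP
    rw [map_sum, map_zero] at h2
    have h3 : line q (x - q) (Y k0) * ∑ k, Polynomial.C (eval q (Y k)) * line q (x - q) (P k) =
        Polynomial.C (eval q (Y k0)) * ∑ k, line q (x - q) (Y k * P k) := by
      rw [Finset.mul_sum, Finset.mul_sum]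
      refine Finset.sum_congr rfl fun k _ => ?_
      rw [map_mul]
      have h4 := fibre hpar hk0 hε k
      linear_combination - line q (x - q) (P k) * h4
    rw [h3, h2, mul_zero]
  have h2 := (mul_eq_zero.mp h1).resolve_left hZne
  have h3 := congrArg (Polynomial.eval 1) h2
  rw [Polynomial.eval_finsetSum, Polynomial.eval_zero] at h3
  rw [← h3]
  refine Finset.sum_congr rfl fun k _ => ?_
  have h4 : (fun i => q i + (x - q) i * 1) = x := by
    funext i
    rw [Pi.sub_apply, mul_one, add_sub_cancel]
  rw [Polynomial.eval_mul, Polynomial.eval_C, eval_linep, h4]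

end Pool.Agent.Q8.GF
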