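import Pool.Agent.Q8.GF.CvB
import Mathlib.RingTheory.MvPolynomial.IrreducibleQuadratic

/-!
The polynomial of a family of hyperplanes and its divisibility properties.
-/

open MvPolynomial
open Pool.Agent.W515.SLP (AnnP Deg annP_zero annP_of_gt annP_of_homog lin)
open H503R3.QCI (Homog NZD Reg)
open TH130CI

namespace Pool.Agent.Q8.GF

open Module
open Pool.Agent.Q8.GC
open Pool.Agent.Q8.GD

variable {K : Type*} [Field K] {n : ℕ}

/-- removing the common factor -/
theorem exists_prim {Y : Fin n → MvPolynomial (Fin n) K} {k0 : Fin n} (hk0 : Y k0 ≠ 0) :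
    ∃ (g : MvPolynomial (Fin n) K) (Y' : Fin n → MvPolynomial (Fin n) K), g ≠ 0 ∧
      (∀ k, Y k = g * Y' k) ∧ ∀ c, (∀ k, c ∣ Y' k) → IsUnit c := by
  classical
  let := UniqueFactorizationMonoid.strongNormalizationMonoid (α := MvPolynomial (Fin n) K)
  let := UniqueFactorizationMonoid.toNormalizedGCDMonoid (MvPolynomial (Fin n) K)
  obtain ⟨Y', h1, h2⟩ := Finset.extract_gcd (s := Finset.univ) Y ⟨k0, Finset.mem_univ _⟩
  refine ⟨Finset.univ.gcd Y, Y', ?_, fun k => h1 k (Finset.mem_univ k), ?_⟩
  · intro h0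
    apply hk0
    rw [h1 k0 (Finset.mem_univ _), h0, zero_mul]
  · intro c hc
    apply isUnit_of_dvd_one
    rw [← h2]
    exact Finset.dvd_gcd fun k _ => hc k

lemma zero_of_eval2 [Infinite K] {Q : MvPolynomial (Fin n) (MvPolynomial (Fin n) K)}
    (h : ∀ x : Fin n → K, eval (fun i => (C (x i) : MvPolynomial (Fin n) K)) Q = 0) : Q = 0 := by
  refine MvPolynomial.funext_set (fun _ => Set.range (C : K → MvPolynomial (Fin n) K))
    (fun _ => Set.infinite_range_of_injective (C_injective (Fin n) K)) fun x hx => ?_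
  choose z hz using fun i => hx i (Set.mem_univ i)
  have h1 : x = fun i => C (z i) := funext fun i => (hz i).symm
  rw [map_zero, h1, h]

/-- the linear form of a family of hyperplanes -/
noncomputable def ff (Y : Fin n → MvPolynomial (Fin n) K) :
    MvPolynomial (Fin n) (MvPolynomial (Fin n) K) := ∑ k, C (Y k) * X k

/-- the pairing with a map -/
noncomputable def hh (Y P : Fin n → MvPolynomial (Fin n) K) :
    MvPolynomial (Fin n) (MvPolynomial (Fin n) K) := ∑ k, C (Y k) * map C (P k)

lemma eval_mapC (x : Fin n → K) (p : MvPolynomial (Fin n) K) :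
    eval (fun i => (C (x i) : MvPolynomial (Fin n) K)) (map C p) = C (eval x p) := by
  induction p using MvPolynomial.induction_on with
  | C a => rw [map_C, eval_C, eval_C]
  | add p q hp hq => rw [map_add, map_add, hp, hq, map_add, map_add]
  | mul_X p i hp => rw [map_mul, map_mul, hp, map_X, eval_X, map_mul, map_mul, eval_X]

lemma eval_ff (Y : Fin n → MvPolynomial (Fin n) K) (x : Fin n → K) :
    eval (fun i => (C (x i) : MvPolynomial (Fin n) K)) (ff Y) = ∑ k, Y k * C (x k) := by
  rw [ff, map_sum]
  refine Finset.sum_congr rfl fun k _ => ?_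
  rw [map_mul, eval_C, eval_X]

lemma eval_hh (Y P : Fin n → MvPolynomial (Fin n) K) (x : Fin n → K) :
    eval (fun i => (C (x i) : MvPolynomial (Fin n) K)) (hh Y P) = ∑ k, Y k * C (eval x (P k)) := by
  rw [hh, map_sum]
  refine Finset.sum_congr rfl fun k _ => ?_
  rw [map_mul, eval_C, eval_mapC]

lemma coeff_ff (Y : Fin n → MvPolynomial (Fin n) K) (k : Fin n) :
    coeff (Finsupp.single k 1) (ff Y) = Y k := by
  classical
  rw [ff, coeff_sum, Finset.sum_eq_single k]
  · rw [coeff_C_mul, coeff_X, if_pos rfl, mul_one]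
  · intro j _ hj
    rw [coeff_C_mul, coeff_X, if_neg, mul_zero]
    intro h
    exact hj (Finsupp.single_left_injective one_ne_zero h)
  · intro h; exact absurd (Finset.mem_univ k) h

lemma ff_homog (Y : Fin n → MvPolynomial (Fin n) K) : (ff Y).IsHomogeneous 1 := by
  apply IsHomogeneous.sum
  intro k _
  have h1 := (isHomogeneous_C (Fin n) (Y k)).mul (isHomogeneous_X (MvPolynomial (Fin n) K) k)
  rwa [zero_add] at h1

lemma ff_ne {Y : Fin n → MvPolynomial (Fin n) K} {k0 : Fin n} (hk0 : Y k0 ≠ 0) : ff Y ≠ 0 := by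
  intro h0
  apply hk0
  rw [← coeff_ff Y k0, h0, coeff_zero]

lemma ff_deg {Y : Fin n → MvPolynomial (Fin n) K} {k0 : Fin n} (hk0 : Y k0 ≠ 0) :
    (ff Y).totalDegree = 1 := (ff_homog Y).totalDegree (ff_ne hk0)

lemma ff_prime {Y : Fin n → MvPolynomial (Fin n) K} {k0 : Fin n} (hk0 : Y k0 ≠ 0)
    (hp : ∀ c, (∀ k, c ∣ Y k) → IsUnit c) : Prime (ff Y) := by
  rw [← UniqueFactorizationMonoid.irreducible_iff_prime]
  apply irreducible_of_totalDegree_eq_one (ff_deg hk0)
  intro c hc
  exact hp c fun k => by rw [← coeff_ff Y k]; exact hc _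

lemma aeval_scale {A : Type*} [CommRing A] {p : MvPolynomial (Fin n) A} {d : ℕ}
    (hp : p.IsHomogeneous d) (c : A) :
    aeval (fun i => (C c * X i : MvPolynomial (Fin n) A)) p = C c ^ d * p := by
  classical
  conv_lhs => rw [p.as_sum]
  conv_rhs => rw [p.as_sum]
  rw [map_sum, Finset.mul_sum]
  refine Finset.sum_congr rfl fun s hs => ?_
  have hd : ∑ i, s i = d := by
    have h1 := hp (mem_support_iff.mp hs)
    rw [← h1, Finsupp.weight_apply, Finsupp.sum_fintype]
    · simp
    · intro i; simp
  rw [aeval_monomial, monomial_eq, Finsupp.prod_fintype, Finsupp.prod_fintype]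
  · simp only [mul_pow, Finset.prod_mul_distrib, Finset.prod_pow_eq_pow_sum, hd]
    rw [algebraMap_eq]
    ring
  · intro i; rw [pow_zero]
  · intro i; rw [pow_zero]

/-- **Divisibility by the linear form.** -/
theorem ff_dvd [CharZero K] {Y Y' : Fin n → MvPolynomial (Fin n) K} {g : MvPolynomial (Fin n) K}
    (hg : g ≠ 0) (hY : ∀ k, Y k = g * Y' k) (hprime : Prime (ff Y')) {k0 : Fin n}
    (hk0 : Y' k0 ≠ 0) {P : Fin n → MvPolynomial (Fin n) K} {d : ℕ}
    (hPh : ∀ k, (P k).IsHomogeneous d)
    (hplane : ∀ q x : Fin n → K, eval q (Y k0) ≠ 0 → ∑ k, eval q (Y k) * x k = 0 →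
      ∑ k, eval q (Y k) * eval x (P k) = 0) : ff Y' ∣ hh Y' P := by
  classical
  set σ : Fin n → MvPolynomial (Fin n) (MvPolynomial (Fin n) K) :=
    fun i => C (Y' k0) * X i - if i = k0 then ff Y' else 0 with hσ
  -- the value after the substitution
  have hval : ∀ (q x : Fin n → K) (p : MvPolynomial (Fin n) K),
      eval q (eval (fun i => (C (x i) : MvPolynomial (Fin n) K)) (aeval σ (map (C : K →+* MvPolynomial (Fin n) K) p))) =
      eval (fun i => eval q (Y' k0) * x i - if i = k0 then ∑ k, eval q (Y' k) * x k else 0) p := by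
    intro q x p
    induction p using MvPolynomial.induction_on with
    | C a =>
      rw [map_C, aeval_C, algebraMap_eq, eval_C, eval_C, eval_C]
    | add p q hp hq => rw [map_add, map_add, map_add, map_add, hp, hq, map_add]
    | mul_X p i hp =>
      rw [map_mul, map_mul, map_mul, map_mul, hp, map_mul, map_X, aeval_X, eval_X, hσ]
      congr 1
      simp only [map_sub, map_mul, eval_C, eval_X]
      congr 1
      by_cases h : i = k0
      · rw [if_pos h, if_pos h, eval_ff, map_sum]
        refine Finset.sum_congr rfl fun k _ => ?_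
        rw [map_mul, eval_C]
      · rw [if_neg h, if_neg h, map_zero, map_zero]
  have hz : ∑ k, C (Y' k) * aeval σ (map (C : K →+* MvPolynomial (Fin n) K) (P k)) = 0 := by
    have hY0 : Y k0 ≠ 0 := by
      rw [hY]
      exact mul_ne_zero hg hk0
    have h1 : (C (Y k0) : MvPolynomial (Fin n) (MvPolynomial (Fin n) K)) *
        ∑ k, C (Y' k) * aeval σ (map (C : K →+* MvPolynomial (Fin n) K) (P k)) = 0 := by
      apply zero_of_eval2
      intro x
      apply MvPolynomial.funext
      intro q
      rw [map_mul, eval_C, map_mul, map_zero, map_sum, map_sum]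
      by_cases hq : eval q (Y k0) = 0
      · rw [hq, zero_mul]
      · have hgq : eval q g ≠ 0 := by
          intro h0
          apply hq
          rw [hY, map_mul, h0, zero_mul]
        have h2 : ∀ k, eval q (eval (fun i => (C (x i) : MvPolynomial (Fin n) K))
            (C (Y' k) * aeval σ (map (C : K →+* MvPolynomial (Fin n) K) (P k)))) = eval q (Y' k) *
            eval (fun i => eval q (Y' k0) * x i -
              if i = k0 then ∑ k, eval q (Y' k) * x k else 0) (P k) := by
          intro k
          rw [map_mul, eval_C, map_mul, hval]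
        simp only [h2]
        have h3 := hplane q (fun i => eval q (Y' k0) * x i -
              if i = k0 then ∑ k, eval q (Y' k) * x k else 0) hq (by
          have e1 : ∑ k, eval q (Y k) * (eval q (Y' k0) * x k -
              if k = k0 then ∑ k, eval q (Y' k) * x k else 0) =
              eval q g * (eval q (Y' k0) * ∑ k, eval q (Y' k) * x k -
                ∑ k, if k = k0 then eval q (Y' k) * ∑ k, eval q (Y' k) * x k else 0) := by
            rw [Finset.mul_sum, ← Finset.sum_sub_distrib, Finset.mul_sum]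
            refine Finset.sum_congr rfl fun k _ => ?_
            rw [hY, map_mul]
            by_cases h : k = k0
            · rw [if_pos h, if_pos h]; ring
            · rw [if_neg h, if_neg h]; ring
          rw [e1, Finset.sum_ite_eq' Finset.univ k0, if_pos (Finset.mem_univ k0), sub_self,
            mul_zero])
        have h4 : eval q g * ∑ k, eval q (Y' k) *
            eval (fun i => eval q (Y' k0) * x i -
              if i = k0 then ∑ k, eval q (Y' k) * x k else 0) (P k) = 0 := by
          refine Eq.trans ?_ h3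
          rw [Finset.mul_sum]
          refine Finset.sum_congr rfl fun k _ => ?_
          rw [hY, map_mul]
          ring
        rw [(mul_eq_zero.mp h4).resolve_left hgq, mul_zero]
    rcases mul_eq_zero.mp h1 with h2 | h2
    · exact absurd ((C_eq_zero).mp h2) hY0
    · exact h2
  -- the substitution is a multiplication modulo the linear form
  have hmod : ∀ k, ff Y' ∣ C (Y' k0) ^ d * map C (P k) - aeval σ (map (C : K →+* MvPolynomial (Fin n) K) (P k)) := by
    intro k
    have h1 := aeval_scale ((hPh k).map (C : K →+* MvPolynomial (Fin n) K)) (Y' k0)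
    rw [← h1, ← Ideal.mem_span_singleton, ← Ideal.Quotient.mk_eq_mk_iff_sub_mem]
    have h2 : ∀ τ : Fin n → MvPolynomial (Fin n) (MvPolynomial (Fin n) K),
        Ideal.Quotient.mk (Ideal.span {ff Y'}) (aeval τ (map (C : K →+* MvPolynomial (Fin n) K) (P k))) =
        aeval (fun i => Ideal.Quotient.mk (Ideal.span {ff Y'}) (τ i)) (map (C : K →+* MvPolynomial (Fin n) K) (P k)) := by
      intro τ
      have h3 : (Ideal.Quotient.mkₐ (MvPolynomial (Fin n) K) (Ideal.span {ff Y'})).comp (aeval τ) =
          aeval (fun i => Ideal.Quotient.mk (Ideal.span {ff Y'}) (τ i)) := by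
        apply MvPolynomial.algHom_ext
        intro i
        rw [AlgHom.comp_apply, aeval_X, aeval_X]
        rfl
      rw [← h3]
      rfl
    rw [h2, h2]
    have h4 : (fun i => Ideal.Quotient.mk (Ideal.span {ff Y'}) (C (Y' k0) * X i)) =
        fun i => Ideal.Quotient.mk (Ideal.span {ff Y'}) (σ i) := by
      funext i
      rw [Ideal.Quotient.mk_eq_mk_iff_sub_mem, hσ]
      simp only [sub_sub_cancel]
      by_cases h : i = k0
      · rw [if_pos h]; exact Ideal.mem_span_singleton_self _
      · rw [if_neg h]; exact Ideal.zero_mem _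
    rw [h4]
  have h5 : ff Y' ∣ C (Y' k0) ^ d * hh Y' P := by
    have e1 : C (Y' k0) ^ d * hh Y' P = ∑ k, C (Y' k) * (C (Y' k0) ^ d * map C (P k) -
        aeval σ (map (C : K →+* MvPolynomial (Fin n) K) (P k))) + ∑ k, C (Y' k) * aeval σ (map (C : K →+* MvPolynomial (Fin n) K) (P k)) := by
      rw [hh, Finset.mul_sum, ← Finset.sum_add_distrib]
      refine Finset.sum_congr rfl fun k _ => ?_
      ring
    rw [e1, hz, add_zero]
    exact Finset.dvd_sum fun k _ => Dvd.dvd.mul_left (hmod k) _
  rcases hprime.dvd_or_dvd h5 with h6 | h6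
  · have h7 := hprime.dvd_of_dvd_pow h6
    have h8 := totalDegree_le_of_dvd_of_isDomain h7 (by
      intro h0
      exact hk0 (C_eq_zero.mp h0))
    rw [ff_deg hk0, totalDegree_C] at h8
    omega
  · exact h6

/-- **The square of the linear form divides.** -/
theorem ff_sq_dvd [CharZero K] {Y Y' : Fin n → MvPolynomial (Fin n) K} {g : MvPolynomial (Fin n) K}
    (hg : g ≠ 0) (hY : ∀ k, Y k = g * Y' k) (hprime : Prime (ff Y')) {k0 : Fin n}
    (hk0 : Y' k0 ≠ 0) {m : Fin n → MvPolynomial (Fin n) K} {d : ℕ}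
    (hmh : ∀ k, (m k).IsHomogeneous d)
    (hplane : ∀ q x : Fin n → K, eval q (Y k0) ≠ 0 → ∑ k, eval q (Y k) * x k = 0 →
      ∑ k, eval q (Y k) * eval x (m k) = 0)
    (hplane' : ∀ q x : Fin n → K, eval q (Y k0) ≠ 0 → ∑ k, eval q (Y k) * x k = 0 →
      ∑ k, eval q (Y k) * eval x (pderiv k0 (m k)) = 0) : ff Y' ^ 2 ∣ hh Y' m := by
  classical
  obtain ⟨G, hG⟩ := ff_dvd hg hY hprime hk0 hmh hplane
  have h1 := ff_dvd hg hY hprime hk0 (fun k => (hmh k).pderiv (i := k0)) hplane'
  have h2 : hh Y' (fun k => pderiv k0 (m k)) = pderiv k0 (hh Y' m) := by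
    rw [hh, hh, map_sum]
    refine Finset.sum_congr rfl fun k _ => ?_
    rw [Derivation.leibniz, pderiv_C, smul_zero, add_zero, smul_eq_mul, pderiv_map]
  have h3 : pderiv k0 (ff Y') = C (Y' k0) := by
    rw [ff, map_sum, Finset.sum_eq_single k0]
    · rw [Derivation.leibniz, pderiv_C, smul_zero, add_zero, smul_eq_mul, pderiv_X_self, mul_one]
    · intro k _ hk
      rw [Derivation.leibniz, pderiv_C, smul_zero, add_zero, smul_eq_mul, pderiv_X_of_ne hk,
        mul_zero]
    · intro h; exact absurd (Finset.mem_univ k0) h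
  rw [h2, hG, Derivation.leibniz, h3, smul_eq_mul, smul_eq_mul] at h1
  have h4 : ff Y' ∣ G * C (Y' k0) := (dvd_add_right (Dvd.intro _ rfl)).mp h1
  rcases hprime.dvd_or_dvd h4 with h5 | h5
  · obtain ⟨G', hG'⟩ := h5
    exact ⟨G', by rw [hG, hG']; ring⟩
  · have h8 := totalDegree_le_of_dvd_of_isDomain h5 (by
      intro h0
      exact hk0 (C_eq_zero.mp h0))
    rw [ff_deg hk0, totalDegree_C] at h8
    omega

end Pool.Agent.Q8.GF
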