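import Pool.Agent.Q8.GF.CvC

/-!
The hyperplane point cannot move on a curve.
-/

open MvPolynomial
open Pool.Agent.W515.SLP (AnnP Deg annP_zero annP_of_gt annP_of_homog lin)
open H503R3.QCI (Homog NZD Reg)
open TH130CI

namespace Pool.Agent.Q8.GF

open Module
open Pool.Agent.Q8.GC
open Pool.Agent.Q8.GD

variable {K : Type*} [Field K] {n : ℕ}

/-- **Comparison of the degrees.** -/
theorem hh_zero [CharZero K] {Y : Fin n → MvPolynomial (Fin n) K}
    {k0 : Fin n} (hk0 : Y k0 ≠ 0) (hYX : ∑ k, Y k * X k = 0)
    {m : Fin n → MvPolynomial (Fin n) K} (hdvd : ff Y ^ 2 ∣ hh Y m) : hh Y m = 0 := by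
  classical
  by_contra hne
  obtain ⟨G, hG⟩ := hdvd
  have hG0 : G ≠ 0 := by
    rintro rfl
    rw [mul_zero] at hG
    exact hne hG
  obtain ⟨k1, -, hk1⟩ := Finset.exists_mem_eq_sup Finset.univ ⟨k0, Finset.mem_univ k0⟩
    fun k => (Y k).totalDegree
  set ρ := Finset.univ.sup fun k => (Y k).totalDegree with hρ
  have hle : ∀ k, (Y k).totalDegree ≤ ρ := fun k =>
    Finset.le_sup (f := fun k => (Y k).totalDegree) (Finset.mem_univ k)
  rcases Nat.eq_zero_or_pos ρ with hρ0 | hρ1
  · -- constants
    have h1 : ∀ k, Y k = C (coeff 0 (Y k)) := by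
      intro k
      apply totalDegree_eq_zero_iff_eq_C.mp
      have := hle k
      omega
    apply hk0
    have h2 := congrArg (coeff (Finsupp.single k0 1)) hYX
    rw [coeff_sum, coeff_zero, Finset.sum_eq_single k0] at h2
    · rw [h1 k0, coeff_C_mul, coeff_X, if_pos rfl, mul_one] at h2
      rw [h1 k0, h2, C_0]
    · intro j _ hj
      rw [h1 j, coeff_C_mul, coeff_X, if_neg, mul_zero]
      intro h
      exact hj (Finsupp.single_left_injective one_ne_zero h)
    · intro h; exact absurd (Finset.mem_univ k0) h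
  · have hYk1 : Y k1 ≠ 0 := by
      intro h0
      rw [h0, totalDegree_zero] at hk1
      omega
    have hT : homogeneousComponent ρ (Y k1) ≠ 0 := by
      intro h0
      obtain ⟨s, hs, hs1⟩ : ∃ s ∈ (Y k1).support, (s.sum fun _ e => e) = ρ := by
        obtain ⟨s, hs, hs1⟩ := Finset.exists_mem_eq_sup (Y k1).support
          (by rwa [support_nonempty]) fun s => s.sum fun _ e => e
        refine ⟨s, hs, ?_⟩
        rw [← hs1, hk1]
        rfl
      rw [MvPolynomial.mem_support_iff] at hs
      apply hs
      have h1 := congrArg (coeff s) h0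
      rw [coeff_homogeneousComponent, coeff_zero, if_pos] at h1
      · exact h1
      · rw [← hs1]
        rfl
    have hQ : G * ff (fun k => homogeneousComponent ρ (Y k)) ≠ 0 :=
      mul_ne_zero hG0 (ff_ne (Y := fun k => homogeneousComponent ρ (Y k)) (k0 := k1) hT)
    obtain ⟨x, hx⟩ : ∃ x : Fin n → K, eval (fun i => (C (x i) : MvPolynomial (Fin n) K))
        (G * ff (fun k => homogeneousComponent ρ (Y k))) ≠ 0 := by
      by_contra hcon
      push Not at hcon
      exact hQ (zero_of_eval2 hcon)
    rw [map_mul] at hx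
    have hx1 := left_ne_zero_of_mul hx
    have hx2 := right_ne_zero_of_mul hx
    rw [eval_ff] at hx2
    have h1 := congrArg (eval (fun i => (C (x i) : MvPolynomial (Fin n) K))) hG
    rw [map_mul, map_pow, eval_hh, eval_ff] at h1
    set u := ∑ k, Y k * C (x k) with hu
    have hcomp : homogeneousComponent ρ u = ∑ k, homogeneousComponent ρ (Y k) * C (x k) := by
      rw [hu, map_sum]
      refine Finset.sum_congr rfl fun k _ => ?_
      rw [mul_comm, homogeneousComponent_C_mul, mul_comm]
    have hud : ρ ≤ u.totalDegree := by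
      by_contra hcon
      push Not at hcon
      apply hx2
      rw [← hcomp]
      exact homogeneousComponent_eq_zero _ _ hcon
    have hu0 : u ≠ 0 := by
      intro h0
      rw [h0, totalDegree_zero] at hud
      omega
    have hv : (∑ k, Y k * C (eval x (m k))).totalDegree ≤ ρ := by
      refine (totalDegree_finsetSum _ _).trans (Finset.sup_le fun k _ => ?_)
      refine (totalDegree_mul _ _).trans ?_
      rw [totalDegree_C, add_zero]
      exact hle k
    rw [h1, totalDegree_mul_of_isDomain (pow_ne_zero 2 hu0) hx1, pow_two,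
      totalDegree_mul_of_isDomain hu0 hu0] at hv
    omega

/-- **The hyperplane point does not move on a curve.** -/
theorem surface_false [CharZero K] {r : ℕ} (hr : r + 1 + 1 = n)
    {a : Fin r → MvPolynomial (Fin n) K} {e : Fin r → ℕ} (ha : ∀ i, (a i).IsHomogeneous (e i))
    (he : ∀ i, 1 ≤ e i) (hreg : Reg a) {Y : Fin n → MvPolynomial (Fin n) K}
    (haY : ∀ i, aeval Y (a i) = 0) {ρ : ℕ} (hY : ∀ k, (Y k).IsHomogeneous ρ)
    (hYX : ∑ k, Y k * X k = 0) {k0 : Fin n} (hk0 : Y k0 ≠ 0)
    {m : Fin n → MvPolynomial (Fin n) K} {d : ℕ} (hmh : ∀ k, (m k).IsHomogeneous d)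
    (hYm : ∑ k, Y k * m k = 0) (hYd : ∀ l, ∑ k, Y k * pderiv l (m k) = 0)
    (hL : n ≤ finrank K (Submodule.span K (Set.range fun q' => vl q' m)) + 1) : False := by
  classical
  -- the degree
  have hρ : 1 ≤ ρ := by
    by_contra hcon
    have h0 : ρ = 0 := by omega
    have h1 : ∀ k, Y k = C (coeff 0 (Y k)) := by
      intro k
      apply totalDegree_eq_zero_iff_eq_C.mp
      have := (hY k).totalDegree_le
      omega
    apply hk0
    have h2 := congrArg (coeff (Finsupp.single k0 1)) hYX
    rw [coeff_sum, coeff_zero, Finset.sum_eq_single k0] at h2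
    · rw [h1 k0, coeff_C_mul, coeff_X, if_pos rfl, mul_one] at h2
      rw [h1 k0, h2, C_0]
    · intro j _ hj
      rw [h1 j, coeff_C_mul, coeff_X, if_neg, mul_zero]
      intro h
      exact hj (Finsupp.single_left_injective one_ne_zero h)
    · intro h; exact absurd (Finset.mem_univ k0) h
  have hpar : ∀ ε : Fin n → MvPolynomial (Fin n) K, ∑ k, Y k * ε k = 0 → ∀ j k,
      Y j * dd ε Y k = Y k * dd ε Y j := fun ε hε j k =>
    dir_par hr ha he hreg haY hρ hY hYX hε j k
  obtain ⟨g, Y', hg, hYg, hprim⟩ := exists_prim hk0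
  have hk0' : Y' k0 ≠ 0 := by
    intro h0
    apply hk0
    rw [hYg, h0, mul_zero]
  have hsq := ff_sq_dvd hg hYg (ff_prime hk0' hprim) hk0' hmh
    (fun q x hq hx => plane hpar hYX hYm hq hx)
    (fun q x hq hx => plane hpar hYX (hYd k0) hq hx)
  have hYX' : ∑ k, Y' k * X k = 0 := by
    have h1 : g * ∑ k, Y' k * X k = 0 := by
      rw [← hYX, Finset.mul_sum]
      refine Finset.sum_congr rfl fun k _ => ?_
      rw [hYg]
      ring
    exact (mul_eq_zero.mp h1).resolve_left hg
  have hz := hh_zero hk0' hYX' hsq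
  -- the values are orthogonal to the span
  have horth : ∀ q x : Fin n → K, ∑ k, eval q (Y k) * vl x m k = 0 := by
    intro q x
    have h1 := congrArg (fun P => eval q (eval (fun i => (C (x i) : MvPolynomial (Fin n) K)) P)) hz
    simp only [eval_hh, map_sum, map_mul, eval_C, map_zero] at h1
    have h2 : ∑ k, eval q (Y k) * vl x m k = eval q g * ∑ k, eval q (Y' k) * eval x (m k) := by
      rw [Finset.mul_sum]
      refine Finset.sum_congr rfl fun k _ => ?_
      rw [hYg, map_mul, mul_assoc]
      rfl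
    rw [h2, h1, mul_zero]
  obtain ⟨q1, hq1⟩ := exists_ne hk0
  set y1 : Fin n → K := fun k => eval q1 (Y k) with hy1
  let F1 : (Fin n → K) →ₗ[K] K := ∑ k, (y1 k) • LinearMap.proj k
  have hF1 : ∀ z, F1 z = ∑ k, y1 k * z k := by
    intro z
    simp [F1]
  have hP0 : Y k0 * ∑ k, C (y1 k) * X k ≠ 0 := by
    apply mul_ne_zero hk0
    intro h0
    have h2 := congrArg (coeff (Finsupp.single k0 1)) h0
    rw [coeff_sum, coeff_zero, Finset.sum_eq_single k0] at h2
    · rw [coeff_C_mul, coeff_X, if_pos rfl, mul_one] at h2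
      exact hq1 h2
    · intro j _ hj
      rw [coeff_C_mul, coeff_X, if_neg, mul_zero]
      intro h
      exact hj (Finsupp.single_left_injective one_ne_zero h)
    · intro h; exact absurd (Finset.mem_univ k0) h
  obtain ⟨q2, hq2⟩ := exists_ne hP0
  rw [map_mul] at hq2
  have hq2a := left_ne_zero_of_mul hq2
  have hq2b : F1 q2 ≠ 0 := by
    have h1 := right_ne_zero_of_mul hq2
    rw [map_sum] at h1
    simp only [map_mul, eval_C, eval_X] at h1
    rwa [hF1]
  have hLker : Submodule.span K (Set.range fun q' => vl q' m) ≤ LinearMap.ker F1 := by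
    rw [Submodule.span_le]
    rintro _ ⟨x, rfl⟩
    change F1 (vl x m) = 0
    rw [hF1]
    exact horth q1 x
  have hkerdim : finrank K (LinearMap.ker F1) + 1 = n := by
    have h1 := LinearMap.finrank_range_add_finrank_ker F1
    have h2 : LinearMap.range F1 = ⊤ := by
      rw [LinearMap.range_eq_top]
      apply LinearMap.surjective
      intro h0
      apply hq2b
      rw [h0, LinearMap.zero_apply]
    rw [h2, finrank_top, finrank_self, finrank_fin_fun] at h1
    omega
  have hLeq : Submodule.span K (Set.range fun q' => vl q' m) = LinearMap.ker F1 :=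
    Submodule.eq_of_le_of_finrank_le hLker (by omega)
  have hy2 : ∀ z, F1 z = 0 → ∑ k, eval q2 (Y k) * z k = 0 := by
    intro z hz
    have h1 : z ∈ Submodule.span K (Set.range fun q' => vl q' m) := by
      rw [hLeq]
      exact hz
    refine Submodule.span_induction ?_ ?_ ?_ ?_ h1
    · rintro _ ⟨x, rfl⟩
      exact horth q2 x
    · simp
    · intro x y _ _ hx hy
      simp only [Pi.add_apply, mul_add, Finset.sum_add_distrib, hx, hy, add_zero]
    · intro c x _ hx
      have e1 : ∑ j, eval q2 (Y j) * (c • x) j = c * ∑ j, eval q2 (Y j) * x j := by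
        rw [Finset.mul_sum]
        refine Finset.sum_congr rfl fun j _ => ?_
        rw [Pi.smul_apply, smul_eq_mul]
        ring
      rw [e1, hx, mul_zero]
  have hq22 : ∑ k, eval q2 (Y k) * q2 k = 0 := by
    have h1 := congrArg (eval q2) hYX
    rw [map_sum, map_zero] at h1
    simpa only [map_mul, eval_X] using h1
  apply hq2a
  -- the vector `e_{k0}` is the sum of a multiple of `q2` and an element of the kernel
  have h1 : F1 (F1 q2 • (Pi.single k0 (1 : K) : Fin n → K) - F1 (Pi.single k0 1) • q2) = 0 := by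
    rw [map_sub, map_smul, map_smul, smul_eq_mul, smul_eq_mul, mul_comm, sub_self]
  have h2 := hy2 _ h1
  have h3 : ∑ k, eval q2 (Y k) *
      (F1 q2 • (Pi.single k0 (1 : K) : Fin n → K) - F1 (Pi.single k0 1) • q2) k =
      F1 q2 * eval q2 (Y k0) - F1 (Pi.single k0 1) * ∑ k, eval q2 (Y k) * q2 k := by
    simp only [Pi.sub_apply, Pi.smul_apply, smul_eq_mul, mul_sub, Finset.sum_sub_distrib]
    congr 1
    · rw [Finset.sum_eq_single k0]
      · rw [Pi.single_eq_same]; ring
      · intro k _ hk
        rw [Pi.single_eq_of_ne hk]; ring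
      · intro h; exact absurd (Finset.mem_univ k0) h
    · rw [Finset.mul_sum]
      refine Finset.sum_congr rfl fun k _ => ?_
      ring
  rw [h3, hq22, mul_zero, sub_zero] at h2
  exact (mul_eq_zero.mp h2).resolve_left hq2b

end Pool.Agent.Q8.GF
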