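import Pool.Agent.Q8.GF.PosC
import Pool.Agent.Q8.GF.CurE

/-!
The theorem of Gordan and Noether in five variables: the forms do not move on a curve.
-/

open MvPolynomial
open Pool.Agent.W515.SLP (AnnP Deg annP_zero annP_of_gt annP_of_homog lin)
open H503R3.QCI (Homog NZD Reg isSocleDegree_ci gr mem_gr)
open TH130CI
open Pool.Agent.Y204.LF (OpenC extend_reg prime_of_gr reg_prefix em sum_em bound_sorted reg_lin lin_eq
  openC_nzd exists_lin_of_reg)

namespace Pool.Agent.Q8.GF

open Module
open Pool.Agent.Q8.GC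
open Pool.Agent.Q8.GD

variable {K : Type*} [Field K]

/-- the statement at a general point, as a purely algebraic contradiction -/
theorem contra7 [CharZero K] {N : ℕ} {a : Fin (N + 1) → MvPolynomial (Fin (N + 1)) K}
    {e : Fin (N + 1) → ℕ} (ha : ∀ i, (a i).IsHomogeneous (e i)) (he : ∀ i, 2 ≤ e i)
    (hreg : Reg a) (hmono : Monotone e) {D : ℕ} (hD1 : 1 ≤ D) (hD : ∀ i : Fin N, e i.castSucc ≤ D)
    (hlin : ∀ z : Fin (N + 1) → K,
      (lin z : MvPolynomial (Fin (N + 1)) K) ∈ Ideal.span (Set.range a) → z = 0)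
    (hpow : ∀ k, 1 ≤ k → k + 2 ≤ N → k * (D - 1) ≤ ∑ i ∈ Finset.range (k + 1), em e i ∨
      finrank K (Submodule.span K {z : Fin (N + 1) → K |
        (lin z : MvPolynomial (Fin (N + 1)) K) ^ (k * (D - 1)) ∈ Ideal.span (Set.range a)}) ≤ k + 1 ∨
      (k + 2 = N ∧ k * em e k ≤ ∑ i ∈ Finset.range (k + 1), em e i ∧
        (k + 1) * (D - 1) + em e k ≤ ∑ i, (e i - 1)) ∨
      (k = 1 ∧ N = 4 ∧ ∀ i : Fin (N + 1), (i : ℕ) = 3 → D ≤ e i))
    {s : ℕ} (hs : 1 ≤ s) (hσ : ∑ i, (e i - 1) = s + 2)
    {m : Fin (N + 1) → MvPolynomial (Fin (N + 1)) K} {j0 : Fin (N + 1)}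
    (hm : ell (Ideal.span (Set.range a)) ^ s * mu (Ideal.span (Set.range a)) m = 0)
    (hmm : ∀ j, m j0 * dd m m j = dd m m j0 * m j)
    (hmX : ∀ j, m j0 * dd (fun j => X j) m j = dd (fun j => X j) m j0 * m j)
    {q : Fin (N + 1) → K} (hqJ : NZD (Ideal.span (Set.range fun i : Fin N => a i.castSucc)) (lin q))
    (hqj : eval q (m j0) ≠ 0) {q0 : Fin (N + 1) → K}
    (hqz : lin q ^ (s + 1) * lin (vl q0 m) ∉ Ideal.span (Set.range a))
    (hq : ∀ x y, x ≤ s + 2 → y ≤ s + 2 → (lin q ^ x * lin (vl q m) ^ y ∈ Ideal.span (Set.range a) ↔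
      ell (Ideal.span (Set.range a)) ^ x * mu (Ideal.span (Set.range a)) m ^ y = 0))
    (hpn : ∀ k (hk : k + 2 = N), N ≤ finrank K (Submodule.span K (Set.range fun q' => vl q' m)) →
      NZD (Ideal.span (Set.range fun i : Fin (k + 1) => a (Fin.castLE (by omega) i)))
        (lin (vl q m)))
    (hF : (∀ q' : Fin (N + 1) → K, ∀ j, m j0 * dd (fun i => C (vl q' m i)) m j =
      dd (fun i => C (vl q' m i)) m j0 * m j) ∨
      ∃ q1, MM q m (vl q1 m) ∉ Submodule.span K {vl q m}) : False := by
  classical
  have he1 : ∀ i, 1 ≤ e i := fun i => (by omega : 1 ≤ 2).trans (he i)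
  set I := Ideal.span (Set.range a) with hIdef
  have hS : Soc I (s + 2) := by
    intro j w hw hj hXw
    rw [← hσ] at hj
    exact socle_ci _ a e ha he1 (sreg_of_reg ha he1 hreg) rfl j w hw hj hXw
  have hI1 : (1 : MvPolynomial (Fin (N + 1)) K) ∉ I := by
    intro h1
    obtain ⟨⟨h0, -, hh0I⟩, -⟩ := isSocleDegree_ci a e ha he1 hreg
    apply hh0I
    have := I.mul_mem_left h0 h1
    rwa [mul_one] at this
  set p := vl q m with hp
  set M := MM q m with hM
  set Z : ℕ → ℕ → Prop := fun D b => lin q ^ (D - b) * lin p ^ b ∈ I with hZ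
  have hZg : ∀ D b, D ≤ s + 2 → b ≤ s + 2 →
      (Z D b ↔ ell I ^ (D - b) * mu I m ^ b = 0) := fun D b h1 h2 => hq _ _ (by omega) h2
  have hp0 : p ≠ 0 := by
    intro h0
    apply hqj
    exact congrFun h0 j0
  have hMp : M p ∈ Submodule.span K {p} := MM_mem hqj hmm
  have hMq : M q ∈ Submodule.span K {p} := by
    have h1 := MM_mem hqj hmX
    rwa [vl_X] at h1
  -- the top powers of `q`
  have hell : ∀ k, k ≤ s + 2 → lin q ^ k ∉ I := by
    intro k hk h1
    have h2 := (hq k 0 hk (by omega)).mp (by rwa [pow_zero, mul_one])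
    rw [pow_zero, mul_one] at h2
    exact ell_pow_ne hS hI1 k hk h2
  have hZ0 : ∀ D, D + 1 ≤ s + 2 → ¬ Z D 0 := by
    intro D hD h1
    apply hell D (by omega)
    have h2 : lin q ^ (D - 0) * lin p ^ 0 ∈ I := h1
    rwa [pow_zero, mul_one, Nat.sub_zero] at h2
  have hZ1 : ∀ b, 1 ≤ b → b + 1 ≤ s + 2 → Z (s + 2 - 1) b := by
    intro b hb1 hb2
    rw [hZg _ _ (by omega) (by omega)]
    have h1 := gn hS le_rfl hm (b - 1) (by omega)
    rwa [show s - (b - 1) = s + 2 - 1 - b by omega, Nat.sub_add_cancel hb1] at h1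
  have hqp : q ∉ Submodule.span K {p} := by
    intro h1
    apply hell (s + 1) (by omega)
    have h2 : p ∈ Tk I (lin q ^ s) := by
      have h3 := hZ1 1 le_rfl (by omega)
      have h4 : lin q ^ (s + 2 - 1 - 1) * lin p ^ 1 ∈ I := h3
      rwa [pow_one, show s + 2 - 1 - 1 = s by omega] at h4
    have h3 := lin_mem_of_span h1 h2
    rw [mem_Tk] at h3
    rwa [pow_succ]
  -- the nilpotency index
  have hex : ∃ b, lin p ^ (b + 1) ∈ I := by
    refine ⟨s, ?_⟩
    have h3 := hZ1 (s + 1) (by omega) (by omega)
    have h4 : lin q ^ (s + 2 - 1 - (s + 1)) * lin p ^ (s + 1) ∈ I := h3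
    rwa [show s + 2 - 1 - (s + 1) = 0 by omega, pow_zero, one_mul] at h4
  obtain ⟨β, hβ1, hβmin⟩ : ∃ β, lin p ^ (β + 1) ∈ I ∧ ∀ b < β, lin p ^ (b + 1) ∉ I :=
    ⟨Nat.find hex, Nat.find_spec hex, fun b hb => Nat.find_min hex hb⟩
  have hβσ : β ≤ s := by
    by_contra hcon
    refine hβmin s (by omega) ?_
    have h3 := hZ1 (s + 1) (by omega) (by omega)
    have h4 : lin q ^ (s + 2 - 1 - (s + 1)) * lin p ^ (s + 1) ∈ I := h3
    rwa [show s + 2 - 1 - (s + 1) = 0 by omega, pow_zero, one_mul] at h4
  have hβ0 : lin p ^ β ∉ I := by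
    rcases Nat.eq_zero_or_pos β with h | h
    · rw [h, pow_zero]; exact hI1
    · have := hβmin (β - 1) (by omega)
      rwa [Nat.sub_add_cancel h] at this
  have hZβ : ¬ Z β β := by
    intro h1
    have h2 : lin q ^ (β - β) * lin p ^ β ∈ I := h1
    rw [Nat.sub_self, pow_zero, one_mul] at h2
    exact hβ0 h2
  have hZβ' : ∀ D, β < D → D + 1 ≤ s + 2 → Z D D := by
    intro D h1 _
    change lin q ^ (D - D) * lin p ^ D ∈ I
    rw [Nat.sub_self, pow_zero, one_mul]
    obtain ⟨k, rfl⟩ := Nat.exists_eq_add_of_le (Nat.succ_le_of_lt h1)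
    rw [pow_add]
    exact I.mul_mem_right _ hβ1
  -- the spaces of linear forms
  have hTq : ∀ D b, b ≤ D → (q ∈ Tk I (lin q ^ (D - b) * lin p ^ b) ↔ Z (D + 1) b) := by
    intro D b hb
    rw [mem_Tk]
    have e1 : (lin q ^ (D - b) * lin p ^ b * lin q : MvPolynomial (Fin (N + 1)) K) =
        lin q ^ (D + 1 - b) * lin p ^ b := by
      rw [show D + 1 - b = D - b + 1 by omega, pow_succ]; ring
    rw [e1]
  have hTp : ∀ D b, b ≤ D → (p ∈ Tk I (lin q ^ (D - b) * lin p ^ b) ↔ Z (D + 1) (b + 1)) := by
    intro D b hb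
    rw [mem_Tk]
    have e1 : (lin q ^ (D - b) * lin p ^ b * lin p : MvPolynomial (Fin (N + 1)) K) =
        lin q ^ (D + 1 - (b + 1)) * lin p ^ (b + 1) := by
      rw [show D + 1 - (b + 1) = D - b by omega, pow_succ]; ring
    rw [e1]
  -- transport down
  have hdown : ∀ D b, b + 1 ≤ D → D + 1 ≤ s + 2 → Z (D + 1) (b + 1) → ∀ u,
      M u ∈ Tk I (lin q ^ (D - b) * lin p ^ b) → u ∈ Tk I (lin q ^ (D - (b + 1)) * lin p ^ (b + 1)) := by
    intro D b hb hDs hz u hu
    rw [hZg _ _ hDs (by omega)] at hz
    obtain ⟨c, hc⟩ : ∃ c, D + 1 - (b + 1) = c + 1 := ⟨D - b - 1, by omega⟩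
    rw [hc] at hz
    have h1 := ev_deriv hz q u
    rw [mem_Tk] at hu ⊢
    rw [show D - b = c + 1 by omega] at hu
    rw [show D - (b + 1) = c by omega]
    apply nat_mem (N := c + 1) (by omega)
    have h2 := I.sub_mem h1 (I.mul_mem_left ((b + 1 : ℕ) : MvPolynomial (Fin (N + 1)) K) hu)
    rwa [add_sub_cancel_right] at h2
  have himT : ∀ D b, b ≤ D → D + 1 ≤ s + 2 → Z (D + 1) (b + 1) → (b + 1 ≤ D → Z D (b + 1)) →
      ∀ u, M u ∈ Tk I (lin q ^ (D - b) * lin p ^ b) := by
    intro D b hb hDs hz hz' u
    rw [mem_Tk]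
    rcases Nat.eq_or_lt_of_le hb with h | h
    · subst h
      rw [hZg _ _ hDs (by omega), Nat.sub_self, pow_zero, one_mul] at hz
      rw [Nat.sub_self, pow_zero, one_mul]
      exact ev_deriv' hz q u
    · rw [hZg _ _ hDs (by omega)] at hz
      obtain ⟨c, hc⟩ : ∃ c, D + 1 - (b + 1) = c + 1 := ⟨D - b - 1, by omega⟩
      rw [hc] at hz
      have h1 := ev_deriv hz q u
      rw [show D - b = c + 1 by omega]
      apply nat_mem (N := b + 1) (by omega)
      have h3 : lin q ^ c * lin p ^ (b + 1) ∈ I := by
        have h4 : lin q ^ (D - (b + 1)) * lin p ^ (b + 1) ∈ I := hz' (by omega)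
        rwa [show D - (b + 1) = c by omega] at h4
      have h2 := I.sub_mem h1 (I.mul_mem_left ((c + 1 : ℕ) : MvPolynomial (Fin (N + 1)) K)
        (I.mul_mem_right (lin u) h3))
      rwa [add_sub_cancel_left] at h2
  set nuM : ℕ → ℕ := fun g => nu (quo M p hMp) g with hnuM
  have hcor' : ∀ D' b x, 1 ≤ x → x ≤ b → b ≤ D' → D' + 2 ≤ s + 2 → ¬ Z D' b →
      (∀ b', x ≤ b' → b' ≤ b + 1 → Z (D' + 1) b') → (b + 1 ≤ D' → Z D' (b + 1)) →
      (s + 2) - D' ≤ nuM (b + 1 - x) * (D - 1) ∧
      ∀ u, M u ∈ Submodule.span K {p} → lin u * (lin q ^ (D' - b) * lin p ^ b) ∈ I := by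
    intro D' b x hx1 hxb hbD hDs hnz hz hz'
    have hit : ∀ j, j ≤ b + 1 - x → ∀ u, (M ^ j) u ∈ Tk I (lin q ^ (D' - (b - j)) * lin p ^ (b - j)) →
        u ∈ Tk I (lin q ^ (D' - b) * lin p ^ b) := by
      intro j
      induction j with
      | zero =>
        intro _ u hu
        rwa [pow_zero, Nat.sub_zero] at hu
      | succ j ih =>
        intro hj u hu
        apply ih (by omega)
        rw [pow_succ', Module.End.mul_apply] at hu
        have h1 := hdown D' (b - (j + 1)) (by omega) (by omega)
          (hz _ (by omega) (by omega)) _ hu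
        rwa [show b - (j + 1) + 1 = b - j by omega] at h1
    have hkerT : ∀ u, (M ^ (b + 1 - x)) u ∈ Submodule.span K {p} →
        u ∈ Tk I (lin q ^ (D' - b) * lin p ^ b) := by
      intro u hu
      apply hit _ le_rfl
      apply lin_mem_of_span hu
      rw [hTp D' _ (by omega), show b - (b + 1 - x) + 1 = x by omega]
      exact hz x le_rfl (by omega)
    have hcod := codim_quo M hp0 hMp (b + 1 - x) (Tk I (lin q ^ (D' - b) * lin p ^ b))
      hkerT
      (himT D' b hbD (by omega) (hz _ (by omega) le_rfl) hz')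
      ((hTp D' b hbD).mpr (hz _ (by omega) le_rfl))
    rw [finrank_fin_fun] at hcod
    have hbas := (Module.finBasis K (Tk I (lin q ^ (D' - b) * lin p ^ b))).linearIndependent.map'
      (Tk I (lin q ^ (D' - b) * lin p ^ b)).subtype (Submodule.ker_subtype _)
    have hhom : (lin q ^ (D' - b) * lin p ^ b : MvPolynomial (Fin (N + 1)) K).IsHomogeneous D' := by
      have h1 := ((lin_homog q).pow (D' - b)).mul ((lin_homog p).pow b)
      rwa [one_mul, one_mul, Nat.sub_add_cancel hbD] at h1
    have hbd := bound_gen ha he1 hreg hD1 hD hqJ hhom hnz (by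
      have h1 := (hTq D' b hbD).mpr (hz b hxb (by omega))
      rw [mem_Tk, mul_comm] at h1
      exact h1) hbas (by
      intro i
      have h1 := (Module.finBasis K (Tk I (lin q ^ (D' - b) * lin p ^ b)) i).2
      rw [mem_Tk, mul_comm] at h1
      exact h1)
    rw [hσ] at hbd
    have h1 : (N + 1 - finrank K (Tk I (lin q ^ (D' - b) * lin p ^ b))) * (D - 1) ≤
        nuM (b + 1 - x) * (D - 1) := by
      apply Nat.mul_le_mul_right
      rw [hnuM]
      simp only
      omega
    refine ⟨by omega, fun u hu => ?_⟩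
    have h2 : ∀ g, (M ^ (g + 1)) u ∈ Submodule.span K {p} := by
      intro g
      induction g with
      | zero => rwa [zero_add, pow_one]
      | succ g ih =>
        rw [pow_succ', Module.End.mul_apply]
        obtain ⟨α, hα⟩ := Submodule.mem_span_singleton.mp ih
        rw [← hα, map_smul]
        exact Submodule.smul_mem _ _ hMp
    have h3 := hkerT u (by
      obtain ⟨g, hg⟩ : ∃ g, b + 1 - x = g + 1 := ⟨b - x, by omega⟩
      rw [hg]
      exact h2 g)
    rw [mem_Tk, mul_comm] at h3
    exact h3
  have hcor : ∀ D' b x, 1 ≤ x → x ≤ b → b ≤ D' → D' + 2 ≤ s + 2 → ¬ Z D' b →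
      (∀ b', x ≤ b' → b' ≤ b + 1 → Z (D' + 1) b') → (b + 1 ≤ D' → Z D' (b + 1)) →
      (s + 2) - D' ≤ nuM (b + 1 - x) * (D - 1) :=
    fun D' b x h1 h2 h3 h4 h5 h6 h7 => (hcor' D' b x h1 h2 h3 h4 h5 h6 h7).1
  have hcount := count (s + 2) β (D - 1) Z nuM (by omega) hZ0 hZ1 hZβ hZβ' hcor
    (fun g h hgh => nu_antitone _ hgh)
  -- the sum of the `ν`
  set c := cc (quo M p hMp) 1 with hc
  have hsumnu : ∑ g ∈ Finset.Icc 1 (s + 2), nuM g ≤ c := by
    have h1 := sum_nu (quo M p hMp) (s + 2)
    have h2 : ∑ g ∈ Finset.Icc 1 (s + 2), nuM g = ∑ g ∈ Finset.range (s + 2), nuM (g + 1) := by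
      rw [Finset.range_eq_Ico, Finset.sum_Ico_add' nuM 0 (s + 2) 1]
      refine Finset.sum_congr ?_ fun _ _ => rfl
      ext x
      simp only [Finset.mem_Icc, Finset.mem_Ico]
      omega
    rw [h2, hc, ← h1]
    exact Nat.le_add_right _ _
  -- the lower bound for `β`
  have hβbd : ∑ i ∈ Finset.range (c + 1), em e i ≤ β := by
    have hdim := dim_quo M hp0 hMp (Tk I (lin q ^ (β - β) * lin p ^ β))
      (himT β β le_rfl (by omega) (hZβ' _ (by omega) (by omega)) (fun h => by omega))
      ((hTp β β le_rfl).mpr (hZβ' _ (by omega) (by omega)))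
    have hv : finrank K (Tk I (lin q ^ (β - β) * lin p ^ β)) ≤ N + 1 := by
      have h1 := Submodule.finrank_le (Tk I (lin q ^ (β - β) * lin p ^ β))
      rwa [finrank_fin_fun] at h1
    have hbas := (Module.finBasis K (Tk I (lin q ^ (β - β) * lin p ^ β))).linearIndependent.map'
      (Tk I (lin q ^ (β - β) * lin p ^ β)).subtype (Submodule.ker_subtype _)
    have hhom : (lin q ^ (β - β) * lin p ^ β : MvPolynomial (Fin (N + 1)) K).IsHomogeneous β := by
      have h1 := ((lin_homog q).pow (β - β)).mul ((lin_homog p).pow β)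
      rwa [one_mul, one_mul, Nat.sub_add_cancel le_rfl] at h1
    have hbd := bound_sorted ha he1 hreg hmono hv (ε := fun _ => 1) (fun i => lin_homog _)
      (fun _ => le_rfl) (reg_lin hbas) hhom hZβ (by
      intro i
      have h1 := (Module.finBasis K (Tk I (lin q ^ (β - β) * lin p ^ β)) i).2
      rw [mem_Tk, mul_comm] at h1
      exact h1)
    simp only [Nat.sub_self, Finset.sum_const_zero, Nat.add_zero] at hbd
    refine le_trans ?_ hbd
    apply Finset.sum_le_sum_of_subset
    intro x hx
    rw [Finset.mem_range] at hx ⊢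
    exact lt_of_lt_of_le hx hdim
  have h1β : 1 ≤ β := by
    by_contra hcon
    have h0 : β = 0 := by omega
    rw [h0, zero_add, pow_one] at hβ1
    exact hp0 (hlin p hβ1)
  -- the class of `q` is not in the range
  have hqr : (Submodule.Quotient.mk q : (Fin (N + 1) → K) ⧸ Submodule.span K {p}) ∉
      LinearMap.range (quo M p hMp) := by
    rintro ⟨x, hx⟩
    obtain ⟨u, rfl⟩ := Submodule.Quotient.mk_surjective _ x
    have hx' : (Submodule.Quotient.mk (M u) : (Fin (N + 1) → K) ⧸ Submodule.span K {p}) =
        Submodule.Quotient.mk q := hx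
    rw [Submodule.Quotient.eq] at hx'
    obtain ⟨α, hα⟩ := Submodule.mem_span_singleton.mp hx'
    have hMu : M u = q + α • p := by rw [hα]; abel
    obtain ⟨t, ht⟩ : ∃ t, s = t + 1 := ⟨s - 1, by omega⟩
    have hm1 : ell I ^ (t + 1) * mu I m ^ (0 + 1) = 0 := by
      rw [zero_add, pow_one, ← ht]
      exact hm
    have h1 := ev_deriv hm1 q u
    have hz : lin q ^ (t + 1) * lin p ∈ I := by
      have h3 := (hq (t + 1) 1 (by omega) (by omega)).mpr (by rwa [zero_add] at hm1)
      rwa [pow_one] at h3
    rw [zero_add, pow_one, pow_zero, mul_one] at h1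
    have h2 := I.mul_mem_left (lin q) h1
    have e1 : (lin q : MvPolynomial (Fin (N + 1)) K) * (((t + 1 : ℕ) : MvPolynomial (Fin (N + 1)) K) *
        (lin q ^ t * lin p * lin u) + ((1 : ℕ) : MvPolynomial (Fin (N + 1)) K) *
          (lin q ^ (t + 1) * lin (M u))) =
        ((t + 1 : ℕ) : MvPolynomial (Fin (N + 1)) K) * lin u * (lin q ^ (t + 1) * lin p) +
          lin q ^ (t + 2) * lin (M u) := by
      rw [Nat.cast_one]; ring
    have h3 : lin q ^ (t + 2) * lin (M u) ∈ I := by
      have h4 := I.sub_mem h2 (I.mul_mem_left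
        (((t + 1 : ℕ) : MvPolynomial (Fin (N + 1)) K) * lin u) hz)
      rw [e1, add_sub_cancel_left] at h4
      exact h4
    have e2 : (lin (M u) : MvPolynomial (Fin (N + 1)) K) = lin q + C α * lin p := by
      rw [hMu]
      change linL K _ (q + α • p) = _
      rw [map_add, map_smul, smul_eq_C_mul]
      rfl
    rw [e2] at h3
    apply hell (s + 2) le_rfl
    have h5 := I.sub_mem h3 (I.mul_mem_left (C α * lin q) hz)
    have e3 : (lin q ^ (t + 2) * (lin q + C α * lin p) - C α * lin q * (lin q ^ (t + 1) * lin p) :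
        MvPolynomial (Fin (N + 1)) K) = lin q ^ (s + 2) := by
      rw [ht]; ring
    rwa [e3] at h5
  -- the contradiction
  by_cases hβc : c * (D - 1) ≤ β
  · exact numeric hcount hsumnu hβc h1β
  push Not at hβc
  rcases cc_or (quo M p hMp) (x := Submodule.Quotient.mk q)
    ((Submodule.Quotient.mk_eq_zero _).mpr hMq) hqr with hc2 | hc2
  · have hfr := finrank_quo (K := K) hp0
    rw [finrank_fin_fun] at hfr
    have hc1 : 1 ≤ c := by
      by_contra hcon
      have h0 : c = 0 := by omega
      rw [h0, zero_mul] at hβc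
      omega
    have hβall : ∀ q' : Fin (N + 1) → K, lin (vl q' m) ^ (β + 1) ∈ I := by
      intro q'
      have h3 : ell I ^ 0 * mu I m ^ (β + 1) = 0 :=
        (hq 0 (β + 1) (by omega) (by omega)).mp (by rwa [pow_zero, one_mul])
      have h4 := (zero_iff (K := K) I).mp h3 q'
      rwa [pow_zero, one_mul] at h4
    -- the span of the values of `m`
    set L : Submodule K (Fin (N + 1) → K) := Submodule.span K (Set.range fun q' => vl q' m) with hL
    have hLall : ∀ q', vl q' m ∈ L := fun q' => Submodule.subset_span ⟨q', rfl⟩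
    have hqsp : lin q ^ s * lin p ∈ I := by
      have h3 := (hq s 1 (by omega) (by omega)).mpr (by rwa [pow_one])
      rwa [pow_one] at h3
    have hLdim : ¬ finrank K L ≤ c + 1 := by
      intro hdim
      have h1 := alt_dim M hp0 hMp (L := L) (F := Tk I (lin q ^ (s + 1)))
        (fun u => MM_mem_of_forall L hLall q u) (hLall q)
        (by
          intro u
          rw [mem_Tk]
          obtain ⟨t, ht⟩ : ∃ t, s = t + 1 := ⟨s - 1, by omega⟩
          have hm1 : ell I ^ (t + 1) * mu I m ^ (0 + 1) = 0 := by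
            rw [zero_add, pow_one, ← ht]
            exact hm
          have h1 := ev_deriv hm1 q u
          rw [zero_add, pow_one, pow_zero, mul_one] at h1
          have h2 := I.mul_mem_left (lin q) h1
          have h3 := I.mul_mem_left (((t + 1 : ℕ) : MvPolynomial (Fin (N + 1)) K) * lin u) hqsp
          have h4 := I.sub_mem h2 h3
          convert h4 using 1
          rw [ht, Nat.cast_one]
          ring)
        (by
          rw [mem_Tk, pow_succ']
          have h5 := I.mul_mem_left (lin q) hqsp
          rwa [← mul_assoc] at h5) hdim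
      apply hqz
      have h2 := h1 (hLall q0)
      rwa [mem_Tk] at h2
    rcases hpow c hc1 (by omega) with hT | hT | ⟨hcN, hA, hB⟩ | ⟨hcc, hN4, hD3⟩
    · omega
    · set T := Submodule.span K {z : Fin (N + 1) → K |
        (lin z : MvPolynomial (Fin (N + 1)) K) ^ (c * (D - 1)) ∈ I} with hTdef
      have hall : ∀ q' : Fin (N + 1) → K, vl q' m ∈ T := by
        intro q'
        apply Submodule.subset_span
        obtain ⟨k, hk⟩ := Nat.exists_eq_add_of_le (Nat.succ_le_of_lt hβc)
        change lin (vl q' m) ^ (c * (D - 1)) ∈ I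
        rw [hk, pow_add]
        exact I.mul_mem_right _ (hβall q')
      apply hLdim
      refine le_trans (Submodule.finrank_mono ?_) hT
      rw [hL, Submodule.span_le]
      rintro _ ⟨q', rfl⟩
      exact hall q'
    · -- the derivative of the largest rank
      set T : Submodule K (Fin (N + 1) → K) := LinearMap.range M ⊔ Submodule.span K {p} with hTdef
      have hTfr : finrank K T = c + 1 := finrank_T M hp0 hMp
      have hqT : q ∉ T := by
        intro h
        obtain ⟨t, ⟨u, rfl⟩, v, hv, hqe⟩ := Submodule.mem_sup.mp h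
        apply hqr
        refine ⟨Submodule.Quotient.mk u, ?_⟩
        change (Submodule.Quotient.mk (M u) : (Fin (N + 1) → K) ⧸ Submodule.span K {p}) =
          Submodule.Quotient.mk q
        rw [Submodule.Quotient.eq, ← hqe, sub_add_cancel_left]
        exact Submodule.neg_mem _ hv
      have hq0' : q ≠ 0 := by
        rintro rfl
        exact hqT (Submodule.zero_mem _)
      have hHfr : finrank K (T ⊔ Submodule.span K {q} : Submodule K (Fin (N + 1) → K)) + 1 =
          N + 1 := by
        have h1 := Submodule.finrank_sup_add_finrank_inf_eq T (Submodule.span K {q})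
        have h2 : T ⊓ Submodule.span K {q} = ⊥ := by
          rw [Submodule.eq_bot_iff]
          rintro x ⟨hx1, hx2⟩
          obtain ⟨α, rfl⟩ := Submodule.mem_span_singleton.mp hx2
          by_contra hne
          have hα : α ≠ 0 := fun h0 => hne (by rw [h0, zero_smul])
          apply hqT
          have h3 := T.smul_mem α⁻¹ hx1
          rwa [smul_smul, inv_mul_cancel₀ hα, one_smul] at h3
        rw [h2, finrank_bot, add_zero, hTfr, finrank_span_singleton hq0'] at h1
        omega
      obtain ⟨y, hy0, hy⟩ := exists_hyper hHfr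
      have hyq : ∑ j, q j * y j = 0 :=
        (hy q).mpr (Submodule.mem_sup_right (Submodule.mem_span_singleton_self q))
      -- the last power
      have hend : lin q ^ (s - β + 1) * lin p ^ β ∈ I := by
        have h3 : Z (s + 2 - 1) β := hZ1 β h1β (by omega)
        have h4 : lin q ^ (s + 2 - 1 - β) * lin p ^ β ∈ I := h3
        rwa [show s + 2 - 1 - β = s - β + 1 by omega] at h4
      have hqJ0 : ∃ j, lin q ^ (j + 1) * lin p ^ β ∈ I := ⟨s - β, hend⟩
      obtain ⟨J0, hqW, hJmin⟩ : ∃ J0, lin q ^ (J0 + 1) * lin p ^ β ∈ I ∧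
          ∀ j < J0, lin q ^ (j + 1) * lin p ^ β ∉ I :=
        ⟨Nat.find hqJ0, Nat.find_spec hqJ0, fun b hb => Nat.find_min hqJ0 hb⟩
      have hJs : β + J0 ≤ s := by
        by_contra hcon
        exact hJmin (s - β) (by omega) hend
      have hW : lin q ^ J0 * lin p ^ β ∉ I := by
        rcases Nat.eq_zero_or_pos J0 with h | h
        · rw [h, pow_zero, one_mul]; exact hβ0
        · have := hJmin (J0 - 1) (by omega)
          rwa [Nat.sub_add_cancel h] at this
      have hTw : ∀ u ∈ T, lin u * lin p ^ β ∈ I := by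
        intro u hu
        obtain ⟨t, ⟨v, rfl⟩, x, hx, rfl⟩ := Submodule.mem_sup.mp hu
        obtain ⟨α, rfl⟩ := Submodule.mem_span_singleton.mp hx
        have h1 := himT β β le_rfl (by omega) (hZβ' _ (by omega) (by omega)) (fun h => by omega) v
        rw [mem_Tk, Nat.sub_self, pow_zero, one_mul] at h1
        rw [lin_add', lin_smul', add_mul]
        apply I.add_mem
        · rwa [mul_comm]
        · have h2 := I.mul_mem_left (C α) hβ1
          rw [pow_succ'] at h2
          rwa [← mul_assoc] at h2
      have hpβ : (lin p ^ β : MvPolynomial (Fin (N + 1)) K).IsHomogeneous β := by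
        have h1 := (lin_homog p).pow β
        rwa [one_mul] at h1
      have hWh : (lin q ^ J0 * lin p ^ β : MvPolynomial (Fin (N + 1)) K).IsHomogeneous
          (β + J0) := by
        have h1 := ((lin_homog q).pow J0).mul hpβ
        rwa [one_mul, Nat.add_comm J0 β] at h1
      obtain ⟨κ, hκ⟩ : ∃ κ, κ + (β + J0) = s + 2 := ⟨s + 2 - (β + J0), by omega⟩
      -- a generator which does not vanish at `y`
      have hκD : κ ≤ D - 1 := by
        obtain ⟨i0, hi0⟩ := exists_gen_ne ha he1 hreg hqJ hy0 hyq
        have h1 := bound_pt2 hS hWh hW hy0 (fun u hu => kill_H hqW hTw ((hy u).mp hu))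
          (ha i0.castSucc) (I.mul_mem_right _ (Ideal.subset_span ⟨_, rfl⟩)) hi0
        have h2 := hD i0
        omega
      -- the bound for `β`
      have hmon : ∀ D' b k, 1 ≤ b → b + k ≤ D' → D' + 1 ≤ s + 2 → Z D' b → Z D' (b + k) := by
        intro D' b k hb
        induction k with
        | zero => intro _ _ h; exact h
        | succ k ih =>
          intro h1 h2 h3
          have h4 := ih (by omega) h2 h3
          rw [hZg _ _ (by omega) (by omega)] at h4 ⊢
          obtain ⟨b', hb'⟩ : ∃ b', b + k = b' + 1 := ⟨b + k - 1, by omega⟩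
          obtain ⟨a', ha'⟩ : ∃ a', D' - (b + k) = a' + 1 := ⟨D' - (b + k) - 1, by omega⟩
          rw [ha', hb'] at h4
          rw [show D' - (b + (k + 1)) = a' by omega, show b + (k + 1) = b' + 2 by omega]
          exact gn_step hS (by omega) h4
      have hcor3 : ∀ D' b x, 1 ≤ x → x ≤ b → b ≤ D' → D' + 2 ≤ s + 2 → ¬ Z D' b →
          (∀ b', x ≤ b' → b' ≤ b + 1 → Z (D' + 1) b') → (b + 1 ≤ D' → Z D' (b + 1)) →
          (s + 2) - D' ≤ nuM (b + 1 - x) * κ := by
        intro D' b x h1 h2 h3 h4 h5 h6 h7
        obtain ⟨g1, g2⟩ := hcor' D' b x h1 h2 h3 h4 h5 h6 h7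
        have h8 : β + J0 ≤ D' := by
          by_contra hcon
          push Not at hcon
          have hzb : Z (D' + 1) b := h6 b h2 (by omega)
          rcases Nat.lt_or_ge β b with hb | hb
          · apply h5
            change lin q ^ (D' - b) * lin p ^ b ∈ I
            obtain ⟨k, hk⟩ := Nat.exists_eq_add_of_le (Nat.succ_le_of_lt hb)
            rw [show b = β + 1 + k by omega, pow_add (lin p)]
            exact I.mul_mem_left _ (I.mul_mem_right _ hβ1)
          · rcases Nat.lt_or_ge (D' + 1) β with hD' | hD'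
            · have h9 := hmon (D' + 1) b (D' + 1 - b) (by omega) (by omega) (by omega) hzb
              rw [show b + (D' + 1 - b) = D' + 1 by omega] at h9
              have h10 : lin q ^ (D' + 1 - (D' + 1)) * lin p ^ (D' + 1) ∈ I := h9
              rw [Nat.sub_self, pow_zero, one_mul] at h10
              apply hβ0
              obtain ⟨k, hk⟩ := Nat.exists_eq_add_of_le hD'.le
              rw [hk, pow_add]
              exact I.mul_mem_right _ h10
            · have h9 := hmon (D' + 1) b (β - b) (by omega) (by omega) (by omega) hzb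
              rw [show b + (β - b) = β by omega] at h9
              have h10 : lin q ^ (D' + 1 - β) * lin p ^ β ∈ I := h9
              apply hW
              obtain ⟨k, hk⟩ : ∃ k, J0 = k + (D' + 1 - β) := ⟨J0 - (D' + 1 - β), by omega⟩
              rw [hk, pow_add, mul_assoc]
              exact I.mul_mem_left _ h10
        rcases Nat.eq_zero_or_pos (nuM (b + 1 - x)) with h9 | h9
        · rw [h9, zero_mul] at g1 ⊢
          exact g1
        · calc (s + 2) - D' ≤ 1 * κ := by rw [one_mul]; omega
            _ ≤ _ := Nat.mul_le_mul_right _ h9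
      have hcount3 := count (s + 2) β κ Z nuM (by omega) hZ0 hZ1 hZβ hZβ' hcor3
        (fun g h hgh => nu_antitone _ hgh)
      have hβκ : β < c * κ := by
        by_contra hcon
        push Not at hcon
        exact numeric hcount3 hsumnu hcon h1β
      -- a generator outside the ideal of `T`
      obtain ⟨i, hi⟩ : ∃ i : Fin (c + 1), a (Fin.castLE (by omega) i) ∉ IT T := by
        by_contra hcon
        push Not at hcon
        have hNZ := hpn c hcN (show N ≤ finrank K L by omega)
        refine not_all_mem_IT (k := c + 2) (by omega)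
          (a := (Fin.snoc (fun i : Fin (c + 1) => a (Fin.castLE (by omega) i)) (lin p) :
            Fin (c + 2) → MvPolynomial (Fin (N + 1)) K))
          (e := (Fin.snoc (fun i : Fin (c + 1) => e (Fin.castLE (by omega) i)) 1 :
            Fin (c + 2) → ℕ)) ?_ ?_ (reg_snoc (reg_prefix (by omega) hreg) hNZ) (T := T)
          (by omega) ?_
        · intro i
          refine Fin.lastCases ?_ (fun j => ?_) i
          · rw [Fin.snoc_last, Fin.snoc_last]
            exact lin_homog p
          · rw [Fin.snoc_castSucc, Fin.snoc_castSucc]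
            exact ha _
        · intro i
          refine Fin.lastCases ?_ (fun j => ?_) i
          · rw [Fin.snoc_last]
          · rw [Fin.snoc_castSucc]
            exact he1 _
        · intro i
          refine Fin.lastCases ?_ (fun j => ?_) i
          · rw [Fin.snoc_last]
            exact lin_mem_IT (Submodule.mem_sup_right (Submodule.mem_span_singleton_self p))
          · rw [Fin.snoc_castSucc]
            exact hcon j
      set i' : Fin (N + 1) := Fin.castLE (by omega) i with hi'
      have hei : e i' - 1 ≤ em e c := by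
        unfold Pool.Agent.Y204.LF.em
        rw [dif_pos (by omega)]
        have h1 : i' ≤ ⟨c, by omega⟩ := by
          rw [Fin.le_def, hi', Fin.val_castLE]
          have := i.2
          show (i : ℕ) ≤ c
          omega
        have := hmono h1
        omega
      have hnot : ¬ (β + J0 + e i' ≤ s + 2 ∧ e i' ≤ J0) := by
        rintro ⟨h1, h2⟩
        apply hi
        refine mem_IT hS hpβ hW hqW hTw hy0 (fun u hu => (hy u).mp hu) (e i') 0 _ (ha _) h1
          (by omega) ?_
        rw [pow_zero, one_mul]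
        exact I.mul_mem_left _ (Ideal.subset_span ⟨_, rfl⟩)
      have h2e := he i'
      by_cases h1 : β + J0 + e i' ≤ s + 2
      · have h2 : J0 + 1 ≤ e i' := by
          by_contra hcon
          exact hnot ⟨h1, by omega⟩
        have h3 : (c + 1) * κ ≤ (c + 1) * (D - 1) := Nat.mul_le_mul_left _ hκD
        have h4 : (c + 1) * κ = c * κ + κ := by ring
        omega
      · have h2 : κ ≤ em e c := by omega
        have h3 : c * κ ≤ c * em e c := Nat.mul_le_mul_left _ h2
        omega
    · -- the derivative of rank one in five variables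
      -- the last power
      have hend : lin q ^ (s - β + 1) * lin p ^ β ∈ I := by
        have h3 : Z (s + 2 - 1) β := hZ1 β h1β (by omega)
        have h4 : lin q ^ (s + 2 - 1 - β) * lin p ^ β ∈ I := h3
        rwa [show s + 2 - 1 - β = s - β + 1 by omega] at h4
      have hqJ0 : ∃ j, lin q ^ (j + 1) * lin p ^ β ∈ I := ⟨s - β, hend⟩
      obtain ⟨J0, hqW, hJmin⟩ : ∃ J0, lin q ^ (J0 + 1) * lin p ^ β ∈ I ∧
          ∀ j < J0, lin q ^ (j + 1) * lin p ^ β ∉ I :=
        ⟨Nat.find hqJ0, Nat.find_spec hqJ0, fun b hb => Nat.find_min hqJ0 hb⟩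
      have hJs : β + J0 ≤ s := by
        by_contra hcon
        exact hJmin (s - β) (by omega) hend
      have hW : lin q ^ J0 * lin p ^ β ∉ I := by
        rcases Nat.eq_zero_or_pos J0 with h | h
        · rw [h, pow_zero, one_mul]; exact hβ0
        · have := hJmin (J0 - 1) (by omega)
          rwa [Nat.sub_add_cancel h] at this
      have hpβ : (lin p ^ β : MvPolynomial (Fin (N + 1)) K).IsHomogeneous β := by
        have h1 := (lin_homog p).pow β
        rwa [one_mul] at h1
      have hWh : (lin q ^ J0 * lin p ^ β : MvPolynomial (Fin (N + 1)) K).IsHomogeneous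
          (β + J0) := by
        have h1 := ((lin_homog q).pow J0).mul hpβ
        rwa [one_mul, Nat.add_comm J0 β] at h1
      obtain ⟨κ, hκ⟩ : ∃ κ, κ + (β + J0) = s + 2 := ⟨s + 2 - (β + J0), by omega⟩
      -- the bound for `β`
      have hmon : ∀ D' b k, 1 ≤ b → b + k ≤ D' → D' + 1 ≤ s + 2 → Z D' b → Z D' (b + k) := by
        intro D' b k hb
        induction k with
        | zero => intro _ _ h; exact h
        | succ k ih =>
          intro h1 h2 h3
          have h4 := ih (by omega) h2 h3
          rw [hZg _ _ (by omega) (by omega)] at h4 ⊢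
          obtain ⟨b', hb'⟩ : ∃ b', b + k = b' + 1 := ⟨b + k - 1, by omega⟩
          obtain ⟨a', ha'⟩ : ∃ a', D' - (b + k) = a' + 1 := ⟨D' - (b + k) - 1, by omega⟩
          rw [ha', hb'] at h4
          rw [show D' - (b + (k + 1)) = a' by omega, show b + (k + 1) = b' + 2 by omega]
          exact gn_step hS (by omega) h4
      have hcor3 : ∀ D' b x, 1 ≤ x → x ≤ b → b ≤ D' → D' + 2 ≤ s + 2 → ¬ Z D' b →
          (∀ b', x ≤ b' → b' ≤ b + 1 → Z (D' + 1) b') → (b + 1 ≤ D' → Z D' (b + 1)) →
          (s + 2) - D' ≤ nuM (b + 1 - x) * κ := by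
        intro D' b x h1 h2 h3 h4 h5 h6 h7
        obtain ⟨g1, g2⟩ := hcor' D' b x h1 h2 h3 h4 h5 h6 h7
        have h8 : β + J0 ≤ D' := by
          by_contra hcon
          push Not at hcon
          have hzb : Z (D' + 1) b := h6 b h2 (by omega)
          rcases Nat.lt_or_ge β b with hb | hb
          · apply h5
            change lin q ^ (D' - b) * lin p ^ b ∈ I
            obtain ⟨k, hk⟩ := Nat.exists_eq_add_of_le (Nat.succ_le_of_lt hb)
            rw [show b = β + 1 + k by omega, pow_add (lin p)]
            exact I.mul_mem_left _ (I.mul_mem_right _ hβ1)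
          · rcases Nat.lt_or_ge (D' + 1) β with hD' | hD'
            · have h9 := hmon (D' + 1) b (D' + 1 - b) (by omega) (by omega) (by omega) hzb
              rw [show b + (D' + 1 - b) = D' + 1 by omega] at h9
              have h10 : lin q ^ (D' + 1 - (D' + 1)) * lin p ^ (D' + 1) ∈ I := h9
              rw [Nat.sub_self, pow_zero, one_mul] at h10
              apply hβ0
              obtain ⟨k, hk⟩ := Nat.exists_eq_add_of_le hD'.le
              rw [hk, pow_add]
              exact I.mul_mem_right _ h10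
            · have h9 := hmon (D' + 1) b (β - b) (by omega) (by omega) (by omega) hzb
              rw [show b + (β - b) = β by omega] at h9
              have h10 : lin q ^ (D' + 1 - β) * lin p ^ β ∈ I := h9
              apply hW
              obtain ⟨k, hk⟩ : ∃ k, J0 = k + (D' + 1 - β) := ⟨J0 - (D' + 1 - β), by omega⟩
              rw [hk, pow_add, mul_assoc]
              exact I.mul_mem_left _ h10
        rcases Nat.eq_zero_or_pos (nuM (b + 1 - x)) with h9 | h9
        · rw [h9, zero_mul] at g1 ⊢
          exact g1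
        · calc (s + 2) - D' ≤ 1 * κ := by rw [one_mul]; omega
            _ ≤ _ := Nat.mul_le_mul_right _ h9
      have hcount3 := count (s + 2) β κ Z nuM (by omega) hZ0 hZ1 hZβ hZβ' hcor3
        (fun g h hgh => nu_antitone _ hgh)
      have hβκ : β < c * κ := by
        by_contra hcon
        push Not at hcon
        exact numeric hcount3 hsumnu hcon h1β
      have hκβ : β + 1 ≤ κ := by
        rw [hcc, one_mul] at hβκ
        omega
      rcases hF with hF | ⟨q1, hq1⟩
      · have hnr : ∃ u, M u ∉ Submodule.span K {p} := by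
          by_contra hcon
          push Not at hcon
          have h0 : LinearMap.range (quo M p hMp) = ⊥ := by
            rw [eq_bot_iff]
            rintro _ ⟨x, rfl⟩
            obtain ⟨u, rfl⟩ := Submodule.Quotient.mk_surjective _ x
            exact (Submodule.Quotient.mk_eq_zero _).mpr (hcon u)
          have h1 : c = 0 := by
            rw [hc, cc, pow_one, h0, finrank_bot]
          omega
        obtain ⟨u, hu⟩ := hnr
        obtain ⟨j, hj⟩ : ∃ j, m j0 * dd (fun i => C (u i)) m j ≠ dd (fun i => C (u i)) m j0 * m j := by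
          by_contra hcon
          push Not at hcon
          apply hu
          have h2 := MM_mem hqj hcon
          have h3 : vl q (fun i => C (u i) : Fin (N + 1) → MvPolynomial (Fin (N + 1)) K) = u := by
            ext i
            exact eval_C _
          rwa [h3] at h2
        have hj0 : m j0 ≠ 0 := by
          intro h0
          apply hqj
          rw [h0, map_zero]
        have hmq : ∀ q, lin q ^ s * lin (vl q m) ∈ I := by
          intro q
          have h0 : ell I ^ s * mu I m ^ 1 = 0 := by rwa [pow_one]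
          have h1 := (zero_iff (K := K) I).mp h0 q
          rwa [pow_one] at h1
        have hβe : ∀ i : Fin (N + 1), (i : ℕ) = 3 → β + 1 < e i := by
          intro i hi
          have h1 := hD3 i hi
          rw [hcc, one_mul] at hβc
          omega
        have hLd : 3 ≤ finrank K L := by omega
        subst hN4
        exact curve_false ha he hreg hmono hσ hj0 hmq hF h1β hβσ (hβe 3 rfl) hβall ⟨q, hβ0⟩ hLd hj
      · set v := vl q1 m with hv
        have hkerw : ∀ u, M u ∈ Submodule.span K {p} → lin u * (lin q ^ J0 * lin p ^ β) ∈ I := by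
          intro u hu
          obtain ⟨α, hα⟩ := Submodule.mem_span_singleton.mp hu
          obtain ⟨b, hb⟩ : ∃ b, β = b + 1 := ⟨β - 1, by omega⟩
          have h0 : ell I ^ (J0 + 1) * mu I m ^ (b + 1) = 0 := by
            rw [← hb]
            exact (hq (J0 + 1) β (by omega) (by omega)).mp hqW
          have h1 := ev_deriv h0 q u
          have h2 := I.mul_mem_left (((b + 1 : ℕ) : MvPolynomial (Fin (N + 1)) K) * C α) hqW
          have h3 := I.sub_mem h1 h2
          apply nat_mem (N := J0 + 1) (by omega)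
          rw [← hM, ← hα, lin_smul', ← hp, hb] at h3
          rw [hb]
          convert h3 using 1
          ring
        have hsplit : ∀ z, ∃ α : K, M (z - α • v) ∈ Submodule.span K {p} := by
          intro z
          have h1 : finrank K (LinearMap.range (quo M p hMp)) = 1 := by
            have h2 : c = finrank K (LinearMap.range (quo M p hMp)) := by
              rw [hc, cc, pow_one]
            omega
          have h3 : (⟨quo M p hMp (Submodule.Quotient.mk v), ⟨_, rfl⟩⟩ :
              LinearMap.range (quo M p hMp)) ≠ 0 := by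
            intro h0
            apply hq1
            have h4 := congrArg Subtype.val h0
            exact (Submodule.Quotient.mk_eq_zero _).mp h4
          obtain ⟨α, hα⟩ := (finrank_eq_one_iff_of_nonzero' _ h3).mp h1
            ⟨quo M p hMp (Submodule.Quotient.mk z), ⟨_, rfl⟩⟩
          refine ⟨α, ?_⟩
          have h4 := congrArg Subtype.val hα
          have h5 : quo M p hMp (Submodule.Quotient.mk (z - α • v)) = 0 := by
            have h6 : (Submodule.Quotient.mk (z - α • v) :
                (Fin (N + 1) → K) ⧸ Submodule.span K {p}) =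
                Submodule.Quotient.mk z - α • Submodule.Quotient.mk v := rfl
            rw [h6, map_sub, map_smul, sub_eq_zero]
            exact h4.symm
          exact (Submodule.Quotient.mk_eq_zero _).mp h5
        have hvj : ∀ j, j ≤ κ → lin v ^ j * (lin q ^ J0 * lin p ^ β) ∉ I := by
          intro j
          induction j with
          | zero =>
            intro _
            rwa [pow_zero, one_mul]
          | succ j ih =>
            intro hj hmem
            apply ih (by omega)
            have hdeg : (lin v ^ j * (lin q ^ J0 * lin p ^ β) :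
                MvPolynomial (Fin (N + 1)) K).IsHomogeneous (j + (β + J0)) := by
              have h1 := ((lin_homog v).pow j).mul hWh
              rwa [one_mul] at h1
            refine hS _ _ hdeg (by omega) fun i => ?_
            obtain ⟨α, hα⟩ := hsplit (Pi.single i 1)
            have h1 := hkerw _ hα
            have h2 : (X i : MvPolynomial (Fin (N + 1)) K) =
                lin ((Pi.single i 1 : Fin (N + 1) → K) - α • v) + C α * lin v := by
              rw [← lin_single, ← lin_smul', ← lin_add', sub_add_cancel]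
            rw [h2, add_mul]
            apply I.add_mem
            · have h3 := I.mul_mem_left (lin v ^ j) h1
              convert h3 using 1
              ring
            · have h3 := I.mul_mem_left (C α) hmem
              convert h3 using 1
              rw [pow_succ]
              ring
        apply hvj κ le_rfl
        apply I.mul_mem_right
        obtain ⟨k, hk⟩ := Nat.exists_eq_add_of_le hκβ
        rw [hk, pow_add]
        exact I.mul_mem_right _ (hβall q1)
  · apply numeric (c := 0) hcount ?_ (by omega) h1β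
    apply le_of_eq
    apply Finset.sum_eq_zero
    intro g hg
    exact hc2 g (Finset.mem_Icc.mp hg).1

theorem core7 [CharZero K] {N : ℕ} {a : Fin (N + 1) → MvPolynomial (Fin (N + 1)) K}
    {e : Fin (N + 1) → ℕ} (ha : ∀ i, (a i).IsHomogeneous (e i)) (he : ∀ i, 2 ≤ e i)
    (hreg : Reg a) (hmono : Monotone e) {D : ℕ} (hD1 : 1 ≤ D) (hD : ∀ i : Fin N, e i.castSucc ≤ D)
    (hpow : ∀ k, 1 ≤ k → k + 2 ≤ N → k * (D - 1) ≤ ∑ i ∈ Finset.range (k + 1), em e i ∨
      finrank K (Submodule.span K {z : Fin (N + 1) → K |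
        (lin z : MvPolynomial (Fin (N + 1)) K) ^ (k * (D - 1)) ∈ Ideal.span (Set.range a)}) ≤ k + 1 ∨
      (k + 2 = N ∧ k * em e k ≤ ∑ i ∈ Finset.range (k + 1), em e i ∧
        (k + 1) * (D - 1) + em e k ≤ ∑ i, (e i - 1)) ∨
      (k = 1 ∧ N = 4 ∧ ∀ i : Fin (N + 1), (i : ℕ) = 3 → D ≤ e i))
    {P : MvPolynomial (Fin (N + 1)) K} (hP : P ≠ 0) :
    ∃ q : Fin (N + 1) → K, eval q P ≠ 0 ∧ ∀ z : Fin (N + 1) → K,
      lin q ^ (∑ i, (e i - 1) - 2) * lin z ∈ Ideal.span (Set.range a) → z = 0 := by
  classical
  have he1 : ∀ i, 1 ≤ e i := fun i => (by omega : 1 ≤ 2).trans (he i)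
  have hlin : ∀ z : Fin (N + 1) → K,
      (lin z : MvPolynomial (Fin (N + 1)) K) ∈ Ideal.span (Set.range a) → z = 0 :=
    fun z hz => lin_notMem ha he hreg hmono hz
  rcases Nat.eq_zero_or_pos (∑ i, (e i - 1) - 2) with h0 | hs
  · obtain ⟨q, hq⟩ : ∃ q, eval q P ≠ 0 := by
      by_contra hcon
      push Not at hcon
      exact hP (MvPolynomial.funext fun q => by rw [hcon, map_zero])
    refine ⟨q, hq, fun z hz => ?_⟩
    rw [h0, pow_zero, one_mul] at hz
    exact hlin z hz
  · by_contra hcon
    push Not at hcon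
    set s := ∑ i, (e i - 1) - 2 with hsdef
    have hσ : ∑ i, (e i - 1) = s + 2 := by omega
    obtain ⟨φ, hφ, hI⟩ := ci_gor ha he1 hreg
    rw [hσ] at hφ
    have hS : Soc (Ideal.span (Set.range a)) (s + 2) := by
      intro j w hw hj hXw
      rw [← hσ] at hj
      exact socle_ci _ a e ha he1 (sreg_of_reg ha he1 hreg) rfl j w hw hj hXw
    have hker := exists_ker hφ hI hP (fun q hq => by
      obtain ⟨z, hz1, hz2⟩ := hcon q hq
      exact ⟨z, hz2, hz1⟩)
    obtain ⟨m, j0, hj0, hm, hmm, hmX⟩ := exists_min hS le_rfl hs hker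
    have hreg0 : Reg (fun i : Fin N => a i.castSucc) := reg_prefix (Nat.le_succ N) hreg
    have hne : {q : Fin (N + 1) → K |
        NZD (Ideal.span (Set.range fun i : Fin N => a i.castSucc)) (lin q)}.Nonempty :=
      exists_lin_of_reg (Nat.lt_succ_self N) (fun i => ha _) (fun i => he1 _) hreg0
    have hSo := openC_nzd (Ideal.span (Set.range fun i : Fin N => a i.castSucc))
    -- a value of `m`
    obtain ⟨q0, hq0S, hq0⟩ := exists_generic hSo hne hj0
    have hz10 : vl q0 m ≠ 0 := by
      intro h0
      apply hq0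
      exact congrFun h0 j0
    have h1 : ell (Ideal.span (Set.range a)) ^ (s + 1) *
        mu (Ideal.span (Set.range a)) (fun j => C (vl q0 m j)) ≠ 0 := by
      intro h1
      exact hz10 (hlin _ (ell_pow_const hS (vl q0 m) (s + 1) (by omega) h1))
    obtain ⟨ψ, hψ⟩ := exists_cmap_ne (K := K) h1
    have hψ2 : ∀ q : Fin (N + 1) → K, eval q (cmap ψ (ell (Ideal.span (Set.range a)) ^ (s + 1) *
        mu (Ideal.span (Set.range a)) (fun j => C (vl q0 m j)))) ≠ 0 →
        lin q ^ (s + 1) * lin (vl q0 m) ∉ Ideal.span (Set.range a) := by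
      intro q hq hmem
      apply hq
      have h3 : vl q (fun j => C (vl q0 m j)) = vl q0 m := by
        funext j
        exact eval_C _
      rw [eval_cmap, map_mul, map_pow, ev_ell, ev_mu, h3, ← map_pow, ← map_mul,
        Ideal.Quotient.eq_zero_iff_mem.mpr hmem, map_zero]
    -- the values of `m` are nonzerodivisors
    obtain ⟨P1, hP10, hP1⟩ : ∃ P1 : MvPolynomial (Fin (N + 1)) K, P1 ≠ 0 ∧ ∀ q, eval q P1 ≠ 0 →
        ∀ k (hk : k + 2 = N), N ≤ finrank K (Submodule.span K (Set.range fun q' => vl q' m)) →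
        NZD (Ideal.span (Set.range fun i : Fin (k + 1) => a (Fin.castLE (by omega) i)))
          (lin (vl q m)) := by
      by_cases hN : ∃ k, k + 2 = N ∧
          N ≤ finrank K (Submodule.span K (Set.range fun q' => vl q' m))
      · obtain ⟨k, hk, hNL⟩ := hN
        obtain ⟨z, hz, hzJ⟩ := exists_nzd_of_dim
          (a := fun i : Fin (k + 1) => a (Fin.castLE (by omega) i)) (fun i => ha _)
          (fun i => he1 _) (reg_prefix (by omega) hreg)
          (L := Submodule.span K (Set.range fun q' => vl q' m)) (by omega)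
        obtain ⟨P1, hP10, hP1⟩ := exists_vl_nzd hz hzJ
        refine ⟨P1, hP10, fun q hq k' hk' _ => ?_⟩
        obtain rfl : k' = k := by omega
        exact hP1 q hq
      · exact ⟨1, one_ne_zero, fun q _ k hk h => absurd ⟨k, hk, h⟩ hN⟩
    -- the derivatives in the directions of the values of `m`
    obtain ⟨P2, hP20, hP2⟩ : ∃ P2 : MvPolynomial (Fin (N + 1)) K, P2 ≠ 0 ∧ ∀ q, eval q P2 ≠ 0 →
        (∀ q' : Fin (N + 1) → K, ∀ j, m j0 * dd (fun i => C (vl q' m i)) m j =
          dd (fun i => C (vl q' m i)) m j0 * m j) ∨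
        ∃ q1, MM q m (vl q1 m) ∉ Submodule.span K {vl q m} := by
      by_cases hF : ∀ q' : Fin (N + 1) → K, ∀ j, m j0 * dd (fun i => C (vl q' m i)) m j =
          dd (fun i => C (vl q' m i)) m j0 * m j
      · exact ⟨1, one_ne_zero, fun q _ => Or.inl hF⟩
      · push Not at hF
        obtain ⟨q1, j, hj⟩ := hF
        refine ⟨_, sub_ne_zero.mpr hj, fun q hq => Or.inr ⟨q1, fun hmem => hq ?_⟩⟩
        have hre : ∀ i, MM q m (vl q1 m) i = eval q (dd (fun i => C (vl q1 m i)) m i) := by
          intro i
          have h2 := MM_vl q (fun i => C (vl q1 m i) : Fin (N + 1) → MvPolynomial (Fin (N + 1)) K) m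
          have h3 : vl q (fun i => C (vl q1 m i) : Fin (N + 1) → MvPolynomial (Fin (N + 1)) K) =
              vl q1 m := by
            ext i
            exact eval_C _
          rw [h3] at h2
          exact congrFun h2 i
        obtain ⟨α, hα⟩ := Submodule.mem_span_singleton.mp hmem
        rw [map_sub, map_mul, map_mul, ← hre, ← hre, ← hα]
        change vl q m j0 * (α * vl q m j) - α * vl q m j0 * vl q m j = 0
        ring
    obtain ⟨q, hqS, hqj, hq⟩ := exists_point (I := Ideal.span (Set.range a))
      (Pool.Agent.Q8.GE.openC_eval hSo _) (by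
        obtain ⟨q, hq1, hq2⟩ := exists_generic hSo hne (mul_ne_zero (mul_ne_zero hψ hP10) hP20)
        exact ⟨q, hq1, hq2⟩) (s + 2) hj0
    have hqS3 := hqS.2
    rw [map_mul] at hqS3
    have hqS2 := left_ne_zero_of_mul hqS3
    rw [map_mul] at hqS2
    exact contra7 ha he hreg hmono hD1 hD hlin hpow hs hσ hm hmm hmX hqS.1 hqj
      (hψ2 q (left_ne_zero_of_mul hqS2)) (fun x y hx hy => hq x y hx hy)
      (hP1 q (right_ne_zero_of_mul hqS2)) (hP2 q (right_ne_zero_of_mul hqS3))

end Pool.Agent.Q8.GF
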