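import Pool.Agent.Q8.GF.GrA

/-!
Solutions in a hyperplane.
-/

open MvPolynomial
open Pool.Agent.W515.SLP (AnnP Deg annP_zero annP_of_gt annP_of_homog lin)
open H503R3.QCI (Homog NZD Reg comp_mul comp_mul_of_lt homog_span isSocleDegree_ci)
open TH130CI
open Pool.Agent.Y204.LF (reg_prefix exists_lin_of_reg)

namespace Pool.Agent.Q8.GF

open Module
open Pool.Agent.Q8.GC
open Pool.Agent.Q8.GD

variable {K : Type*} [Field K] {n : ℕ} {I : Ideal (MvPolynomial (Fin n) K)}

/-- **A solution of minimal support in a hyperplane.** -/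
theorem exists_min2 [CharZero K] {σ s : ℕ} (hS : Soc I σ) (hs : s + 2 ≤ σ) (hs1 : 1 ≤ s)
    (y0 : Fin n → K)
    (h : ∃ m : Fin n → MvPolynomial (Fin n) K, m ≠ 0 ∧ ell I ^ s * mu I m = 0 ∧
      ∑ j, C (y0 j) * m j = 0) :
    ∃ (m : Fin n → MvPolynomial (Fin n) K) (j0 : Fin n), m j0 ≠ 0 ∧ ell I ^ s * mu I m = 0 ∧
      (∀ j, m j0 * dd m m j = dd m m j0 * m j) ∧
      (∀ j, m j0 * dd (fun j => X j) m j = dd (fun j => X j) m j0 * m j) ∧
      ∑ j, C (y0 j) * m j = 0 := by
  classical
  let P : ℕ → Prop := fun k => ∃ m : Fin n → MvPolynomial (Fin n) K,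
    (m ≠ 0 ∧ ell I ^ s * mu I m = 0 ∧ ∑ j, C (y0 j) * m j = 0) ∧
      (Finset.univ.filter fun j => m j ≠ 0).card = k
  have hP : ∃ k, P k := by
    obtain ⟨m, hm⟩ := h
    exact ⟨_, m, hm, rfl⟩
  obtain ⟨m, ⟨hm0, hm, hmy⟩, hcard⟩ := Nat.find_spec hP
  have hmin : ∀ w : Fin n → MvPolynomial (Fin n) K, ell I ^ s * mu I w = 0 →
      ∑ j, C (y0 j) * w j = 0 →
      (Finset.univ.filter fun j => w j ≠ 0).card < (Finset.univ.filter fun j => m j ≠ 0).card →
      w = 0 := by
    intro w hw hwy hlt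
    by_contra hw0
    rw [hcard] at hlt
    exact Nat.find_min hP hlt ⟨w, ⟨hw0, hw, hwy⟩, rfl⟩
  obtain ⟨j0, hj0⟩ : ∃ j0, m j0 ≠ 0 := by
    by_contra hcon
    push Not at hcon
    exact hm0 (funext hcon)
  have key : ∀ w : Fin n → MvPolynomial (Fin n) K, ell I ^ s * mu I w = 0 →
      ∑ j, C (y0 j) * w j = 0 →
      (∀ j, m j = 0 → w j = 0) → ∀ j, m j0 * w j = w j0 * m j := by
    intro w hw hwy hsup j
    have h1 := hmin (fun j => m j0 * w j - w j0 * m j) (by
      rw [mu_sub, mu_mul, mu_mul]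
      linear_combination map (algebraMap K (MvPolynomial (Fin n) K ⧸ I)) (m j0) * hw -
        map (algebraMap K (MvPolynomial (Fin n) K ⧸ I)) (w j0) * hm) (by
      have e : ∑ j, C (y0 j) * (m j0 * w j - w j0 * m j) =
          m j0 * (∑ j, C (y0 j) * w j) - w j0 * ∑ j, C (y0 j) * m j := by
        rw [Finset.mul_sum, Finset.mul_sum, ← Finset.sum_sub_distrib]
        refine Finset.sum_congr rfl fun j _ => ?_
        ring
      rw [e, hwy, hmy, mul_zero, mul_zero, sub_zero]) (by
      apply Finset.card_lt_card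
      rw [Finset.ssubset_iff_of_subset]
      · refine ⟨j0, Finset.mem_filter.mpr ⟨Finset.mem_univ _, hj0⟩, ?_⟩
        intro hmem
        exact (Finset.mem_filter.mp hmem).2 (by ring)
      · intro j hj
        rw [Finset.mem_filter] at hj ⊢
        refine ⟨Finset.mem_univ _, fun hz => hj.2 ?_⟩
        rw [hz, hsup j hz, mul_zero, mul_zero, sub_zero])
    exact sub_eq_zero.mp (congrFun h1 j)
  have hdd : ∀ (r : Fin n → MvPolynomial (Fin n) K) j, m j = 0 → dd r m j = 0 := by
    intro r j hj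
    rw [dd]
    refine Finset.sum_eq_zero fun i _ => ?_
    rw [hj, map_zero, mul_zero]
  have hddy : ∀ r : Fin n → MvPolynomial (Fin n) K, ∑ j, C (y0 j) * dd r m j = 0 := by
    intro r
    have e : ∑ j, C (y0 j) * dd r m j = ∑ i, r i * pderiv i (∑ j, C (y0 j) * m j) := by
      simp only [dd, map_sum, Finset.mul_sum]
      rw [Finset.sum_comm]
      refine Finset.sum_congr rfl fun i _ => Finset.sum_congr rfl fun j _ => ?_
      rw [Derivation.leibniz, pderiv_C, smul_zero, add_zero, smul_eq_mul]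
      ring
    rw [e, hmy]
    refine Finset.sum_eq_zero fun i _ => ?_
    rw [map_zero, mul_zero]
  exact ⟨m, j0, hj0, hm, key _ (dd_mem hS hs hs1 hm hm) (hddy m) (hdd m),
    key _ (dd_ell hs1 hm) (hddy _) (hdd _), hmy⟩

lemma pderiv_cmap {A : Type*} [CommRing A] [Algebra K A] (ψ : A →ₗ[K] K)
    (f : MvPolynomial (Fin n) A) (l : Fin n) : pderiv l (cmap ψ f) = cmap ψ (pderiv l f) := by
  classical
  ext s
  rw [coeff_cmap, coeff_pderiv, coeff_pderiv, coeff_cmap]
  have h : coeff (s + Finsupp.single l 1) f * ((s l : A) + 1) =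
      ((s l : K) + 1) • coeff (s + Finsupp.single l 1) f := by
    rw [Algebra.smul_def, map_add, map_natCast, map_one, mul_comm]
  rw [h, map_smul, smul_eq_mul, mul_comm]

/-- a section of a functional which vanishes on the ideal -/
lemma exists_psi {φ : MvPolynomial (Fin n) K →ₗ[K] K} (hI : I = gor φ) :
    ∃ ψ : (MvPolynomial (Fin n) K ⧸ I) →ₗ[K] K, ∀ g, ψ (Ideal.Quotient.mk I g) = φ g := by
  obtain ⟨sec, hsec⟩ := (Ideal.Quotient.mkₐ K I).toLinearMap.exists_rightInverse_of_surjective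
    (LinearMap.range_eq_top.mpr (Ideal.Quotient.mkₐ_surjective K I))
  refine ⟨φ ∘ₗ sec, fun g => ?_⟩
  have h1 : Ideal.Quotient.mk I (sec (Ideal.Quotient.mk I g)) = Ideal.Quotient.mk I g :=
    LinearMap.congr_fun hsec (Ideal.Quotient.mk I g)
  rw [Ideal.Quotient.mk_eq_mk_iff_sub_mem] at h1
  have h3 : sec (Ideal.Quotient.mk I g) - g ∈ gor φ := hI ▸ h1
  have h2 := h3 1
  rw [mul_one, map_sub, sub_eq_zero] at h2
  exact h2

/-- the gradient of the dual form -/
noncomputable def grad (ψ : (MvPolynomial (Fin n) K ⧸ I) →ₗ[K] K) (s : ℕ) (j : Fin n) :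
    MvPolynomial (Fin n) K := cmap ψ (ell I ^ (s + 1) * C (xx I j))

lemma eval_grad {φ : MvPolynomial (Fin n) K →ₗ[K] K}
    {ψ : (MvPolynomial (Fin n) K ⧸ I) →ₗ[K] K} (hψ : ∀ g, ψ (Ideal.Quotient.mk I g) = φ g) (s : ℕ)
    (j : Fin n) (q : Fin n → K) : eval q (grad ψ s j) = φ (lin q ^ (s + 1) * X j) := by
  rw [grad, eval_cmap, map_mul, map_pow, ev_ell, ev_C, xx, ← map_pow, ← map_mul, hψ]

lemma eval_pderiv_grad {φ : MvPolynomial (Fin n) K →ₗ[K] K}
    {ψ : (MvPolynomial (Fin n) K ⧸ I) →ₗ[K] K} (hψ : ∀ g, ψ (Ideal.Quotient.mk I g) = φ g) (s : ℕ)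
    (j l : Fin n) (q : Fin n → K) :
    eval q (pderiv l (grad ψ s j)) = ((s + 1 : ℕ) : K) * φ (lin q ^ s * (X l * X j)) := by
  have h : ev q (pderiv l (ell I ^ (s + 1) * C (xx I j))) =
      Ideal.Quotient.mk I (((s + 1 : ℕ) : K) • (lin q ^ s * (X l * X j))) := by
    have e : ((s + 1 : ℕ) : K) • (lin q ^ s * (X l * X j) : MvPolynomial (Fin n) K) =
        ((s + 1 : ℕ) : MvPolynomial (Fin n) K) * (lin q ^ s * (X l * X j)) := by
      rw [smul_eq_C_mul, map_natCast]
    rw [e, deriv_ell, pderiv_C, mul_zero, add_zero, map_mul (ev q), map_natCast, map_mul (ev q),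
      map_pow, map_mul (ev q), ev_ell, ev_C, ev_C, xx, xx, map_mul, map_natCast, map_mul, map_pow,
      map_mul]
  rw [grad, pderiv_cmap, eval_cmap, h, hψ, map_smul, smul_eq_mul]

/-- **If the gradient of the dual form satisfies too many equations then there is a solution in a
given hyperplane.** -/
theorem exists_sol [CharZero K] {s k : ℕ} {φ : MvPolynomial (Fin n) K →ₗ[K] K}
    (hφ : Deg φ (s + 2)) (hI : I = gor φ)
    {ψ : (MvPolynomial (Fin n) K ⧸ I) →ₗ[K] K} (hψ : ∀ g, ψ (Ideal.Quotient.mk I g) = φ g)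
    (hn : 2 + 1 + k = n) {a : Fin 2 → MvPolynomial (Fin n) K} {e : Fin 2 → ℕ}
    (ha : ∀ i, (a i).IsHomogeneous (e i)) (he : ∀ i, 1 ≤ e i) (hreg : Reg a)
    (hag : ∀ i, aeval (grad ψ s) (a i) = 0) {y0 : Fin n → K} (hy0 : y0 ≠ 0) :
    ∃ m : Fin n → MvPolynomial (Fin n) K, m ≠ 0 ∧ ell I ^ s * mu I m = 0 ∧
      ∑ j, C (y0 j) * m j = 0 := by
  classical
  -- a basis of the hyperplane
  let Y : (Fin n → K) →ₗ[K] K := ∑ j, (y0 j) • LinearMap.proj j
  have hY : ∀ z, Y z = ∑ j, y0 j * z j := by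
    intro z
    simp [Y]
  have hker : finrank K (LinearMap.ker Y) = k + 1 + 1 := by
    have h1 := LinearMap.finrank_range_add_finrank_ker Y
    have h2 : LinearMap.range Y = ⊤ := by
      rw [LinearMap.range_eq_top]
      apply LinearMap.surjective
      intro h0
      apply hy0
      ext j
      have h3 := LinearMap.congr_fun h0 (Pi.single j 1)
      rw [hY, Finset.sum_eq_single j] at h3
      · rw [Pi.single_eq_same, mul_one] at h3
        exact h3
      · intro b _ hb
        rw [Pi.single_eq_of_ne hb, mul_zero]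
      · intro h; exact absurd (Finset.mem_univ j) h
    rw [h2, finrank_top, finrank_self, finrank_fin_fun] at h1
    omega
  let B := Module.finBasisOfFinrankEq K (LinearMap.ker Y) hker
  let b : Fin (k + 1 + 1) → Fin n → K := fun i => (B i : Fin n → K)
  have hb : LinearIndependent K b := B.linearIndependent.map' _ (Submodule.ker_subtype _)
  have hby : ∀ i, ∑ j, y0 j * b i j = 0 := fun i => by
    rw [← hY]
    exact (B i).2
  obtain ⟨d, G, hG, hG0, hGa⟩ := exists_rel hn ha he hreg b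
  set f : Fin (k + 1 + 1) → MvPolynomial (Fin n) K := fun i => ∑ j, C (b i j) * grad ψ s j with hf
  have hGf : aeval f G = 0 := by
    have h1 : (aeval (grad ψ s) : MvPolynomial (Fin n) K →ₐ[K] MvPolynomial (Fin n) K)
        (aeval (fun i => (lin (b i) : MvPolynomial (Fin n) K)) G) = aeval f G := by
      rw [← AlgHom.comp_apply]
      congr 1
      apply MvPolynomial.algHom_ext
      intro i
      rw [AlgHom.comp_apply, aeval_X, aeval_X]
      simp only [lin, map_sum, map_mul, aeval_X, hf]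
      refine Finset.sum_congr rfl fun j _ => ?_
      congr 1
      exact aeval_C _ _
    rw [← h1]
    have h2 : Ideal.span (Set.range a) ≤ RingHom.ker (aeval (grad ψ s) :
        MvPolynomial (Fin n) K →ₐ[K] MvPolynomial (Fin n) K) := by
      rw [Ideal.span_le]
      rintro _ ⟨i, rfl⟩
      exact hag i
    exact h2 hGa
  obtain ⟨c, hc0, hc⟩ := dep_grad ⟨d, G, hG, hG0, hGf⟩
  refine ⟨fun j => ∑ i, c i * C (b i j), ?_, ?_, ?_⟩
  · intro h0
    obtain ⟨i, hi⟩ : ∃ i, c i ≠ 0 := by
      by_contra hcon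
      push Not at hcon
      exact hc0 (funext hcon)
    obtain ⟨q, hq⟩ := exists_ne hi
    have h1 : ∑ i, eval q (c i) • b i = 0 := by
      ext j
      have h2 := congrArg (eval q) (congrFun h0 j)
      simp only [map_sum, map_mul, eval_C, Pi.zero_apply, map_zero] at h2
      rw [Finset.sum_apply, Pi.zero_apply, ← h2]
      rfl
    exact hq (Fintype.linearIndependent_iff.mp hb _ h1 i)
  · rw [← pow_one (mu I _), zero_iff]
    intro q
    rw [pow_one, hI]
    have hhom : (lin q ^ s * lin (vl q fun j => ∑ i, c i * C (b i j)) :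
        MvPolynomial (Fin n) K).IsHomogeneous (s + 1) := by
      have h1 := ((lin_homog q).pow s).mul (lin_homog (vl q fun j => ∑ i, c i * C (b i j)))
      rwa [one_mul] at h1
    apply mem_of_vars hφ hhom
    intro l
    have h1 := congrArg (eval q) (hc l)
    rw [map_zero, map_sum] at h1
    have h2 : ∀ i, eval q (c i * pderiv l (f i)) =
        ((s + 1 : ℕ) : K) * (eval q (c i) * ∑ j, b i j * φ (lin q ^ s * (X l * X j))) := by
      intro i
      have hp : ∀ j, pderiv l (C (b i j) * grad ψ s j) = C (b i j) * pderiv l (grad ψ s j) := by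
        intro j
        rw [Derivation.leibniz, pderiv_C, smul_zero, add_zero, smul_eq_mul]
      have hq1 : ∀ j, eval q (C (b i j) * pderiv l (grad ψ s j)) =
          b i j * (((s + 1 : ℕ) : K) * φ (lin q ^ s * (X l * X j))) := by
        intro j
        rw [map_mul, eval_C, eval_pderiv_grad hψ]
      rw [map_mul, hf]
      simp only [map_sum, hp, hq1, Finset.mul_sum]
      refine Finset.sum_congr rfl fun j _ => ?_
      ring
    simp only [h2] at h1
    rw [← Finset.mul_sum, mul_eq_zero] at h1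
    have h3 := h1.resolve_left (Nat.cast_ne_zero.mpr (Nat.succ_ne_zero s))
    rw [← h3, lin_sum (vl q fun j => ∑ i, c i * C (b i j)), Finset.mul_sum, Finset.sum_mul, map_sum]
    have e1 : ∀ j, φ (lin q ^ s * ((vl q fun j => ∑ i, c i * C (b i j)) j • X j) * X l) =
        ∑ i, eval q (c i) * (b i j * φ (lin q ^ s * (X l * X j))) := by
      intro j
      have e2 : (lin q ^ s * ((vl q fun j => ∑ i, c i * C (b i j)) j • X j) * X l :
          MvPolynomial (Fin n) K) =
          ((vl q fun j => ∑ i, c i * C (b i j)) j) • (lin q ^ s * (X l * X j)) := by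
        rw [smul_eq_C_mul, smul_eq_C_mul]
        ring
      rw [e2, map_smul, smul_eq_mul]
      have e3 : (vl q fun j => ∑ i, c i * C (b i j)) j = ∑ i, eval q (c i) * b i j := by
        change eval q (∑ i, c i * C (b i j)) = _
        simp only [map_sum, map_mul, eval_C]
      rw [e3, Finset.sum_mul]
      refine Finset.sum_congr rfl fun i _ => ?_
      ring
    simp only [e1]
    rw [Finset.sum_comm]
    refine Finset.sum_congr rfl fun i _ => ?_
    rw [Finset.mul_sum]
  · have e : ∑ j, C (y0 j) * ∑ i, c i * C (b i j) = ∑ i, c i * C (∑ j, y0 j * b i j) := by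
      simp only [Finset.mul_sum, map_sum, map_mul]
      rw [Finset.sum_comm]
      refine Finset.sum_congr rfl fun i _ => Finset.sum_congr rfl fun j _ => ?_
      ring
    rw [e]
    refine Finset.sum_eq_zero fun i _ => ?_
    rw [hby, map_zero, mul_zero]

end Pool.Agent.Q8.GF
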