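import Pool.Agent.Q8.GF.CvD

/-!
Homogeneous solutions, and the point of the hyperplane.
-/

open MvPolynomial
open Pool.Agent.W515.SLP (AnnP Deg annP_zero annP_of_gt annP_of_homog lin)
open H503R3.QCI (Homog NZD Reg comp_mul comp_mul_of_lt homog_span isSocleDegree_ci)
open TH130CI
open Pool.Agent.Y204.LF (reg_prefix exists_lin_of_reg)

namespace Pool.Agent.Q8.GF

open Module
open Pool.Agent.Q8.GC
open Pool.Agent.Q8.GD

variable {K : Type*} [Field K] {n : ℕ} {I : Ideal (MvPolynomial (Fin n) K)}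

lemma comp_mul' {A : Type*} [CommRing A] {f v : MvPolynomial (Fin n) A} {e k : ℕ}
    (hf : f.IsHomogeneous e) :
    homogeneousComponent (e + k) (f * v) = f * homogeneousComponent k v := by
  conv_lhs => rw [← sum_homogeneousComponent v, Finset.mul_sum, map_sum]
  have h1 : ∀ i ∈ Finset.range (v.totalDegree + 1),
      homogeneousComponent (e + k) (f * homogeneousComponent i v) =
      if i = k then f * homogeneousComponent k v else 0 := by
    intro i _
    rw [homogeneousComponent_of_mem (hf.mul (homogeneousComponent_isHomogeneous i v))]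
    by_cases h : i = k
    · rw [if_pos h, if_pos (by rw [h]), h]
    · rw [if_neg h, if_neg (by omega)]
  rw [Finset.sum_congr rfl h1, Finset.sum_ite_eq']
  split_ifs with h
  · rfl
  · rw [homogeneousComponent_eq_zero k v (by simpa using h), mul_zero]

lemma comp_mu (m : Fin n → MvPolynomial (Fin n) K) (d : ℕ) :
    homogeneousComponent d (mu I m) = mu I fun j => homogeneousComponent d (m j) := by
  classical
  rw [mu, mu, map_sum]
  refine Finset.sum_congr rfl fun j _ => ?_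
  rw [homogeneousComponent_C_mul]
  congr 1
  ext t
  rw [coeff_homogeneousComponent, coeff_map, coeff_map, coeff_homogeneousComponent]
  split_ifs
  · rfl
  · rw [map_zero]

lemma ell_homog (I : Ideal (MvPolynomial (Fin n) K)) : (ell I).IsHomogeneous 1 := by
  apply IsHomogeneous.sum
  intro k _
  have h1 := (isHomogeneous_C (Fin n) (xx I k)).mul
    (isHomogeneous_X (MvPolynomial (Fin n) K ⧸ I) k)
  rwa [zero_add] at h1

lemma mu_homog {m : Fin n → MvPolynomial (Fin n) K} {d : ℕ} (hm : ∀ j, (m j).IsHomogeneous d) :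
    (mu I m).IsHomogeneous d := by
  apply IsHomogeneous.sum
  intro k _
  have h1 := (isHomogeneous_C (Fin n) (xx I k)).mul
    ((hm k).map (algebraMap K (MvPolynomial (Fin n) K ⧸ I)))
  rwa [zero_add] at h1

/-- **A homogeneous solution of minimal support in a hyperplane.** -/
theorem exists_min3 [CharZero K] {σ s : ℕ} (hS : Soc I σ) (hs : s + 2 ≤ σ) (hs1 : 1 ≤ s)
    (y0 : Fin n → K)
    (h : ∃ m : Fin n → MvPolynomial (Fin n) K, m ≠ 0 ∧ ell I ^ s * mu I m = 0 ∧
      ∑ j, C (y0 j) * m j = 0) :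
    ∃ (m : Fin n → MvPolynomial (Fin n) K) (j0 : Fin n) (d : ℕ), m j0 ≠ 0 ∧
      (∀ j, (m j).IsHomogeneous d) ∧ ell I ^ s * mu I m = 0 ∧
      (∀ j, m j0 * dd m m j = dd m m j0 * m j) ∧
      (∀ j, m j0 * dd (fun j => X j) m j = dd (fun j => X j) m j0 * m j) ∧
      ∑ j, C (y0 j) * m j = 0 := by
  classical
  let P : ℕ → Prop := fun k => ∃ m : Fin n → MvPolynomial (Fin n) K,
    (m ≠ 0 ∧ ell I ^ s * mu I m = 0 ∧ ∑ j, C (y0 j) * m j = 0) ∧
      (Finset.univ.filter fun j => m j ≠ 0).card = k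
  have hP : ∃ k, P k := by
    obtain ⟨m, hm⟩ := h
    exact ⟨_, m, hm, rfl⟩
  obtain ⟨m1, ⟨hm0', hm', hmy'⟩, hcard'⟩ := Nat.find_spec hP
  obtain ⟨m, d, hmh, ⟨hm0, hm, hmy⟩, hcard⟩ : ∃ (m : Fin n → MvPolynomial (Fin n) K) (d : ℕ),
      (∀ j, (m j).IsHomogeneous d) ∧ (m ≠ 0 ∧ ell I ^ s * mu I m = 0 ∧
        ∑ j, C (y0 j) * m j = 0) ∧
      (Finset.univ.filter fun j => m j ≠ 0).card ≤ Nat.find hP := by
    obtain ⟨j1, hj1⟩ : ∃ j1, m1 j1 ≠ 0 := by
      by_contra hcon
      push Not at hcon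
      exact hm0' (funext hcon)
    obtain ⟨d, hd⟩ : ∃ d, homogeneousComponent d (m1 j1) ≠ 0 := by
      by_contra hcon
      push Not at hcon
      apply hj1
      rw [← sum_homogeneousComponent (m1 j1)]
      exact Finset.sum_eq_zero fun i _ => hcon i
    refine ⟨fun j => homogeneousComponent d (m1 j), d,
      fun j => homogeneousComponent_isHomogeneous _ _, ⟨?_, ?_, ?_⟩, ?_⟩
    · intro h0
      exact hd (congrFun h0 j1)
    · have h1 := comp_mul' (f := ell I ^ s) (v := mu I m1) (e := s) (k := d) (by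
        have h2 := (ell_homog I).pow s
        rwa [one_mul] at h2)
      rw [hm', map_zero] at h1
      rw [← comp_mu, ← h1]
    · have h1 := congrArg (homogeneousComponent d) hmy'
      rw [map_sum, map_zero] at h1
      rw [← h1]
      refine Finset.sum_congr rfl fun j _ => ?_
      rw [homogeneousComponent_C_mul]
    · rw [← hcard']
      apply Finset.card_le_card
      intro j hj
      rw [Finset.mem_filter] at hj ⊢
      refine ⟨Finset.mem_univ _, fun h0 => hj.2 ?_⟩
      change homogeneousComponent d (m1 j) = 0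
      rw [h0, map_zero]
  have hmin : ∀ w : Fin n → MvPolynomial (Fin n) K, ell I ^ s * mu I w = 0 →
      ∑ j, C (y0 j) * w j = 0 →
      (Finset.univ.filter fun j => w j ≠ 0).card < (Finset.univ.filter fun j => m j ≠ 0).card →
      w = 0 := by
    intro w hw hwy hlt
    by_contra hw0
    exact Nat.find_min hP (lt_of_lt_of_le hlt hcard) ⟨w, ⟨hw0, hw, hwy⟩, rfl⟩
  obtain ⟨j0, hj0⟩ : ∃ j0, m j0 ≠ 0 := by
    by_contra hcon
    push Not at hcon
    exact hm0 (funext hcon)
  have key : ∀ w : Fin n → MvPolynomial (Fin n) K, ell I ^ s * mu I w = 0 →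
      ∑ j, C (y0 j) * w j = 0 →
      (∀ j, m j = 0 → w j = 0) → ∀ j, m j0 * w j = w j0 * m j := by
    intro w hw hwy hsup j
    have h1 := hmin (fun j => m j0 * w j - w j0 * m j) (by
      rw [mu_sub, mu_mul, mu_mul]
      linear_combination map (algebraMap K (MvPolynomial (Fin n) K ⧸ I)) (m j0) * hw -
        map (algebraMap K (MvPolynomial (Fin n) K ⧸ I)) (w j0) * hm) (by
      have e : ∑ j, C (y0 j) * (m j0 * w j - w j0 * m j) =
          m j0 * (∑ j, C (y0 j) * w j) - w j0 * ∑ j, C (y0 j) * m j := by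
        rw [Finset.mul_sum, Finset.mul_sum, ← Finset.sum_sub_distrib]
        refine Finset.sum_congr rfl fun j _ => ?_
        ring
      rw [e, hwy, hmy, mul_zero, mul_zero, sub_zero]) (by
      apply Finset.card_lt_card
      rw [Finset.ssubset_iff_of_subset]
      · refine ⟨j0, Finset.mem_filter.mpr ⟨Finset.mem_univ _, hj0⟩, ?_⟩
        intro hmem
        exact (Finset.mem_filter.mp hmem).2 (by ring)
      · intro j hj
        rw [Finset.mem_filter] at hj ⊢
        refine ⟨Finset.mem_univ _, fun hz => hj.2 ?_⟩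
        rw [hz, hsup j hz, mul_zero, mul_zero, sub_zero])
    exact sub_eq_zero.mp (congrFun h1 j)
  have hdd : ∀ (r : Fin n → MvPolynomial (Fin n) K) j, m j = 0 → dd r m j = 0 := by
    intro r j hj
    rw [dd]
    refine Finset.sum_eq_zero fun i _ => ?_
    rw [hj, map_zero, mul_zero]
  have hddy : ∀ r : Fin n → MvPolynomial (Fin n) K, ∑ j, C (y0 j) * dd r m j = 0 := by
    intro r
    have e : ∑ j, C (y0 j) * dd r m j = ∑ i, r i * pderiv i (∑ j, C (y0 j) * m j) := by
      simp only [dd, map_sum, Finset.mul_sum]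
      rw [Finset.sum_comm]
      refine Finset.sum_congr rfl fun i _ => Finset.sum_congr rfl fun j _ => ?_
      rw [Derivation.leibniz, pderiv_C, smul_zero, add_zero, smul_eq_mul]
      ring
    rw [e, hmy]
    refine Finset.sum_eq_zero fun i _ => ?_
    rw [map_zero, mul_zero]
  exact ⟨m, j0, d, hj0, hmh, hm, key _ (dd_mem hS hs hs1 hm hm) (hddy m) (hdd m),
    key _ (dd_ell hs1 hm) (hddy _) (hdd _), hmy⟩

/-- the point of the hyperplane which kills `ell ^ J0 * mu ^ β` -/
noncomputable def Yf (χ : (MvPolynomial (Fin n) K ⧸ I) →ₗ[K] K) (m : Fin n → MvPolynomial (Fin n) K)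
    (J0 β κ : ℕ) (u0 : Fin n → K) (j : Fin n) : MvPolynomial (Fin n) K :=
  cmap χ (ell I ^ J0 * mu I m ^ β * C (Ideal.Quotient.mk I (X j * lin u0 ^ κ)))

lemma Yf_homog (χ : (MvPolynomial (Fin n) K ⧸ I) →ₗ[K] K) {m : Fin n → MvPolynomial (Fin n) K}
    {d : ℕ} (hm : ∀ j, (m j).IsHomogeneous d) (J0 β κ : ℕ) (u0 : Fin n → K) (j : Fin n) :
    (Yf χ m J0 β κ u0 j).IsHomogeneous (J0 + d * β) := by
  intro t ht
  rw [Yf, coeff_cmap] at ht
  have h1 : (ell I ^ J0 * mu I m ^ β * C (Ideal.Quotient.mk I (X j * lin u0 ^ κ)) :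
      MvPolynomial (Fin n) (MvPolynomial (Fin n) K ⧸ I)).IsHomogeneous (J0 + d * β) := by
    have h2 := (((ell_homog I).pow J0).mul ((mu_homog (I := I) hm).pow β)).mul
      (isHomogeneous_C (Fin n) (Ideal.Quotient.mk I (X j * lin u0 ^ κ)))
    rwa [one_mul, add_zero] at h2
  apply h1
  intro h0
  apply ht
  rw [h0, map_zero]

lemma Yf_pair {φ : MvPolynomial (Fin n) K →ₗ[K] K} {χ : (MvPolynomial (Fin n) K ⧸ I) →ₗ[K] K}
    (hχ : ∀ g, χ (Ideal.Quotient.mk I g) = φ g) (m : Fin n → MvPolynomial (Fin n) K)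
    (J0 β κ : ℕ) (u0 : Fin n → K) (q z : Fin n → K) :
    ∑ j, eval q (Yf χ m J0 β κ u0 j) * z j =
      φ (lin z * (lin q ^ J0 * lin (vl q m) ^ β) * lin u0 ^ κ) := by
  have h1 : ∀ j, eval q (Yf χ m J0 β κ u0 j) =
      φ (lin q ^ J0 * lin (vl q m) ^ β * (X j * lin u0 ^ κ)) := by
    intro j
    rw [Yf, eval_cmap, map_mul (ev q), map_mul (ev q), map_pow (ev q), map_pow (ev q), ev_ell,
      ev_mu, ev_C, ← map_pow (Ideal.Quotient.mk I), ← map_pow (Ideal.Quotient.mk I),
      ← map_mul (Ideal.Quotient.mk I), ← map_mul (Ideal.Quotient.mk I), hχ]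
  rw [lin_sum z, Finset.sum_mul, Finset.sum_mul, map_sum]
  refine Finset.sum_congr rfl fun j _ => ?_
  rw [h1, mul_comm, ← smul_eq_mul, ← map_smul]
  congr 1
  rw [smul_eq_C_mul, smul_eq_C_mul]
  ring

lemma Yf_zero [Infinite K] {φ : MvPolynomial (Fin n) K →ₗ[K] K}
    {χ : (MvPolynomial (Fin n) K ⧸ I) →ₗ[K] K} (hI : I = gor φ)
    (hχ : ∀ g, χ (Ideal.Quotient.mk I g) = φ g) (m : Fin n → MvPolynomial (Fin n) K)
    (J0 β κ : ℕ) (u0 : Fin n → K) {w : Fin n → MvPolynomial (Fin n) K}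
    (hw : ∀ q, lin (vl q w) * (lin q ^ J0 * lin (vl q m) ^ β) ∈ I) :
    ∑ j, Yf χ m J0 β κ u0 j * w j = 0 := by
  apply MvPolynomial.funext
  intro q
  rw [map_sum, map_zero]
  simp only [map_mul]
  have h1 := Yf_pair hχ m J0 β κ u0 q (vl q w)
  have h2 := hw q
  rw [hI] at h2
  rw [h2 (lin u0 ^ κ)] at h1
  exact h1

/-- the powers of a linear form outside the hyperplane -/
lemma pow_notMem {s : ℕ} (hS : Soc I s) {θ : MvPolynomial (Fin n) K} {D' : ℕ}
    (hθ : θ.IsHomogeneous D') (hθI : θ ∉ I) {y : Fin n → K}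
    (hy : ∀ u : Fin n → K, ∑ j, u j * y j = 0 → lin u * θ ∈ I) {u0 : Fin n → K}
    (hu0 : ∑ j, u0 j * y j = 1) : ∀ i, D' + i ≤ s → lin u0 ^ i * θ ∉ I := by
  intro i
  induction i with
  | zero => intro _; rwa [pow_zero, one_mul]
  | succ i ih =>
    intro hi hmem
    apply ih (by omega)
    have hh : (lin u0 ^ i * θ : MvPolynomial (Fin n) K).IsHomogeneous (D' + i) := by
      have h1 := ((lin_homog u0).pow i).mul hθ
      rw [one_mul, add_comm] at h1
      exact h1
    refine hS _ _ hh (by omega) fun j => ?_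
    have h1 := I.mul_mem_left (lin u0 ^ i) (hy _ (dualpt_sub hu0 j))
    rw [lin_sub', lin_smul', lin_single] at h1
    have h2 := I.mul_mem_left (C (y j)) hmem
    have h3 := I.add_mem h1 h2
    convert h3 using 1
    ring

lemma top_ne {φ : MvPolynomial (Fin n) K →ₗ[K] K} {σ : ℕ} (hφ : Deg φ σ)
    {w : MvPolynomial (Fin n) K} (hw : w.IsHomogeneous σ) (hwI : w ∉ gor φ) : φ w ≠ 0 := by
  intro h0
  apply hwI
  apply annP_of_homog hφ le_rfl hw
  intro v hv
  rw [Nat.sub_self] at hv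
  have h1 : v = C (coeff 0 v) := by
    rw [← totalDegree_eq_zero_iff_eq_C]
    exact Nat.le_zero.mp (IsHomogeneous.totalDegree_le hv)
  rw [h1, mul_comm, ← smul_eq_C_mul, map_smul, h0, smul_zero]

/-- **The point does not satisfy the first equations.** -/
theorem point_false [CharZero K] {σ : ℕ} (hS : Soc I σ) {φ : MvPolynomial (Fin n) K →ₗ[K] K}
    (hφ : Deg φ σ) (hI : I = gor φ) {χ : (MvPolynomial (Fin n) K ⧸ I) →ₗ[K] K}
    (hχ : ∀ g, χ (Ideal.Quotient.mk I g) = φ g) {r : ℕ} (hr : r + 1 + 1 = n)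
    {b : Fin r → MvPolynomial (Fin n) K} {e : Fin r → ℕ} (hb : ∀ i, (b i).IsHomogeneous (e i))
    (he : ∀ i, 1 ≤ e i) (hreg : Reg b) {m : Fin n → MvPolynomial (Fin n) K} {d : ℕ}
    (hmh : ∀ k, (m k).IsHomogeneous d) {J0 β κ : ℕ} (hκ : κ + 1 + (β + J0) = σ)
    (hbY : ∀ u0 i, aeval (Yf χ m J0 β κ u0) (b i) = 0)
    (hJ : ell I ^ (J0 + 1) * mu I m ^ β = 0) (hβ : mu I m ^ (β + 1) = 0)
    {q : Fin n → K} (hW : lin q ^ J0 * lin (vl q m) ^ β ∉ I) {y : Fin n → K} (hy0 : y ≠ 0)
    (hy : ∀ u : Fin n → K, ∑ j, u j * y j = 0 → lin u * (lin q ^ J0 * lin (vl q m) ^ β) ∈ I)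
    (hL : n ≤ finrank K (Submodule.span K (Set.range fun q' => vl q' m)) + 1) : False := by
  obtain ⟨u0, hu0⟩ := exists_dualpt hy0
  have hWh : (lin q ^ J0 * lin (vl q m) ^ β : MvPolynomial (Fin n) K).IsHomogeneous (β + J0) := by
    have h1 := ((lin_homog q).pow J0).mul ((lin_homog (vl q m)).pow β)
    rwa [one_mul, one_mul, Nat.add_comm J0 β] at h1
  have h1 := pow_notMem hS hWh hW hy hu0 (κ + 1) (by omega)
  have h2 : φ (lin u0 ^ (κ + 1) * (lin q ^ J0 * lin (vl q m) ^ β)) ≠ 0 := by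
    apply top_ne hφ
    · have h3 := ((lin_homog u0).pow (κ + 1)).mul hWh
      rwa [one_mul, hκ] at h3
    · rwa [← hI]
  obtain ⟨k0, hk0⟩ : ∃ k0, Yf χ m J0 β κ u0 k0 ≠ 0 := by
    by_contra hcon
    push Not at hcon
    apply h2
    have h3 := Yf_pair hχ m J0 β κ u0 q u0
    simp only [hcon, map_zero, zero_mul, Finset.sum_const_zero] at h3
    rw [h3]
    congr 1
    ring
  refine surface_false hr hb he hreg (hbY u0) (Yf_homog χ hmh J0 β κ u0) ?_ hk0 hmh ?_ ?_ hL
  · apply Yf_zero hI hχ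
    intro q'
    have h3 := (zero_iff (K := K) I).mp hJ q'
    rw [vl_X]
    convert h3 using 1
    rw [pow_succ]
    ring
  · apply Yf_zero hI hχ
    intro q'
    have h3 : lin (vl q' m) ^ (β + 1) ∈ I := by
      have h4 : ell I ^ 0 * mu I m ^ (β + 1) = 0 := by rw [hβ, mul_zero]
      have h5 := (zero_iff (K := K) I).mp h4 q'
      rwa [pow_zero, one_mul] at h5
    have h4 := I.mul_mem_left (lin q' ^ J0) h3
    convert h4 using 1
    rw [pow_succ]
    ring
  · intro l
    apply Yf_zero hI hχ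
    intro q'
    have h3 := ev_deriv' hβ q' (Pi.single l 1)
    have h4 : MM q' m (Pi.single l 1) = vl q' fun j => pderiv l (m j) := by
      ext j
      rw [MM_apply, Finset.sum_eq_single l]
      · rw [Pi.single_eq_same, one_mul]
        rfl
      · intro i _ hi
        rw [Pi.single_eq_of_ne hi, zero_mul]
      · intro h; exact absurd (Finset.mem_univ l) h
    rw [h4] at h3
    have h5 := I.mul_mem_left (lin q' ^ J0) h3
    convert h5 using 1
    ring

end Pool.Agent.Q8.GF
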