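import Pool.Agent.Q8.GD.Main3
import Pool.Agent.Q8.GD.Fin3
import Pool.Agent.Q8.GF.PosF

/-!
Maximal rank of the maps from degree at most one, with the weaker condition for `k = n - 1` and
no condition for `k = 1` in five variables.
-/

open MvPolynomial
open Pool.Agent.W515.SLP (AnnP Deg annP_zero annP_of_gt annP_of_homog lin act phi act_eq_zero_iff
  deg_phi coeff_lin_pow phi_apply phi_mul_monomial)
open H503R3.QCI (Homog NZD Reg isSocleDegree_ci gr mem_gr)
open TH130CI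
open Pool.Agent.Y204.LF (extend_reg prime_of_gr reg_prefix em sum_em bound_sorted reg_lin lin_eq
  openC_nzd exists_lin_of_reg)

namespace Pool.Agent.Q8.GF

open Module
open Pool.Agent.Q8.GC
open Pool.Agent.Q8.GD

variable {K : Type*} [Field K]

/-- a point at which also the top power does not vanish -/
theorem point9 [CharZero K] {N : ℕ} {a : Fin (N + 1) → MvPolynomial (Fin (N + 1)) K}
    {e : Fin (N + 1) → ℕ} (ha : ∀ i, (a i).IsHomogeneous (e i)) (he : ∀ i, 2 ≤ e i)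
    (hreg : Reg a) (hmono : Monotone e) {D : ℕ} (hD1 : 1 ≤ D) (hD : ∀ i : Fin N, e i.castSucc ≤ D)
    (hpow : ∀ k, 1 ≤ k → k + 2 ≤ N → k * (D - 1) ≤ ∑ i ∈ Finset.range (k + 1), em e i ∨
      finrank K (Submodule.span K {z : Fin (N + 1) → K |
        (lin z : MvPolynomial (Fin (N + 1)) K) ^ (k * (D - 1)) ∈ Ideal.span (Set.range a)}) ≤ k + 1 ∨
      (k + 2 = N ∧ (k + 1) * em e k + em e 1 ≤ ∑ i, (e i - 1)) ∨
      (N = 4 ∧ ∀ i : Fin (N + 1), (i : ℕ) = 3 → D ≤ e i)) :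
    ∃ q : Fin (N + 1) → K, lin q ^ (∑ i, (e i - 1)) ∉ Ideal.span (Set.range a) ∧
      ∀ z : Fin (N + 1) → K,
        lin q ^ (∑ i, (e i - 1) - 2) * lin z ∈ Ideal.span (Set.range a) → z = 0 := by
  classical
  have he1 : ∀ i, 1 ≤ e i := fun i => (by omega : 1 ≤ 2).trans (he i)
  have hS : Soc (Ideal.span (Set.range a)) (∑ i, (e i - 1)) := fun j w hw hj hXw =>
    socle_ci _ a e ha he1 (sreg_of_reg ha he1 hreg) rfl j w hw hj hXw
  have h1 := ell_pow_ne hS (one_notMem ha he1 hreg) _ le_rfl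
  obtain ⟨ψ, hψ⟩ := exists_cmap_ne (K := K) h1
  obtain ⟨q, hq1, hq2⟩ := core9 ha he hreg hmono hD1 hD hpow hψ
  refine ⟨q, ?_, hq2⟩
  intro hmem
  apply hq1
  rw [eval_cmap, map_pow, ev_ell, ← map_pow, Ideal.Quotient.eq_zero_iff_mem.mpr hmem, map_zero]

/-- **Maximal rank of the maps from degree at most one and to degree at least `σ - 1`.** -/
theorem maps9 [CharZero K] {N : ℕ} {a : Fin (N + 1) → MvPolynomial (Fin (N + 1)) K}
    {e : Fin (N + 1) → ℕ} (ha : ∀ i, (a i).IsHomogeneous (e i)) (he : ∀ i, 2 ≤ e i)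
    (hreg : Reg a) (hmono : Monotone e) {D : ℕ} (hD1 : 1 ≤ D) (hD : ∀ i : Fin N, e i.castSucc ≤ D)
    (hpow : ∀ k, 1 ≤ k → k + 2 ≤ N → k * (D - 1) ≤ ∑ i ∈ Finset.range (k + 1), em e i ∨
      finrank K (Submodule.span K {z : Fin (N + 1) → K |
        (lin z : MvPolynomial (Fin (N + 1)) K) ^ (k * (D - 1)) ∈ Ideal.span (Set.range a)}) ≤ k + 1 ∨
      (k + 2 = N ∧ (k + 1) * em e k + em e 1 ≤ ∑ i, (e i - 1)) ∨
      (N = 4 ∧ ∀ i : Fin (N + 1), (i : ℕ) = 3 → D ≤ e i)) :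
    ∃ ℓ : MvPolynomial (Fin (N + 1)) K, ℓ.IsHomogeneous 1 ∧ ∀ i k : ℕ,
      (i ≤ 1 ∨ ∑ j, (e j - 1) ≤ i + k + 1) →
        (∀ g ∈ homogeneousSubmodule (Fin (N + 1)) K i,
          ℓ ^ k * g ∈ Ideal.span (Set.range a) → g ∈ Ideal.span (Set.range a)) ∨
        (∀ h ∈ homogeneousSubmodule (Fin (N + 1)) K (i + k),
          ∃ g ∈ homogeneousSubmodule (Fin (N + 1)) K i,
            h - ℓ ^ k * g ∈ Ideal.span (Set.range a)) := by
  obtain ⟨q, hq1, hq2⟩ := point9 ha he hreg hmono hD1 hD hpow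
  obtain ⟨φ, hφ, hI⟩ := ci_gor ha (fun i => (by omega : 1 ≤ 2).trans (he i)) hreg
  exact ⟨_, lin_homog q, fun i k hik => maps hφ hI hq1 hq2 i k hik⟩

theorem main9 [CharZero K] {n : ℕ} {a : Fin (n + 2) → MvPolynomial (Fin (n + 2)) K}
    {d : Fin (n + 2) → ℕ} (ha : ∀ i, (a i).IsHomogeneous (d i)) (hd : ∀ i, 2 ≤ d i)
    (hreg : Reg a) (hmono : Monotone d)
    (h : ∀ k (_ : 1 ≤ k) (_ : k + 1 ≤ n),
      k * (d (Fin.last n).castSucc - 1) ≤
        ∑ i ∈ Finset.univ.filter (fun i : Fin (n + 2) => (i : ℕ) ≤ k), (d i - 1) ∨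
      finrank K (Submodule.span K {z : Fin (n + 2) → K |
        (∑ j, z j • X j : MvPolynomial (Fin (n + 2)) K) ^ (k * (d (Fin.last n).castSucc - 1)) ∈
          Ideal.span (Set.range a)}) ≤ k + 1 ∨
      (k + 1 = n ∧ n * (d ⟨k, by omega⟩ - 1) + (d 1 - 1) ≤ ∑ j, (d j - 1)) ∨ n ≤ 3) :
    ∃ ℓ : MvPolynomial (Fin (n + 2)) K, ℓ.IsHomogeneous 1 ∧ ∀ i k : ℕ,
      (i ≤ 1 ∨ ∑ j, (d j - 1) ≤ i + k + 1) →
        (∀ g ∈ homogeneousSubmodule (Fin (n + 2)) K i,
          ℓ ^ k * g ∈ Ideal.span (Set.range a) → g ∈ Ideal.span (Set.range a)) ∨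
        (∀ h ∈ homogeneousSubmodule (Fin (n + 2)) K (i + k),
          ∃ g ∈ homogeneousSubmodule (Fin (n + 2)) K i,
            h - ℓ ^ k * g ∈ Ideal.span (Set.range a)) := by
  refine maps9 ha hd hreg hmono (D := d (Fin.last n).castSucc)
    ((by omega : 1 ≤ 2).trans (hd _)) (fun i => hmono ?_) (fun k hk1 hk2 => ?_)
  · exact Fin.castSucc_le_castSucc_iff.mpr (Fin.le_last i)
  · rcases h k hk1 (by omega) with h3 | h3 | ⟨hkn, h4⟩ | hn
    · left
      rwa [sum_em_eq d k (by omega)] at h3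
    · right
      left
      have e : {z : Fin (n + 2) → K | (lin z : MvPolynomial (Fin (n + 2)) K) ^
          (k * (d (Fin.last n).castSucc - 1)) ∈ Ideal.span (Set.range a)} =
          {z : Fin (n + 2) → K | (∑ j, z j • X j : MvPolynomial (Fin (n + 2)) K) ^
            (k * (d (Fin.last n).castSucc - 1)) ∈ Ideal.span (Set.range a)} := by
        ext z
        rw [Set.mem_ofPred_eq, Set.mem_ofPred_eq, lin_sum]
      rw [e]
      exact h3
    · right
      right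
      left
      have hem : Pool.Agent.Y204.LF.em d 1 = d 1 - 1 := by
        rw [Pool.Agent.Y204.LF.em, dif_pos (by omega)]
        rfl
      have hem2 : Pool.Agent.Y204.LF.em d k = d ⟨k, by omega⟩ - 1 := by
        rw [Pool.Agent.Y204.LF.em, dif_pos (by omega)]
      refine ⟨by omega, ?_⟩
      rw [hem, hem2, hkn]
      exact h4
    · obtain hn3 | hn2 : n = 3 ∨ n = 2 := by omega
      · right
        right
        right
        refine ⟨by omega, fun i hi => hmono ?_⟩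
        subst hn3
        rw [Fin.le_def, hi]
        rfl
      · right
        right
        left
        obtain rfl : k = 1 := by omega
        subst hn2
        refine ⟨rfl, ?_⟩
        have e1 : Pool.Agent.Y204.LF.em d 1 = d 1 - 1 := rfl
        have h12 : d 1 ≤ d 2 := hmono (by decide)
        have h23 : d 2 ≤ d 3 := hmono (by decide)
        rw [e1, Fin.sum_univ_four]
        omega

/-- five variables -/
theorem point5d [CharZero K] {a : Fin 5 → MvPolynomial (Fin 5) K}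
    {d : Fin 5 → ℕ} (ha : ∀ i, (a i).IsHomogeneous (d i)) (hd : ∀ i, 2 ≤ d i)
    (hreg : Reg a) (hmono : Monotone d) :
    ∃ q : Fin 5 → K, lin q ^ (∑ i, (d i - 1)) ∉ Ideal.span (Set.range a) ∧
      ∀ z : Fin 5 → K,
        lin q ^ (∑ i, (d i - 1) - 2) * lin z ∈ Ideal.span (Set.range a) → z = 0 := by
  refine point9 (N := 4) ha hd hreg hmono (D := d 3) ((by omega : 1 ≤ 2).trans (hd _))
    (fun i => hmono ?_) (fun k hk1 hk2 => Or.inr (Or.inr (Or.inr ⟨rfl, fun i hi => hmono ?_⟩)))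
  · exact Fin.castSucc_le_castSucc_iff.mpr (Fin.le_last (n := 3) i)
  · rw [Fin.le_def, hi]
    rfl

end Pool.Agent.Q8.GF
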