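import Mathlib

/-!
Algebraically dependent polynomials have dependent gradients.
-/

open MvPolynomial

namespace Pool.Agent.Q8.GF

variable {K : Type*} [Field K] {k n : ℕ}

lemma pderiv_aeval' (f : Fin k → MvPolynomial (Fin n) K) (G : MvPolynomial (Fin k) K) (j : Fin n) :
    pderiv j (aeval f G) = ∑ i, aeval f (pderiv i G) * pderiv j (f i) := by
  classical
  induction G using MvPolynomial.induction_on with
  | C a =>
    rw [aeval_C]
    have : (algebraMap K (MvPolynomial (Fin n) K)) a = C a := rfl
    rw [this, pderiv_C]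
    simp
  | add p q hp hq =>
    rw [map_add, map_add, hp, hq, ← Finset.sum_add_distrib]
    refine Finset.sum_congr rfl fun i _ => ?_
    rw [map_add, map_add, add_mul]
  | mul_X p i hp =>
    rw [map_mul, aeval_X, Derivation.leibniz, hp]
    simp only [smul_eq_mul]
    have : ∀ l, aeval f (pderiv l (p * X i)) * pderiv j (f l) =
        aeval f p * (if l = i then pderiv j (f l) else 0) +
          f i * (aeval f (pderiv l p) * pderiv j (f l)) := by
      intro l
      rw [Derivation.leibniz]
      by_cases h : l = i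
      · subst h
        rw [pderiv_X_self, if_pos rfl, map_add, smul_eq_mul, smul_eq_mul, map_mul, map_mul, aeval_X,
          map_one]
        ring
      · rw [pderiv_X_of_ne (Ne.symm h), if_neg h, smul_zero, zero_add, smul_eq_mul, map_mul, aeval_X]
        ring
    rw [Finset.sum_congr rfl fun l _ => this l, Finset.sum_add_distrib, ← Finset.mul_sum,
      ← Finset.mul_sum, Finset.sum_ite_eq' Finset.univ i, if_pos (Finset.mem_univ i)]

theorem dep_grad [CharZero K] {f : Fin k → MvPolynomial (Fin n) K}
    (h : ∃ d, ∃ G : MvPolynomial (Fin k) K, G.IsHomogeneous d ∧ G ≠ 0 ∧ aeval f G = 0) :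
    ∃ c : Fin k → MvPolynomial (Fin n) K, c ≠ 0 ∧ ∀ j, ∑ i, c i * pderiv j (f i) = 0 := by
  classical
  obtain ⟨G, hG, hG0, hGf⟩ := Nat.find_spec h
  have hmin := fun m (hm : m < Nat.find h) => Nat.find_min h hm
  set d := Nat.find h with hd
  have hd0 : d ≠ 0 := by
    intro h0
    rw [h0] at hG
    have h1 : G = C (coeff 0 G) := totalDegree_eq_zero_iff_eq_C.mp (Nat.le_zero.mp hG.totalDegree_le)
    rw [h1, aeval_C] at hGf
    apply hG0
    rw [h1]
    have h2 : (algebraMap K (MvPolynomial (Fin n) K)) (coeff 0 G) = C (coeff 0 G) := rfl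
    rw [h2, C_eq_zero] at hGf
    rw [hGf, map_zero]
  refine ⟨fun i => aeval f (pderiv i G), ?_, ?_⟩
  · intro hc
    have h1 : ∀ i, pderiv i G = 0 := by
      intro i
      by_contra hne
      exact hmin (d - 1) (by omega) ⟨_, hG.pderiv, hne, congrFun hc i⟩
    have h2 := hG.sum_X_mul_pderiv
    simp only [h1, mul_zero, Finset.sum_const_zero] at h2
    rcases smul_eq_zero.mp h2.symm with h3 | h3
    · exact hd0 h3
    · exact hG0 h3
  · intro j
    have h1 := pderiv_aeval' f G j
    rw [hGf, map_zero] at h1
    exact h1.symm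

end Pool.Agent.Q8.GF
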