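import Pool.Agent.Q8.GF.CurE
import Pool.Agent.Q8.GF.GrB

/-!
The growth of the quotient by a regular sequence of forms, and algebraic relations.
-/

open MvPolynomial
open Pool.Agent.W515.SLP (AnnP Deg annP_zero annP_of_gt annP_of_homog lin)
open H503R3.QCI (Homog NZD Reg comp_mul comp_mul_of_lt homog_span isSocleDegree_ci)
open TH130CI
open Pool.Agent.Y204.LF (reg_prefix exists_lin_of_reg)

namespace Pool.Agent.Q8.GF

open Module
open Pool.Agent.Q8.GC
open Pool.Agent.Q8.GD

variable {K : Type*} [Field K] {n : ℕ}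

lemma AA_sum {J : Ideal (MvPolynomial (Fin n) K)} (hJ : Homog J) {ℓ : MvPolynomial (Fin n) K}
    (hℓ : ℓ.IsHomogeneous 1) (hn : NZD J ℓ)
    (h0 : finrank K (AA (J ⊔ Ideal.span {ℓ}) 0) = finrank K (AA J 0)) (d : ℕ) :
    finrank K (AA J d) = ∑ i ∈ Finset.range (d + 1), finrank K (AA (J ⊔ Ideal.span {ℓ}) i) := by
  induction d with
  | zero => rw [zero_add, Finset.sum_range_one, h0]
  | succ d ih => rw [Finset.sum_range_succ, ← ih, ← AA_succ hJ hℓ hn d, Nat.add_comm]

theorem growth [Infinite K] (k : ℕ) : ∀ {r : ℕ}, r + k = n →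
    ∀ {a : Fin r → MvPolynomial (Fin n) K} {e : Fin r → ℕ}, (∀ i, (a i).IsHomogeneous (e i)) →
      (∀ i, 1 ≤ e i) → Reg a →
      ∃ c : ℕ, ∀ d, ∑ i ∈ Finset.range (d + 1), finrank K (AA (Ideal.span (Set.range a)) i) ≤
        c * (d + 1) ^ k := by
  induction k with
  | zero =>
    intro r hr a e ha he hreg
    obtain rfl : r = n := by omega
    obtain ⟨φ, hφ, hJφ⟩ := ci_gor ha he hreg
    refine ⟨∑ i ∈ Finset.range (∑ i, (e i - 1) + 1),
      finrank K (AA (Ideal.span (Set.range a)) i), fun d => ?_⟩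
    rw [pow_zero, mul_one]
    have hz : ∀ i, ∑ i, (e i - 1) < i → finrank K (AA (Ideal.span (Set.range a)) i) = 0 := by
      intro i hi
      have h1 : AA (Ideal.span (Set.range a)) i = ⊥ := by
        rw [eq_bot_iff]
        intro x hx
        obtain ⟨g, hg, rfl⟩ := mem_AA.mp hx
        rw [Submodule.mem_bot, Ideal.Quotient.eq_zero_iff_mem, hJφ]
        exact annP_of_gt hφ hi hg
      rw [h1, finrank_bot]
    rcases Nat.lt_or_ge (∑ i, (e i - 1)) (d + 1) with h | h
    · apply le_of_eq
      symm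
      apply Finset.sum_subset
      · intro i hi
        rw [Finset.mem_range] at hi ⊢
        omega
      · intro i _ hi
        rw [Finset.mem_range, not_lt] at hi
        exact hz i (by omega)
    · apply Finset.sum_le_sum_of_subset
      intro i hi
      rw [Finset.mem_range] at hi ⊢
      omega
  | succ k ih =>
    intro r hr a e ha he hreg
    obtain ⟨x, hx⟩ := exists_lin_of_reg (by omega : r < n) ha he hreg
    have hreg' : Reg (Fin.snoc a (lin x) : Fin (r + 1) → MvPolynomial (Fin n) K) :=
      reg_snoc hreg hx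
    obtain ⟨c, hc⟩ := ih (r := r + 1) (by omega)
      (a := (Fin.snoc a (lin x) : Fin (r + 1) → MvPolynomial (Fin n) K))
      (e := (Fin.snoc e 1 : Fin (r + 1) → ℕ)) (by
        intro i
        refine Fin.lastCases ?_ (fun j => ?_) i
        · rw [Fin.snoc_last, Fin.snoc_last]
          exact lin_homog x
        · rw [Fin.snoc_castSucc, Fin.snoc_castSucc]
          exact ha _) (by
        intro i
        refine Fin.lastCases ?_ (fun j => ?_) i
        · rw [Fin.snoc_last]
        · rw [Fin.snoc_castSucc]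
          exact he _) hreg'
    rw [range_snoc_sup] at hc
    have hH : Homog (Ideal.span (Set.range a)) := homog_span (by rintro _ ⟨i, rfl⟩; exact ⟨_, ha i⟩)
    refine ⟨c, fun d => ?_⟩
    have h1 : ∀ i ∈ Finset.range (d + 1), finrank K (AA (Ideal.span (Set.range a)) i) ≤
        c * (d + 1) ^ k := by
      intro i hi
      rw [Finset.mem_range] at hi
      rw [AA_sum hH (lin_homog x) hx (AA_zero hH (lin_homog x)) i]
      refine (hc i).trans ?_
      apply Nat.mul_le_mul_left
      exact Nat.pow_le_pow_left (by omega) k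
    refine (Finset.sum_le_card_nsmul _ _ _ h1).trans ?_
    rw [Finset.card_range, smul_eq_mul, pow_succ]
    apply le_of_eq
    ring

theorem growth' [Infinite K] {k r : ℕ} (hr : r + 1 + k = n)
    {a : Fin r → MvPolynomial (Fin n) K} {e : Fin r → ℕ} (ha : ∀ i, (a i).IsHomogeneous (e i))
    (he : ∀ i, 1 ≤ e i) (hreg : Reg a) :
    ∃ c : ℕ, ∀ d, finrank K (AA (Ideal.span (Set.range a)) d) ≤ c * (d + 1) ^ k := by
  obtain ⟨x, hx⟩ := exists_lin_of_reg (by omega : r < n) ha he hreg
  have hreg' : Reg (Fin.snoc a (lin x) : Fin (r + 1) → MvPolynomial (Fin n) K) :=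
    reg_snoc hreg hx
  obtain ⟨c, hc⟩ := growth k (r := r + 1) (by omega)
    (a := (Fin.snoc a (lin x) : Fin (r + 1) → MvPolynomial (Fin n) K))
    (e := (Fin.snoc e 1 : Fin (r + 1) → ℕ)) (by
      intro i
      refine Fin.lastCases ?_ (fun j => ?_) i
      · rw [Fin.snoc_last, Fin.snoc_last]
        exact lin_homog x
      · rw [Fin.snoc_castSucc, Fin.snoc_castSucc]
        exact ha _) (by
      intro i
      refine Fin.lastCases ?_ (fun j => ?_) i
      · rw [Fin.snoc_last]
      · rw [Fin.snoc_castSucc]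
        exact he _) hreg'
  rw [range_snoc_sup] at hc
  have hH : Homog (Ideal.span (Set.range a)) := homog_span (by rintro _ ⟨i, rfl⟩; exact ⟨_, ha i⟩)
  refine ⟨c, fun d => ?_⟩
  rw [AA_sum hH (lin_homog x) hx (AA_zero hH (lin_homog x)) d]
  exact hc d

/-- **Linear forms in number larger than the dimension are algebraically dependent.** -/
theorem exists_rel [Infinite K] {k r : ℕ} (hr : r + 1 + k = n)
    {a : Fin r → MvPolynomial (Fin n) K} {e : Fin r → ℕ} (ha : ∀ i, (a i).IsHomogeneous (e i))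
    (he : ∀ i, 1 ≤ e i) (hreg : Reg a) (l : Fin (k + 1 + 1) → Fin n → K) :
    ∃ d, ∃ G : MvPolynomial (Fin (k + 1 + 1)) K, G.IsHomogeneous d ∧ G ≠ 0 ∧
      aeval (fun i => (lin (l i) : MvPolynomial (Fin n) K)) G ∈ Ideal.span (Set.range a) := by
  classical
  obtain ⟨c, hc⟩ := growth' hr ha he hreg
  set J := Ideal.span (Set.range a) with hJ
  set m := c * (k + 1) ^ k with hm
  set d := (k + 1) * m with hd
  -- the exponents
  let ex : (Fin (k + 1) → Fin (m + 1)) → (Fin (k + 1 + 1) →₀ ℕ) := fun t =>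
    Finsupp.equivFunOnFinite.symm (Fin.snoc (fun i => (t i : ℕ)) (d - ∑ i, (t i : ℕ)))
  have hexc : ∀ t i, ex t (Fin.castSucc i) = (t i : ℕ) := by
    intro t i
    simp only [ex, Finsupp.equivFunOnFinite_symm_apply_apply, Fin.snoc_castSucc]
  have hexl : ∀ t, ex t (Fin.last (k + 1)) = d - ∑ i, (t i : ℕ) := by
    intro t
    simp only [ex, Finsupp.equivFunOnFinite_symm_apply_apply, Fin.snoc_last]
  have hle : ∀ t : Fin (k + 1) → Fin (m + 1), ∑ i, (t i : ℕ) ≤ d := by
    intro t
    calc ∑ i, (t i : ℕ) ≤ ∑ _i : Fin (k + 1), m := Finset.sum_le_sum fun i _ => by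
          have := (t i).2
          omega
      _ = d := by rw [Finset.sum_const, Finset.card_univ, Fintype.card_fin, smul_eq_mul]
  have hdeg : ∀ t, (ex t).degree = d := by
    intro t
    rw [Finsupp.degree_eq_sum, Fin.sum_univ_castSucc, hexl]
    simp only [hexc]
    have := hle t
    omega
  have hinj : Function.Injective ex := by
    intro t t' h
    funext i
    apply Fin.ext
    rw [← hexc t i, ← hexc t' i, h]
  have hhom : ∀ t, (monomial (ex t) (1 : K)).IsHomogeneous d := fun t =>
    isHomogeneous_monomial _ (hdeg t)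
  have hahom : ∀ G : MvPolynomial (Fin (k + 1 + 1)) K, G.IsHomogeneous d →
      (aeval (fun i => (lin (l i) : MvPolynomial (Fin n) K)) G).IsHomogeneous d := by
    intro G hG
    have := hG.aeval (fun i => (lin (l i) : MvPolynomial (Fin n) K)) (n := 1)
      (fun i => lin_homog _)
    rwa [one_mul] at this
  let v : (Fin (k + 1) → Fin (m + 1)) → AA J d := fun t =>
    ⟨Ideal.Quotient.mk J (aeval (fun i => (lin (l i) : MvPolynomial (Fin n) K))
      (monomial (ex t) (1 : K))), mem_AA.mpr ⟨_, hahom _ (hhom t), rfl⟩⟩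
  have hnot : ¬ LinearIndependent K v := by
    intro hli
    have h1 := hli.fintype_card_le_finrank
    have h2 := hc d
    rw [Fintype.card_fun, Fintype.card_fin, Fintype.card_fin] at h1
    have h3 : d + 1 ≤ (k + 1) * (m + 1) := by
      rw [hd, mul_add]
      omega
    have h4 : c * (d + 1) ^ k ≤ m * (m + 1) ^ k := by
      calc c * (d + 1) ^ k ≤ c * ((k + 1) * (m + 1)) ^ k :=
            Nat.mul_le_mul_left _ (Nat.pow_le_pow_left h3 k)
        _ = m * (m + 1) ^ k := by rw [mul_pow, hm]; ring
    have h5 : m * (m + 1) ^ k < (m + 1) ^ (k + 1) := by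
      rw [pow_succ, mul_comm]
      exact Nat.mul_lt_mul_of_pos_left (Nat.lt_succ_self m) (by positivity)
    omega
  obtain ⟨g, hsum, t0, ht0⟩ := Fintype.not_linearIndependent_iff.mp hnot
  refine ⟨d, ∑ t, g t • monomial (ex t) (1 : K), ?_, ?_, ?_⟩
  · apply IsHomogeneous.sum
    intro t _
    rw [smul_eq_C_mul]
    have := (isHomogeneous_C (Fin (k + 1 + 1)) (g t)).mul (hhom t)
    rwa [zero_add] at this
  · intro h0
    have h1 := congrArg (coeff (ex t0)) h0
    rw [coeff_sum, coeff_zero, Finset.sum_eq_single t0] at h1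
    · rw [coeff_smul, coeff_monomial, if_pos rfl, smul_eq_mul, mul_one] at h1
      exact ht0 h1
    · intro t _ ht
      rw [coeff_smul, coeff_monomial, if_neg (fun h => ht (hinj h)), smul_zero]
    · intro h
      exact absurd (Finset.mem_univ _) h
  · rw [← Ideal.Quotient.eq_zero_iff_mem, map_sum, map_sum]
    have h1 := congrArg Subtype.val hsum
    rw [Submodule.coe_sum, Submodule.coe_zero] at h1
    rw [← h1]
    refine Finset.sum_congr rfl fun t _ => ?_
    rw [map_smul]
    have h2 : ((g t • v t : AA J d) : MvPolynomial (Fin n) K ⧸ J) =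
        g t • (Ideal.Quotient.mk J (aeval (fun i => (lin (l i) : MvPolynomial (Fin n) K))
          (monomial (ex t) (1 : K)))) := rfl
    rw [h2]
    rfl

end Pool.Agent.Q8.GF
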