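import Pool.Agent.Q8.GF.NegB
import Pool.Agent.Q8.GD.Main3
import Pool.Agent.Q8.GE.All

/-!
**Gordan-Noether for complete intersections**, without a condition in four variables.
-/

open MvPolynomial
open Pool.Agent.W515.SLP (AnnP Deg annP_zero annP_of_gt annP_of_homog lin)
open H503R3.QCI (Homog NZD Reg isSocleDegree_ci gr mem_gr)
open TH130CI
open Pool.Agent.Y204.LF (OpenC extend_reg prime_of_gr reg_prefix em sum_em bound_sorted reg_lin lin_eq
  openC_nzd exists_lin_of_reg)

namespace Pool.Agent.Q8.GF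

open Module
open Pool.Agent.Q8.GC
open Pool.Agent.Q8.GD

variable {K : Type*} [Field K]

/-- the statement at a general point, as a purely algebraic contradiction -/
theorem contra5 [CharZero K] {N : ℕ} {a : Fin (N + 1) → MvPolynomial (Fin (N + 1)) K}
    {e : Fin (N + 1) → ℕ} (ha : ∀ i, (a i).IsHomogeneous (e i)) (he : ∀ i, 2 ≤ e i)
    (hreg : Reg a) (hmono : Monotone e) {D : ℕ} (hD1 : 1 ≤ D) (hD : ∀ i : Fin N, e i.castSucc ≤ D)
    (hlin : ∀ z : Fin (N + 1) → K,
      (lin z : MvPolynomial (Fin (N + 1)) K) ∈ Ideal.span (Set.range a) → z = 0)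
    (hpow : N ≤ 3 ∨ ∀ k, 1 ≤ k → k + 2 ≤ N → k * (D - 1) ≤ ∑ i ∈ Finset.range (k + 1), em e i ∨
      finrank K (Submodule.span K {z : Fin (N + 1) → K |
        (lin z : MvPolynomial (Fin (N + 1)) K) ^ (k * (D - 1)) ∈ Ideal.span (Set.range a)}) ≤ k + 1)
    {s : ℕ} (hs : 1 ≤ s) (hσ : ∑ i, (e i - 1) = s + 2)
    {m : Fin (N + 1) → MvPolynomial (Fin (N + 1)) K} {j0 : Fin (N + 1)}
    (hm : ell (Ideal.span (Set.range a)) ^ s * mu (Ideal.span (Set.range a)) m = 0)
    (hmm : ∀ j, m j0 * dd m m j = dd m m j0 * m j)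
    (hmX : ∀ j, m j0 * dd (fun j => X j) m j = dd (fun j => X j) m j0 * m j)
    {q : Fin (N + 1) → K} (hqJ : NZD (Ideal.span (Set.range fun i : Fin N => a i.castSucc)) (lin q))
    (hqj : eval q (m j0) ≠ 0) {q0 : Fin (N + 1) → K}
    (hqz : lin q ^ (s + 1) * lin (vl q0 m) ∉ Ideal.span (Set.range a))
    (hq : ∀ x y, x ≤ s + 2 → y ≤ s + 2 → (lin q ^ x * lin (vl q m) ^ y ∈ Ideal.span (Set.range a) ↔
      ell (Ideal.span (Set.range a)) ^ x * mu (Ideal.span (Set.range a)) m ^ y = 0)) : False := by
  classical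
  have he1 : ∀ i, 1 ≤ e i := fun i => (by omega : 1 ≤ 2).trans (he i)
  set I := Ideal.span (Set.range a) with hIdef
  have hS : Soc I (s + 2) := by
    intro j w hw hj hXw
    rw [← hσ] at hj
    exact socle_ci _ a e ha he1 (sreg_of_reg ha he1 hreg) rfl j w hw hj hXw
  have hI1 : (1 : MvPolynomial (Fin (N + 1)) K) ∉ I := by
    intro h1
    obtain ⟨⟨h0, -, hh0I⟩, -⟩ := isSocleDegree_ci a e ha he1 hreg
    apply hh0I
    have := I.mul_mem_left h0 h1
    rwa [mul_one] at this
  set p := vl q m with hp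
  set M := MM q m with hM
  set Z : ℕ → ℕ → Prop := fun D b => lin q ^ (D - b) * lin p ^ b ∈ I with hZ
  have hZg : ∀ D b, D ≤ s + 2 → b ≤ s + 2 →
      (Z D b ↔ ell I ^ (D - b) * mu I m ^ b = 0) := fun D b h1 h2 => hq _ _ (by omega) h2
  have hp0 : p ≠ 0 := by
    intro h0
    apply hqj
    exact congrFun h0 j0
  have hMp : M p ∈ Submodule.span K {p} := MM_mem hqj hmm
  have hMq : M q ∈ Submodule.span K {p} := by
    have h1 := MM_mem hqj hmX
    rwa [vl_X] at h1
  -- the top powers of `q`
  have hell : ∀ k, k ≤ s + 2 → lin q ^ k ∉ I := by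
    intro k hk h1
    have h2 := (hq k 0 hk (by omega)).mp (by rwa [pow_zero, mul_one])
    rw [pow_zero, mul_one] at h2
    exact ell_pow_ne hS hI1 k hk h2
  have hZ0 : ∀ D, D + 1 ≤ s + 2 → ¬ Z D 0 := by
    intro D hD h1
    apply hell D (by omega)
    have h2 : lin q ^ (D - 0) * lin p ^ 0 ∈ I := h1
    rwa [pow_zero, mul_one, Nat.sub_zero] at h2
  have hZ1 : ∀ b, 1 ≤ b → b + 1 ≤ s + 2 → Z (s + 2 - 1) b := by
    intro b hb1 hb2
    rw [hZg _ _ (by omega) (by omega)]
    have h1 := gn hS le_rfl hm (b - 1) (by omega)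
    rwa [show s - (b - 1) = s + 2 - 1 - b by omega, Nat.sub_add_cancel hb1] at h1
  have hqp : q ∉ Submodule.span K {p} := by
    intro h1
    apply hell (s + 1) (by omega)
    have h2 : p ∈ Tk I (lin q ^ s) := by
      have h3 := hZ1 1 le_rfl (by omega)
      have h4 : lin q ^ (s + 2 - 1 - 1) * lin p ^ 1 ∈ I := h3
      rwa [pow_one, show s + 2 - 1 - 1 = s by omega] at h4
    have h3 := lin_mem_of_span h1 h2
    rw [mem_Tk] at h3
    rwa [pow_succ]
  -- the nilpotency index
  have hex : ∃ b, lin p ^ (b + 1) ∈ I := by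
    refine ⟨s, ?_⟩
    have h3 := hZ1 (s + 1) (by omega) (by omega)
    have h4 : lin q ^ (s + 2 - 1 - (s + 1)) * lin p ^ (s + 1) ∈ I := h3
    rwa [show s + 2 - 1 - (s + 1) = 0 by omega, pow_zero, one_mul] at h4
  obtain ⟨β, hβ1, hβmin⟩ : ∃ β, lin p ^ (β + 1) ∈ I ∧ ∀ b < β, lin p ^ (b + 1) ∉ I :=
    ⟨Nat.find hex, Nat.find_spec hex, fun b hb => Nat.find_min hex hb⟩
  have hβσ : β ≤ s := by
    by_contra hcon
    refine hβmin s (by omega) ?_
    have h3 := hZ1 (s + 1) (by omega) (by omega)
    have h4 : lin q ^ (s + 2 - 1 - (s + 1)) * lin p ^ (s + 1) ∈ I := h3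
    rwa [show s + 2 - 1 - (s + 1) = 0 by omega, pow_zero, one_mul] at h4
  have hβ0 : lin p ^ β ∉ I := by
    rcases Nat.eq_zero_or_pos β with h | h
    · rw [h, pow_zero]; exact hI1
    · have := hβmin (β - 1) (by omega)
      rwa [Nat.sub_add_cancel h] at this
  have hZβ : ¬ Z β β := by
    intro h1
    have h2 : lin q ^ (β - β) * lin p ^ β ∈ I := h1
    rw [Nat.sub_self, pow_zero, one_mul] at h2
    exact hβ0 h2
  have hZβ' : ∀ D, β < D → D + 1 ≤ s + 2 → Z D D := by
    intro D h1 _
    change lin q ^ (D - D) * lin p ^ D ∈ I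
    rw [Nat.sub_self, pow_zero, one_mul]
    obtain ⟨k, rfl⟩ := Nat.exists_eq_add_of_le (Nat.succ_le_of_lt h1)
    rw [pow_add]
    exact I.mul_mem_right _ hβ1
  -- the spaces of linear forms
  have hTq : ∀ D b, b ≤ D → (q ∈ Tk I (lin q ^ (D - b) * lin p ^ b) ↔ Z (D + 1) b) := by
    intro D b hb
    rw [mem_Tk]
    have e1 : (lin q ^ (D - b) * lin p ^ b * lin q : MvPolynomial (Fin (N + 1)) K) =
        lin q ^ (D + 1 - b) * lin p ^ b := by
      rw [show D + 1 - b = D - b + 1 by omega, pow_succ]; ring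
    rw [e1]
  have hTp : ∀ D b, b ≤ D → (p ∈ Tk I (lin q ^ (D - b) * lin p ^ b) ↔ Z (D + 1) (b + 1)) := by
    intro D b hb
    rw [mem_Tk]
    have e1 : (lin q ^ (D - b) * lin p ^ b * lin p : MvPolynomial (Fin (N + 1)) K) =
        lin q ^ (D + 1 - (b + 1)) * lin p ^ (b + 1) := by
      rw [show D + 1 - (b + 1) = D - b by omega, pow_succ]; ring
    rw [e1]
  -- transport down
  have hdown : ∀ D b, b + 1 ≤ D → D + 1 ≤ s + 2 → Z (D + 1) (b + 1) → ∀ u,
      M u ∈ Tk I (lin q ^ (D - b) * lin p ^ b) → u ∈ Tk I (lin q ^ (D - (b + 1)) * lin p ^ (b + 1)) := by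
    intro D b hb hDs hz u hu
    rw [hZg _ _ hDs (by omega)] at hz
    obtain ⟨c, hc⟩ : ∃ c, D + 1 - (b + 1) = c + 1 := ⟨D - b - 1, by omega⟩
    rw [hc] at hz
    have h1 := ev_deriv hz q u
    rw [mem_Tk] at hu ⊢
    rw [show D - b = c + 1 by omega] at hu
    rw [show D - (b + 1) = c by omega]
    apply nat_mem (N := c + 1) (by omega)
    have h2 := I.sub_mem h1 (I.mul_mem_left ((b + 1 : ℕ) : MvPolynomial (Fin (N + 1)) K) hu)
    rwa [add_sub_cancel_right] at h2
  have himT : ∀ D b, b ≤ D → D + 1 ≤ s + 2 → Z (D + 1) (b + 1) → (b + 1 ≤ D → Z D (b + 1)) →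
      ∀ u, M u ∈ Tk I (lin q ^ (D - b) * lin p ^ b) := by
    intro D b hb hDs hz hz' u
    rw [mem_Tk]
    rcases Nat.eq_or_lt_of_le hb with h | h
    · subst h
      rw [hZg _ _ hDs (by omega), Nat.sub_self, pow_zero, one_mul] at hz
      rw [Nat.sub_self, pow_zero, one_mul]
      exact ev_deriv' hz q u
    · rw [hZg _ _ hDs (by omega)] at hz
      obtain ⟨c, hc⟩ : ∃ c, D + 1 - (b + 1) = c + 1 := ⟨D - b - 1, by omega⟩
      rw [hc] at hz
      have h1 := ev_deriv hz q u
      rw [show D - b = c + 1 by omega]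
      apply nat_mem (N := b + 1) (by omega)
      have h3 : lin q ^ c * lin p ^ (b + 1) ∈ I := by
        have h4 : lin q ^ (D - (b + 1)) * lin p ^ (b + 1) ∈ I := hz' (by omega)
        rwa [show D - (b + 1) = c by omega] at h4
      have h2 := I.sub_mem h1 (I.mul_mem_left ((c + 1 : ℕ) : MvPolynomial (Fin (N + 1)) K)
        (I.mul_mem_right (lin u) h3))
      rwa [add_sub_cancel_left] at h2
  set nuM : ℕ → ℕ := fun g => nu (quo M p hMp) g with hnuM
  have hcor' : ∀ D' b x, 1 ≤ x → x ≤ b → b ≤ D' → D' + 2 ≤ s + 2 → ¬ Z D' b →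
      (∀ b', x ≤ b' → b' ≤ b + 1 → Z (D' + 1) b') → (b + 1 ≤ D' → Z D' (b + 1)) →
      (s + 2) - D' ≤ nuM (b + 1 - x) * (D - 1) ∧
      ∀ u, M u ∈ Submodule.span K {p} → lin u * (lin q ^ (D' - b) * lin p ^ b) ∈ I := by
    intro D' b x hx1 hxb hbD hDs hnz hz hz'
    have hit : ∀ j, j ≤ b + 1 - x → ∀ u, (M ^ j) u ∈ Tk I (lin q ^ (D' - (b - j)) * lin p ^ (b - j)) →
        u ∈ Tk I (lin q ^ (D' - b) * lin p ^ b) := by
      intro j
      induction j with
      | zero =>
        intro _ u hu
        rwa [pow_zero, Nat.sub_zero] at hu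
      | succ j ih =>
        intro hj u hu
        apply ih (by omega)
        rw [pow_succ', Module.End.mul_apply] at hu
        have h1 := hdown D' (b - (j + 1)) (by omega) (by omega)
          (hz _ (by omega) (by omega)) _ hu
        rwa [show b - (j + 1) + 1 = b - j by omega] at h1
    have hkerT : ∀ u, (M ^ (b + 1 - x)) u ∈ Submodule.span K {p} →
        u ∈ Tk I (lin q ^ (D' - b) * lin p ^ b) := by
      intro u hu
      apply hit _ le_rfl
      apply lin_mem_of_span hu
      rw [hTp D' _ (by omega), show b - (b + 1 - x) + 1 = x by omega]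
      exact hz x le_rfl (by omega)
    have hcod := codim_quo M hp0 hMp (b + 1 - x) (Tk I (lin q ^ (D' - b) * lin p ^ b))
      hkerT
      (himT D' b hbD (by omega) (hz _ (by omega) le_rfl) hz')
      ((hTp D' b hbD).mpr (hz _ (by omega) le_rfl))
    rw [finrank_fin_fun] at hcod
    have hbas := (Module.finBasis K (Tk I (lin q ^ (D' - b) * lin p ^ b))).linearIndependent.map'
      (Tk I (lin q ^ (D' - b) * lin p ^ b)).subtype (Submodule.ker_subtype _)
    have hhom : (lin q ^ (D' - b) * lin p ^ b : MvPolynomial (Fin (N + 1)) K).IsHomogeneous D' := by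
      have h1 := ((lin_homog q).pow (D' - b)).mul ((lin_homog p).pow b)
      rwa [one_mul, one_mul, Nat.sub_add_cancel hbD] at h1
    have hbd := bound_gen ha he1 hreg hD1 hD hqJ hhom hnz (by
      have h1 := (hTq D' b hbD).mpr (hz b hxb (by omega))
      rw [mem_Tk, mul_comm] at h1
      exact h1) hbas (by
      intro i
      have h1 := (Module.finBasis K (Tk I (lin q ^ (D' - b) * lin p ^ b)) i).2
      rw [mem_Tk, mul_comm] at h1
      exact h1)
    rw [hσ] at hbd
    have h1 : (N + 1 - finrank K (Tk I (lin q ^ (D' - b) * lin p ^ b))) * (D - 1) ≤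
        nuM (b + 1 - x) * (D - 1) := by
      apply Nat.mul_le_mul_right
      rw [hnuM]
      simp only
      omega
    refine ⟨by omega, fun u hu => ?_⟩
    have h2 : ∀ g, (M ^ (g + 1)) u ∈ Submodule.span K {p} := by
      intro g
      induction g with
      | zero => rwa [zero_add, pow_one]
      | succ g ih =>
        rw [pow_succ', Module.End.mul_apply]
        obtain ⟨α, hα⟩ := Submodule.mem_span_singleton.mp ih
        rw [← hα, map_smul]
        exact Submodule.smul_mem _ _ hMp
    have h3 := hkerT u (by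
      obtain ⟨g, hg⟩ : ∃ g, b + 1 - x = g + 1 := ⟨b - x, by omega⟩
      rw [hg]
      exact h2 g)
    rw [mem_Tk, mul_comm] at h3
    exact h3
  have hcor : ∀ D' b x, 1 ≤ x → x ≤ b → b ≤ D' → D' + 2 ≤ s + 2 → ¬ Z D' b →
      (∀ b', x ≤ b' → b' ≤ b + 1 → Z (D' + 1) b') → (b + 1 ≤ D' → Z D' (b + 1)) →
      (s + 2) - D' ≤ nuM (b + 1 - x) * (D - 1) :=
    fun D' b x h1 h2 h3 h4 h5 h6 h7 => (hcor' D' b x h1 h2 h3 h4 h5 h6 h7).1
  have hcount := count (s + 2) β (D - 1) Z nuM (by omega) hZ0 hZ1 hZβ hZβ' hcor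
    (fun g h hgh => nu_antitone _ hgh)
  -- the sum of the `ν`
  set c := cc (quo M p hMp) 1 with hc
  have hsumnu : ∑ g ∈ Finset.Icc 1 (s + 2), nuM g ≤ c := by
    have h1 := sum_nu (quo M p hMp) (s + 2)
    have h2 : ∑ g ∈ Finset.Icc 1 (s + 2), nuM g = ∑ g ∈ Finset.range (s + 2), nuM (g + 1) := by
      rw [Finset.range_eq_Ico, Finset.sum_Ico_add' nuM 0 (s + 2) 1]
      refine Finset.sum_congr ?_ fun _ _ => rfl
      ext x
      simp only [Finset.mem_Icc, Finset.mem_Ico]
      omega
    rw [h2, hc, ← h1]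
    exact Nat.le_add_right _ _
  -- the lower bound for `β`
  have hβbd : ∑ i ∈ Finset.range (c + 1), em e i ≤ β := by
    have hdim := dim_quo M hp0 hMp (Tk I (lin q ^ (β - β) * lin p ^ β))
      (himT β β le_rfl (by omega) (hZβ' _ (by omega) (by omega)) (fun h => by omega))
      ((hTp β β le_rfl).mpr (hZβ' _ (by omega) (by omega)))
    have hv : finrank K (Tk I (lin q ^ (β - β) * lin p ^ β)) ≤ N + 1 := by
      have h1 := Submodule.finrank_le (Tk I (lin q ^ (β - β) * lin p ^ β))
      rwa [finrank_fin_fun] at h1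
    have hbas := (Module.finBasis K (Tk I (lin q ^ (β - β) * lin p ^ β))).linearIndependent.map'
      (Tk I (lin q ^ (β - β) * lin p ^ β)).subtype (Submodule.ker_subtype _)
    have hhom : (lin q ^ (β - β) * lin p ^ β : MvPolynomial (Fin (N + 1)) K).IsHomogeneous β := by
      have h1 := ((lin_homog q).pow (β - β)).mul ((lin_homog p).pow β)
      rwa [one_mul, one_mul, Nat.sub_add_cancel le_rfl] at h1
    have hbd := bound_sorted ha he1 hreg hmono hv (ε := fun _ => 1) (fun i => lin_homog _)
      (fun _ => le_rfl) (reg_lin hbas) hhom hZβ (by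
      intro i
      have h1 := (Module.finBasis K (Tk I (lin q ^ (β - β) * lin p ^ β)) i).2
      rw [mem_Tk, mul_comm] at h1
      exact h1)
    simp only [Nat.sub_self, Finset.sum_const_zero, Nat.add_zero] at hbd
    refine le_trans ?_ hbd
    apply Finset.sum_le_sum_of_subset
    intro x hx
    rw [Finset.mem_range] at hx ⊢
    exact lt_of_lt_of_le hx hdim
  have h1β : 1 ≤ β := by
    by_contra hcon
    have h0 : β = 0 := by omega
    rw [h0, zero_add, pow_one] at hβ1
    exact hp0 (hlin p hβ1)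
  -- the class of `q` is not in the range
  have hqr : (Submodule.Quotient.mk q : (Fin (N + 1) → K) ⧸ Submodule.span K {p}) ∉
      LinearMap.range (quo M p hMp) := by
    rintro ⟨x, hx⟩
    obtain ⟨u, rfl⟩ := Submodule.Quotient.mk_surjective _ x
    have hx' : (Submodule.Quotient.mk (M u) : (Fin (N + 1) → K) ⧸ Submodule.span K {p}) =
        Submodule.Quotient.mk q := hx
    rw [Submodule.Quotient.eq] at hx'
    obtain ⟨α, hα⟩ := Submodule.mem_span_singleton.mp hx'
    have hMu : M u = q + α • p := by rw [hα]; abel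
    obtain ⟨t, ht⟩ : ∃ t, s = t + 1 := ⟨s - 1, by omega⟩
    have hm1 : ell I ^ (t + 1) * mu I m ^ (0 + 1) = 0 := by
      rw [zero_add, pow_one, ← ht]
      exact hm
    have h1 := ev_deriv hm1 q u
    have hz : lin q ^ (t + 1) * lin p ∈ I := by
      have h3 := (hq (t + 1) 1 (by omega) (by omega)).mpr (by rwa [zero_add] at hm1)
      rwa [pow_one] at h3
    rw [zero_add, pow_one, pow_zero, mul_one] at h1
    have h2 := I.mul_mem_left (lin q) h1
    have e1 : (lin q : MvPolynomial (Fin (N + 1)) K) * (((t + 1 : ℕ) : MvPolynomial (Fin (N + 1)) K) *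
        (lin q ^ t * lin p * lin u) + ((1 : ℕ) : MvPolynomial (Fin (N + 1)) K) *
          (lin q ^ (t + 1) * lin (M u))) =
        ((t + 1 : ℕ) : MvPolynomial (Fin (N + 1)) K) * lin u * (lin q ^ (t + 1) * lin p) +
          lin q ^ (t + 2) * lin (M u) := by
      rw [Nat.cast_one]; ring
    have h3 : lin q ^ (t + 2) * lin (M u) ∈ I := by
      have h4 := I.sub_mem h2 (I.mul_mem_left
        (((t + 1 : ℕ) : MvPolynomial (Fin (N + 1)) K) * lin u) hz)
      rw [e1, add_sub_cancel_left] at h4
      exact h4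
    have e2 : (lin (M u) : MvPolynomial (Fin (N + 1)) K) = lin q + C α * lin p := by
      rw [hMu]
      change linL K _ (q + α • p) = _
      rw [map_add, map_smul, smul_eq_C_mul]
      rfl
    rw [e2] at h3
    apply hell (s + 2) le_rfl
    have h5 := I.sub_mem h3 (I.mul_mem_left (C α * lin q) hz)
    have e3 : (lin q ^ (t + 2) * (lin q + C α * lin p) - C α * lin q * (lin q ^ (t + 1) * lin p) :
        MvPolynomial (Fin (N + 1)) K) = lin q ^ (s + 2) := by
      rw [ht]; ring
    rwa [e3] at h5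
  -- the contradiction
  by_cases hβc : c * (D - 1) ≤ β
  · exact numeric hcount hsumnu hβc h1β
  push Not at hβc
  rcases cc_or (quo M p hMp) (x := Submodule.Quotient.mk q)
    ((Submodule.Quotient.mk_eq_zero _).mpr hMq) hqr with hc2 | hc2
  · have hfr := finrank_quo (K := K) hp0
    rw [finrank_fin_fun] at hfr
    have hc1 : 1 ≤ c := by
      by_contra hcon
      have h0 : c = 0 := by omega
      rw [h0, zero_mul] at hβc
      omega
    have hβall : ∀ q' : Fin (N + 1) → K, lin (vl q' m) ^ (β + 1) ∈ I := by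
      intro q'
      have h3 : ell I ^ 0 * mu I m ^ (β + 1) = 0 :=
        (hq 0 (β + 1) (by omega) (by omega)).mp (by rwa [pow_zero, one_mul])
      have h4 := (zero_iff (K := K) I).mp h3 q'
      rwa [pow_zero, one_mul] at h4
    -- the span of the values of `m`
    set L : Submodule K (Fin (N + 1) → K) := Submodule.span K (Set.range fun q' => vl q' m) with hL
    have hLall : ∀ q', vl q' m ∈ L := fun q' => Submodule.subset_span ⟨q', rfl⟩
    have hqsp : lin q ^ s * lin p ∈ I := by
      have h3 := (hq s 1 (by omega) (by omega)).mpr (by rwa [pow_one])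
      rwa [pow_one] at h3
    have hLdim : ¬ finrank K L ≤ c + 1 := by
      intro hdim
      have h1 := alt_dim M hp0 hMp (L := L) (F := Tk I (lin q ^ (s + 1)))
        (fun u => MM_mem_of_forall L hLall q u) (hLall q)
        (by
          intro u
          rw [mem_Tk]
          obtain ⟨t, ht⟩ : ∃ t, s = t + 1 := ⟨s - 1, by omega⟩
          have hm1 : ell I ^ (t + 1) * mu I m ^ (0 + 1) = 0 := by
            rw [zero_add, pow_one, ← ht]
            exact hm
          have h1 := ev_deriv hm1 q u
          rw [zero_add, pow_one, pow_zero, mul_one] at h1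
          have h2 := I.mul_mem_left (lin q) h1
          have h3 := I.mul_mem_left (((t + 1 : ℕ) : MvPolynomial (Fin (N + 1)) K) * lin u) hqsp
          have h4 := I.sub_mem h2 h3
          convert h4 using 1
          rw [ht, Nat.cast_one]
          ring)
        (by
          rw [mem_Tk, pow_succ']
          have h5 := I.mul_mem_left (lin q) hqsp
          rwa [← mul_assoc] at h5) hdim
      apply hqz
      have h2 := h1 (hLall q0)
      rwa [mem_Tk] at h2
    have hN : N ≤ 3 → False := by
      intro hN3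
      have hc1' : c = 1 := by omega
      have hN3' : N = 3 := by omega
      obtain ⟨y, hy0, hy⟩ := exists_y M hMp hc1'
      have hyq : ∑ j, q j * y j = 0 := (hy q).mpr hMq
      -- the generators of small degree vanish at `y`
      have hvan : ∀ i, e i ≤ β + 1 → eval y (a i) = 0 := by
        intro i hi
        by_contra hay
        have hcor2 : ∀ D' b x, 1 ≤ x → x ≤ b → b ≤ D' → D' + 2 ≤ s + 2 → ¬ Z D' b →
            (∀ b', x ≤ b' → b' ≤ b + 1 → Z (D' + 1) b') → (b + 1 ≤ D' → Z D' (b + 1)) →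
            (s + 2) - D' ≤ nuM (b + 1 - x) * (e i - 1) := by
          intro D' b x h1 h2 h3 h4 h5 h6 h7
          obtain ⟨g1, g2⟩ := hcor' D' b x h1 h2 h3 h4 h5 h6 h7
          rcases Nat.eq_zero_or_pos (nuM (b + 1 - x)) with h9 | h9
          · rw [h9, zero_mul] at g1 ⊢
            exact g1
          · have hhom : (lin q ^ (D' - b) * lin p ^ b :
                MvPolynomial (Fin (N + 1)) K).IsHomogeneous D' := by
              have h1 := ((lin_homog q).pow (D' - b)).mul ((lin_homog p).pow b)
              rwa [one_mul, one_mul, Nat.sub_add_cancel h3] at h1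
            have h10 := bound_pt hS hhom h5 (y := y) (fun u hu => g2 u ((hy u).mp hu))
              (ha i) (Ideal.subset_span ⟨i, rfl⟩) hay
            have h11 : (s + 2) - D' ≤ e i - 1 := by
              have := he i
              omega
            calc (s + 2) - D' ≤ 1 * (e i - 1) := by rw [one_mul]; exact h11
              _ ≤ _ := Nat.mul_le_mul_right _ h9
        have hcount2 := count (s + 2) β (e i - 1) Z nuM (by omega) hZ0 hZ1 hZβ hZβ' hcor2
          (fun g h hgh => nu_antitone _ hgh)
        have := he i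
        exact numeric hcount2 hsumnu (by rw [hc1', one_mul]; omega) h1β
      -- the first generators do not all vanish at `y`
      set a0 : Fin N → MvPolynomial (Fin (N + 1)) K := fun i => a i.castSucc with ha0
      have hreg0 : Reg a0 := reg_prefix (Nat.le_succ N) hreg
      obtain ⟨i0, hi0⟩ : ∃ i0, eval y (a0 i0) ≠ 0 := by
        by_contra hcon
        push Not at hcon
        obtain ⟨j1, hj1⟩ : ∃ j1, y j1 ≠ 0 := by
          by_contra h
          push Not at h
          exact hy0 (funext h)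
        have h1 := (isSocleDegree_ci _ _ (Pool.Agent.Q8.GE.snoc_homog (a := a0)
          (e := fun i => e i.castSucc) (fun i => ha _) q 1)
          (Pool.Agent.Q8.GE.snoc_one_le (fun i => he1 _) le_rfl)
          (Pool.Agent.Q8.GE.reg_snoc_pow hreg0 hqJ 1)).2
          (∑ i : Fin N, (e i.castSucc - 1) + 1) (by rw [Pool.Agent.Q8.GE.snoc_sum]; omega)
          (X j1 ^ (∑ i : Fin N, (e i.castSucc - 1) + 1)) (by
            have h2 := (isHomogeneous_X K j1).pow (∑ i : Fin N, (e i.castSucc - 1) + 1)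
            rwa [one_mul] at h2)
        have h3 : Ideal.span (Set.range (Fin.snoc a0 (lin q ^ 1) :
            Fin (N + 1) → MvPolynomial (Fin (N + 1)) K)) ≤
            RingHom.ker (eval y : MvPolynomial (Fin (N + 1)) K →+* K) := by
          rw [Ideal.span_le]
          rintro _ ⟨i, rfl⟩
          rw [SetLike.mem_coe, RingHom.mem_ker]
          refine Fin.lastCases ?_ (fun i => ?_) i
          · rw [Fin.snoc_last, pow_one, lin_sum, map_sum]
            rw [← hyq]
            refine Finset.sum_congr rfl fun j _ => ?_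
            rw [smul_eval, eval_X]
          · rw [Fin.snoc_castSucc]
            exact hcon i
        have h4 := h3 h1
        rw [RingHom.mem_ker, map_pow, eval_X] at h4
        exact pow_ne_zero _ hj1 h4
      have hi0e : β + 1 < e i0.castSucc := by
        by_contra hcon
        exact hi0 (hvan _ (by omega))
      have hlast : β + 1 < e (Fin.last N) := lt_of_lt_of_le hi0e (hmono (Fin.le_last _))
      have hLy : ∀ u ∈ L, ∑ j, u j * y j = 0 := by
        let T : Submodule K (Fin (N + 1) → K) :=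
          { carrier := {u | ∑ j, u j * y j = 0}
            add_mem' := fun {u v} hu hv => by
              change ∑ j, (u + v) j * y j = 0
              simp only [Pi.add_apply, add_mul, Finset.sum_add_distrib]
              rw [show ∑ j, u j * y j = 0 from hu, show ∑ j, v j * y j = 0 from hv, add_zero]
            zero_mem' := by
              change ∑ j, (0 : Fin (N + 1) → K) j * y j = 0
              simp
            smul_mem' := fun α u hu => by
              change ∑ j, (α • u) j * y j = 0
              simp only [Pi.smul_apply, smul_eq_mul, mul_assoc, ← Finset.mul_sum]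
              rw [show ∑ j, u j * y j = 0 from hu, mul_zero] }
        have h2 : L ≤ T := by
          rw [hL, Submodule.span_le]
          rintro _ ⟨q', rfl⟩
          exact pt_zero ha hvan (hβall q')
        exact fun u hu => h2 hu
      have hqL : q ∉ L := by
        intro hqL
        set J := Ideal.span (Set.range a0) with hJ
        have hIJ : I = J ⊔ Ideal.span {a (Fin.last N)} := Pool.Agent.Q8.GE.span_last a
        have hJh : Homog J := Pool.Agent.Q8.GE.homog_J (a := a0) (fun i => ha _)
        set Tn : Submodule K (Fin (N + 1) → K) :=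
          (J.radical.restrictScalars K).comap (linL K (N + 1)) with hTn
        have h2 : L ≤ Tn := by
          rw [hL, Submodule.span_le]
          rintro _ ⟨q', rfl⟩
          refine (show (lin (vl q' m) : MvPolynomial (Fin (N + 1)) K) ∈ J.radical from
            ⟨β + 1, ?_⟩)
          have h3 := hβall q'
          rw [hIJ] at h3
          have h4 : (lin (vl q' m) ^ (β + 1) : MvPolynomial (Fin (N + 1)) K).IsHomogeneous
              (β + 1) := by
            have h5 := (lin_homog (vl q' m)).pow (β + 1)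
            rwa [one_mul] at h5
          rcases sup_comp' hJh (ha (Fin.last N)) h4 h3 with h6 | h6
          · exact absurd h6.1 (by omega)
          · exact h6
        obtain ⟨l, hl⟩ := (show (lin q : MvPolynomial (Fin (N + 1)) K) ∈ J.radical from h2 hqL)
        apply Pool.Agent.Q8.GE.one_notMem_J (a := a0) (fun i => ha _) (fun i => he1 _) hreg0 hqJ
        apply Pool.Agent.Q8.GE.nzd_pow hqJ l
        rwa [mul_one]
      have h3 := dim_of_y hy0 hLy hyq hqL
      omega
    rcases hpow with hN3 | hpow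
    · exact hN hN3
    rcases hpow c hc1 (by omega) with hT | hT
    · omega
    set T := Submodule.span K {z : Fin (N + 1) → K |
      (lin z : MvPolynomial (Fin (N + 1)) K) ^ (c * (D - 1)) ∈ I} with hTdef
    have hall : ∀ q' : Fin (N + 1) → K, vl q' m ∈ T := by
      intro q'
      apply Submodule.subset_span
      obtain ⟨k, hk⟩ := Nat.exists_eq_add_of_le (Nat.succ_le_of_lt hβc)
      change lin (vl q' m) ^ (c * (D - 1)) ∈ I
      rw [hk, pow_add]
      exact I.mul_mem_right _ (hβall q')
    apply hLdim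
    refine le_trans (Submodule.finrank_mono ?_) hT
    rw [hL, Submodule.span_le]
    rintro _ ⟨q', rfl⟩
    exact hall q'
  · apply numeric (c := 0) hcount ?_ (by omega) h1β
    apply le_of_eq
    apply Finset.sum_eq_zero
    intro g hg
    exact hc2 g (Finset.mem_Icc.mp hg).1

theorem core5 [CharZero K] {N : ℕ} {a : Fin (N + 1) → MvPolynomial (Fin (N + 1)) K}
    {e : Fin (N + 1) → ℕ} (ha : ∀ i, (a i).IsHomogeneous (e i)) (he : ∀ i, 2 ≤ e i)
    (hreg : Reg a) (hmono : Monotone e) {D : ℕ} (hD1 : 1 ≤ D) (hD : ∀ i : Fin N, e i.castSucc ≤ D)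
    (hpow : N ≤ 3 ∨ ∀ k, 1 ≤ k → k + 2 ≤ N → k * (D - 1) ≤ ∑ i ∈ Finset.range (k + 1), em e i ∨
      finrank K (Submodule.span K {z : Fin (N + 1) → K |
        (lin z : MvPolynomial (Fin (N + 1)) K) ^ (k * (D - 1)) ∈ Ideal.span (Set.range a)}) ≤ k + 1)
    {P : MvPolynomial (Fin (N + 1)) K} (hP : P ≠ 0) :
    ∃ q : Fin (N + 1) → K, eval q P ≠ 0 ∧ ∀ z : Fin (N + 1) → K,
      lin q ^ (∑ i, (e i - 1) - 2) * lin z ∈ Ideal.span (Set.range a) → z = 0 := by
  classical
  have he1 : ∀ i, 1 ≤ e i := fun i => (by omega : 1 ≤ 2).trans (he i)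
  have hlin : ∀ z : Fin (N + 1) → K,
      (lin z : MvPolynomial (Fin (N + 1)) K) ∈ Ideal.span (Set.range a) → z = 0 :=
    fun z hz => lin_notMem ha he hreg hmono hz
  rcases Nat.eq_zero_or_pos (∑ i, (e i - 1) - 2) with h0 | hs
  · obtain ⟨q, hq⟩ : ∃ q, eval q P ≠ 0 := by
      by_contra hcon
      push Not at hcon
      exact hP (MvPolynomial.funext fun q => by rw [hcon, map_zero])
    refine ⟨q, hq, fun z hz => ?_⟩
    rw [h0, pow_zero, one_mul] at hz
    exact hlin z hz
  · by_contra hcon
    push Not at hcon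
    set s := ∑ i, (e i - 1) - 2 with hsdef
    have hσ : ∑ i, (e i - 1) = s + 2 := by omega
    obtain ⟨φ, hφ, hI⟩ := ci_gor ha he1 hreg
    rw [hσ] at hφ
    have hS : Soc (Ideal.span (Set.range a)) (s + 2) := by
      intro j w hw hj hXw
      rw [← hσ] at hj
      exact socle_ci _ a e ha he1 (sreg_of_reg ha he1 hreg) rfl j w hw hj hXw
    have hker := exists_ker hφ hI hP (fun q hq => by
      obtain ⟨z, hz1, hz2⟩ := hcon q hq
      exact ⟨z, hz2, hz1⟩)
    obtain ⟨m, j0, hj0, hm, hmm, hmX⟩ := exists_min hS le_rfl hs hker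
    have hreg0 : Reg (fun i : Fin N => a i.castSucc) := reg_prefix (Nat.le_succ N) hreg
    have hne : {q : Fin (N + 1) → K |
        NZD (Ideal.span (Set.range fun i : Fin N => a i.castSucc)) (lin q)}.Nonempty :=
      exists_lin_of_reg (Nat.lt_succ_self N) (fun i => ha _) (fun i => he1 _) hreg0
    have hSo := openC_nzd (Ideal.span (Set.range fun i : Fin N => a i.castSucc))
    -- a value of `m`
    obtain ⟨q0, hq0S, hq0⟩ := exists_generic hSo hne hj0
    have hz10 : vl q0 m ≠ 0 := by
      intro h0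
      apply hq0
      exact congrFun h0 j0
    have h1 : ell (Ideal.span (Set.range a)) ^ (s + 1) *
        mu (Ideal.span (Set.range a)) (fun j => C (vl q0 m j)) ≠ 0 := by
      intro h1
      exact hz10 (hlin _ (ell_pow_const hS (vl q0 m) (s + 1) (by omega) h1))
    obtain ⟨ψ, hψ⟩ := exists_cmap_ne (K := K) h1
    have hψ2 : ∀ q : Fin (N + 1) → K, eval q (cmap ψ (ell (Ideal.span (Set.range a)) ^ (s + 1) *
        mu (Ideal.span (Set.range a)) (fun j => C (vl q0 m j)))) ≠ 0 →
        lin q ^ (s + 1) * lin (vl q0 m) ∉ Ideal.span (Set.range a) := by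
      intro q hq hmem
      apply hq
      have h3 : vl q (fun j => C (vl q0 m j)) = vl q0 m := by
        funext j
        exact eval_C _
      rw [eval_cmap, map_mul, map_pow, ev_ell, ev_mu, h3, ← map_pow, ← map_mul,
        Ideal.Quotient.eq_zero_iff_mem.mpr hmem, map_zero]
    obtain ⟨q, hqS, hqj, hq⟩ := exists_point (I := Ideal.span (Set.range a))
      (Pool.Agent.Q8.GE.openC_eval hSo _) (by
        obtain ⟨q, hq1, hq2⟩ := exists_generic hSo hne hψ
        exact ⟨q, hq1, hq2⟩) (s + 2) hj0
    exact contra5 ha he hreg hmono hD1 hD hlin hpow hs hσ hm hmm hmX hqS.1 hqj (hψ2 q hqS.2)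
      (fun x y hx hy => hq x y hx hy)

end Pool.Agent.Q8.GF
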