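import Pool.Agent.Q8.GE.CoreN

/-!
Elements killed by a hyperplane of linear forms, and the corresponding point.
-/

open MvPolynomial
open Pool.Agent.W515.SLP (lin)
open H503R3.QCI (Homog NZD Reg)
open TH130CI
open Pool.Agent.Y204.LF (OpenC)

namespace Pool.Agent.Q8.GF

open Module
open Pool.Agent.Q8.GC
open Pool.Agent.Q8.GE

variable {K : Type*} [Field K]

/-- `lin` of a multiple -/
lemma lin_smul' {n : ℕ} (c : K) (u : Fin n → K) :
    (lin (c • u) : MvPolynomial (Fin n) K) = C c * lin u := by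
  change linL K n (c • u) = _
  rw [map_smul, smul_eq_C_mul]
  rfl

lemma lin_sub' {n : ℕ} (u v : Fin n → K) :
    (lin (u - v) : MvPolynomial (Fin n) K) = lin u - lin v := by
  change linL K n (u - v) = _
  rw [map_sub]
  rfl

/-- a homogeneous polynomial along a line through the origin -/
lemma aeval_line {n : ℕ} {A : Type*} [CommRing A] [Algebra K A] {g : MvPolynomial (Fin n) K}
    {t : ℕ} (hg : g.IsHomogeneous t) (y : Fin n → K) (z : A) :
    aeval (fun j => algebraMap K A (y j) * z) g = algebraMap K A (eval y g) * z ^ t := by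
  rw [aeval_def, eval₂_eq', eval_eq', map_sum, Finset.sum_mul]
  refine Finset.sum_congr rfl fun d hd => ?_
  have hdt : ∑ j, d j = t := by
    have h1 := hg (mem_support_iff.mp hd)
    rw [← h1, Finsupp.weight_apply, Finsupp.sum_fintype _ _ (fun _ => by simp)]
    simp
  rw [map_mul, mul_assoc]
  congr 1
  rw [map_prod, ← hdt, ← Finset.prod_pow_eq_pow_sum, ← Finset.prod_mul_distrib]
  refine Finset.prod_congr rfl fun j _ => ?_
  rw [mul_pow, map_pow]

/-- **The bound from a point.** -/
theorem bound_pt {n : ℕ} {I : Ideal (MvPolynomial (Fin n) K)} {s : ℕ} (hS : Soc I s)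
    {θ : MvPolynomial (Fin n) K} {D' : ℕ} (hθ : θ.IsHomogeneous D') (hθI : θ ∉ I)
    {y : Fin n → K} (hy : ∀ u : Fin n → K, ∑ j, u j * y j = 0 → lin u * θ ∈ I)
    {g : MvPolynomial (Fin n) K} {t : ℕ} (hg : g.IsHomogeneous t) (hgI : g ∈ I)
    (hgy : eval y g ≠ 0) : s < D' + t := by
  classical
  by_contra hcon
  push Not at hcon
  -- `y ≠ 0`
  obtain ⟨j0, hj0⟩ : ∃ j0, y j0 ≠ 0 := by
    by_contra hy0
    push Not at hy0
    have h0 : ∀ u : Fin n → K, lin u * θ ∈ I := fun u => hy u (by simp [hy0])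
    rcases Nat.eq_zero_or_pos t with ht | ht
    · subst ht
      have h1 : g = C (coeff 0 g) := by
        rw [← totalDegree_eq_zero_iff_eq_C]
        exact Nat.le_zero.mp (IsHomogeneous.totalDegree_le hg)
      have h2 : coeff 0 g ≠ 0 := by
        intro h3
        apply hgy
        rw [h1, h3, map_zero, map_zero]
      apply hθI
      have h3 := I.mul_mem_left (C (coeff 0 g)⁻¹ * θ) hgI
      have h4 : C (coeff 0 g)⁻¹ * θ * g = θ := by
        conv_lhs => rw [h1]
        rw [coeff_C, if_pos rfl, mul_right_comm, ← map_mul, inv_mul_cancel₀ h2, map_one, one_mul]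
      rwa [h4] at h3
    · apply hθI
      refine hS D' θ hθ (by omega) fun i => ?_
      rw [← lin_single i]
      exact h0 _
  set u0 : Fin n → K := Pi.single j0 (y j0)⁻¹ with hu0
  have hu0y : ∑ j, u0 j * y j = 1 := by
    rw [Finset.sum_eq_single j0]
    · rw [hu0, Pi.single_eq_same, inv_mul_cancel₀ hj0]
    · intro j _ hj
      rw [hu0, Pi.single_eq_of_ne hj, zero_mul]
    · intro h; exact absurd (Finset.mem_univ _) h
  have hX : ∀ j, (X j - C (y j) * lin u0) * θ ∈ I := by
    intro j
    have h1 := hy (Pi.single j 1 - y j • u0) (by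
      simp only [Pi.sub_apply, Pi.smul_apply, smul_eq_mul, sub_mul, Finset.sum_sub_distrib]
      have e1 : ∑ x, (Pi.single j (1 : K) : Fin n → K) x * y x = y j := by
        rw [Finset.sum_eq_single j]
        · rw [Pi.single_eq_same, one_mul]
        · intro x _ hx
          rw [Pi.single_eq_of_ne hx, zero_mul]
        · intro h; exact absurd (Finset.mem_univ _) h
      have e2 : ∑ x, y j * u0 x * y x = y j := by
        have : ∑ x, y j * u0 x * y x = y j * ∑ x, u0 x * y x := by
          rw [Finset.mul_sum]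
          exact Finset.sum_congr rfl fun x _ => mul_assoc _ _ _
        rw [this, hu0y, mul_one]
      rw [e1, e2, sub_self])
    rw [lin_sub', lin_smul', lin_single] at h1
    exact h1
  -- the annihilator
  set 𝔎 : Ideal (MvPolynomial (Fin n) K) := I.colon {θ} with h𝔎
  have hm𝔎 : ∀ h, h ∈ 𝔎 ↔ h * θ ∈ I := by
    intro h
    rw [h𝔎, Submodule.mem_colon_singleton]
    rfl
  set z : MvPolynomial (Fin n) K ⧸ 𝔎 := Ideal.Quotient.mk 𝔎 (lin u0) with hz
  have hmk : ∀ h : MvPolynomial (Fin n) K, ∀ i, h.IsHomogeneous i →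
      Ideal.Quotient.mk 𝔎 h = algebraMap K _ (eval y h) * z ^ i := by
    intro h i hh
    rw [← aeval_line hh y z]
    have h1 : (aeval fun j => algebraMap K (MvPolynomial (Fin n) K ⧸ 𝔎) (y j) * z) =
        Ideal.Quotient.mkₐ K 𝔎 := by
      apply MvPolynomial.algHom_ext
      intro j
      rw [aeval_X]
      symm
      change Ideal.Quotient.mk 𝔎 (X j) = Ideal.Quotient.mk 𝔎 (C (y j)) * Ideal.Quotient.mk 𝔎 (lin u0)
      rw [← map_mul, Ideal.Quotient.mk_eq_mk_iff_sub_mem, hm𝔎]
      exact hX j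
    rw [h1]
    rfl
  have hzt : lin u0 ^ t * θ ∈ I := by
    rw [← hm𝔎, ← Ideal.Quotient.eq_zero_iff_mem, map_pow]
    have h1 := hmk g t hg
    rw [Ideal.Quotient.eq_zero_iff_mem.mpr ((hm𝔎 g).mpr (I.mul_mem_right _ hgI))] at h1
    have h2 : algebraMap K (MvPolynomial (Fin n) K ⧸ 𝔎) (eval y g)⁻¹ *
        (algebraMap K _ (eval y g) * z ^ t) = z ^ t := by
      rw [← mul_assoc, ← map_mul, inv_mul_cancel₀ hgy, map_one, one_mul]
    rw [← h1, mul_zero] at h2
    exact h2.symm
  have hnot : ∀ i, D' + i ≤ s → lin u0 ^ i * θ ∉ I := by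
    intro i
    induction i with
    | zero => intro _; rwa [pow_zero, one_mul]
    | succ i ih =>
      intro hi hmem
      apply ih (by omega)
      have hh : (lin u0 ^ i * θ : MvPolynomial (Fin n) K).IsHomogeneous (D' + i) := by
        have h1 := ((lin_homog u0).pow i).mul hθ
        rw [one_mul, add_comm] at h1
        exact h1
      refine hS _ _ hh (by omega) fun j => ?_
      have h1 := I.mul_mem_left (lin u0 ^ i) (hX j)
      have h2 := I.mul_mem_left (C (y j)) hmem
      have h3 := I.add_mem h1 h2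
      convert h3 using 1
      ring
  exact hnot t hcon hzt

/-- a linear form with a small power in an ideal vanishes at the common zeros of the generators of
small degree -/
theorem pt_zero {n : ℕ} {ι : Type*} {a : ι → MvPolynomial (Fin n) K} {e : ι → ℕ}
    (ha : ∀ i, (a i).IsHomogeneous (e i)) {y : Fin n → K} {B : ℕ}
    (h : ∀ i, e i ≤ B → eval y (a i) = 0) {z : Fin n → K}
    (hz : lin z ^ B ∈ Ideal.span (Set.range a)) : ∑ j, z j * y j = 0 := by
  let ψ : MvPolynomial (Fin n) K →ₐ[K] Polynomial K :=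
    aeval (fun j => algebraMap K (Polynomial K) (y j) * Polynomial.X)
  have h1 : ∀ w ∈ Ideal.span (Set.range a), ψ w ∈ Ideal.span {(Polynomial.X : Polynomial K) ^ (B + 1)} := by
    intro w hw
    have h2 : Ideal.span (Set.range a) ≤
        (Ideal.span {(Polynomial.X : Polynomial K) ^ (B + 1)}).comap ψ := by
      rw [Ideal.span_le]
      rintro _ ⟨i, rfl⟩
      change ψ (a i) ∈ Ideal.span {(Polynomial.X : Polynomial K) ^ (B + 1)}
      change aeval (fun j => algebraMap K (Polynomial K) (y j) * Polynomial.X) (a i) ∈ _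
      rw [aeval_line (ha i) y Polynomial.X]
      rcases Nat.lt_or_ge B (e i) with h3 | h3
      · rw [Ideal.mem_span_singleton]
        exact Dvd.dvd.mul_left (pow_dvd_pow _ (by omega)) _
      · rw [h i h3, map_zero, zero_mul]
        exact Ideal.zero_mem _
    exact h2 hw
  have h2 := h1 _ hz
  have h3 : ψ (lin z) = Polynomial.C (∑ j, z j * y j) * Polynomial.X := by
    have h4 := aeval_line (A := Polynomial K) (lin_homog z) y Polynomial.X
    rw [pow_one] at h4
    refine h4.trans ?_
    congr 2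
    rw [lin_sum, map_sum]
    refine Finset.sum_congr rfl fun j _ => ?_
    rw [smul_eval, eval_X]
  rw [map_pow, h3, mul_pow, Ideal.mem_span_singleton, Polynomial.X_pow_dvd_iff] at h2
  have h4 := h2 B (Nat.lt_succ_self B)
  rw [← Polynomial.C_pow, Polynomial.coeff_C_mul, Polynomial.coeff_X_pow_self, mul_one] at h4
  by_contra h5
  exact pow_ne_zero B h5 h4

/-- a linear functional is given by a vector -/
lemma dual_eq {n : ℕ} (ψ : (Fin n → K) →ₗ[K] K) (v : Fin n → K) :
    ψ v = ∑ j, v j * ψ (Pi.single j 1) := by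
  conv_lhs => rw [← Finset.univ_sum_single v]
  rw [map_sum]
  refine Finset.sum_congr rfl fun j _ => ?_
  have : (Pi.single j (v j) : Fin n → K) = v j • Pi.single j 1 := by
    rw [← Pi.single_smul, smul_eq_mul, mul_one]
  rw [this, map_smul, smul_eq_mul]

/-- the point of a derivative of rank one -/
theorem exists_y {n : ℕ} (M : (Fin n → K) →ₗ[K] (Fin n → K)) {p : Fin n → K}
    (hMp : M p ∈ Submodule.span K {p}) (hc : cc (quo M p hMp) 1 = 1) :
    ∃ y : Fin n → K, y ≠ 0 ∧ ∀ u : Fin n → K, ∑ j, u j * y j = 0 ↔ M u ∈ Submodule.span K {p} := by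
  classical
  have hc' : finrank K (LinearMap.range (quo M p hMp)) = 1 := by
    have h1 := hc
    unfold cc at h1
    rwa [pow_one] at h1
  obtain ⟨v, hv0, hv⟩ := finrank_eq_one_iff'.mp hc'
  have hv0' : (v : (Fin n → K) ⧸ Submodule.span K {p}) ≠ 0 := fun h => hv0 (Subtype.ext h)
  obtain ⟨χ, hχ⟩ : ∃ χ : Module.Dual K ((Fin n → K) ⧸ Submodule.span K {p}), χ v ≠ 0 := by
    by_contra hcon
    push Not at hcon
    exact hv0' ((Module.forall_dual_apply_eq_zero_iff K _).mp hcon)
  let η : (Fin n → K) →ₗ[K] K := χ ∘ₗ (quo M p hMp) ∘ₗ (Submodule.span K {p}).mkQ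
  have hη : ∀ u : Fin n → K, η u = 0 ↔ M u ∈ Submodule.span K {p} := by
    intro u
    obtain ⟨c, hcu⟩ := hv ⟨quo M p hMp (Submodule.Quotient.mk u), LinearMap.mem_range_self _ _⟩
    have h1 : quo M p hMp (Submodule.Quotient.mk u) = c • (v : (Fin n → K) ⧸ Submodule.span K {p}) :=
      (congrArg Subtype.val hcu).symm
    have h2 : quo M p hMp (Submodule.Quotient.mk u) =
        (Submodule.Quotient.mk (M u) : (Fin n → K) ⧸ Submodule.span K {p}) := rfl
    have h3 : η u = c * χ v := by
      change χ (quo M p hMp (Submodule.Quotient.mk u)) = _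
      rw [h1, map_smul, smul_eq_mul]
    rw [h3, ← Submodule.Quotient.mk_eq_zero, ← h2, h1]
    constructor
    · intro h
      rcases mul_eq_zero.mp h with h4 | h4
      · rw [h4, zero_smul]
      · exact absurd h4 hχ
    · intro h
      rcases smul_eq_zero.mp h with h4 | h4
      · rw [h4, zero_mul]
      · exact absurd h4 hv0'
  refine ⟨fun j => η (Pi.single j 1), ?_, fun u => ?_⟩
  · intro h0
    obtain ⟨x, hx⟩ := v.2
    obtain ⟨u, rfl⟩ := Submodule.Quotient.mk_surjective _ x
    apply hχ
    have h1 : η u = 0 := by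
      rw [dual_eq η u]
      refine Finset.sum_eq_zero fun j _ => ?_
      have := congrFun h0 j
      rw [this, Pi.zero_apply, mul_zero]
    rw [← hx]
    exact h1
  · rw [← dual_eq η u]
    exact hη u

/-- values on an open set -/
theorem vl_mem_of_open [Infinite K] {n : ℕ} {S : Set (Fin n → K)} (hS : OpenC S)
    (hne : S.Nonempty) {m : Fin n → MvPolynomial (Fin n) K} (T : Submodule K (Fin n → K))
    (h : ∀ q ∈ S, vl q m ∈ T) (q : Fin n → K) : vl q m ∈ T := by
  classical
  by_contra hcon
  obtain ⟨χ, hχ⟩ : ∃ χ : Module.Dual K ((Fin n → K) ⧸ T),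
      χ (Submodule.Quotient.mk (vl q m)) ≠ 0 := by
    by_contra hc
    push Not at hc
    apply hcon
    rw [← Submodule.Quotient.mk_eq_zero]
    exact (Module.forall_dual_apply_eq_zero_iff K _).mp hc
  let ψ : (Fin n → K) →ₗ[K] K := χ ∘ₗ T.mkQ
  let P : MvPolynomial (Fin n) K := ∑ j, m j * C (ψ (Pi.single j 1))
  have hPe : ∀ q', eval q' P = ψ (vl q' m) := by
    intro q'
    rw [dual_eq ψ (vl q' m)]
    simp only [P, map_sum, map_mul, eval_C]
    rfl
  have hP : P ≠ 0 := by
    intro h0
    apply hχ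
    have h1 := hPe q
    rw [h0, map_zero] at h1
    exact h1.symm
  obtain ⟨q', hq', hq'P⟩ := exists_generic hS hne hP
  apply hq'P
  rw [hPe]
  change χ (Submodule.Quotient.mk (vl q' m)) = 0
  rw [(Submodule.Quotient.mk_eq_zero T).mpr (h q' hq'), map_zero]

/-- a small subspace with all derivatives lies in every subspace with all derivatives -/
theorem alt_dim {V : Type*} [AddCommGroup V] [Module K V] [FiniteDimensional K V]
    (M : V →ₗ[K] V) {p : V} (hp0 : p ≠ 0) (hMp : M p ∈ Submodule.span K {p})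
    {L F : Submodule K V} (hML : ∀ u, M u ∈ L) (hpL : p ∈ L) (hMF : ∀ u, M u ∈ F) (hpF : p ∈ F)
    (hdim : finrank K L ≤ cc (quo M p hMp) 1 + 1) : L ≤ F := by
  have h1 := dim_quo M hp0 hMp (L ⊓ F) (fun u => ⟨hML u, hMF u⟩) ⟨hpL, hpF⟩
  have h2 : L ⊓ F = L := Submodule.eq_of_le_of_finrank_le inf_le_left (by omega)
  rw [← h2]
  exact inf_le_right

/-- a proper subspace of a hyperplane -/
theorem dim_of_y {n : ℕ} {y : Fin n → K} (hy0 : y ≠ 0) {L : Submodule K (Fin n → K)}
    (hL : ∀ u ∈ L, ∑ j, u j * y j = 0) {q : Fin n → K} (hq : ∑ j, q j * y j = 0) (hqL : q ∉ L) :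
    finrank K L + 2 ≤ n := by
  classical
  let η : (Fin n → K) →ₗ[K] K :=
    { toFun := fun u => ∑ j, u j * y j
      map_add' := fun u v => by
        simp only [Pi.add_apply, add_mul, Finset.sum_add_distrib]
      map_smul' := fun c u => by
        simp only [Pi.smul_apply, smul_eq_mul, mul_assoc, Finset.mul_sum, RingHom.id_apply] }
  have hηs : Function.Surjective η := by
    obtain ⟨j0, hj0⟩ : ∃ j0, y j0 ≠ 0 := by
      by_contra hcon
      push Not at hcon
      exact hy0 (funext hcon)
    intro c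
    refine ⟨Pi.single j0 (c * (y j0)⁻¹), ?_⟩
    change ∑ j, (Pi.single j0 (c * (y j0)⁻¹) : Fin n → K) j * y j = c
    rw [Finset.sum_eq_single j0]
    · rw [Pi.single_eq_same, mul_assoc, inv_mul_cancel₀ hj0, mul_one]
    · intro j _ hj
      rw [Pi.single_eq_of_ne hj, zero_mul]
    · intro h; exact absurd (Finset.mem_univ _) h
  have h1 := LinearMap.finrank_range_add_finrank_ker η
  rw [LinearMap.range_eq_top.mpr hηs, finrank_top, finrank_self, finrank_fin_fun] at h1
  have h2 : L < LinearMap.ker η := by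
    refine lt_of_le_of_ne (fun u hu => hL u hu) ?_
    intro h
    apply hqL
    rw [h]
    exact hq
  have h3 := Submodule.finrank_lt_finrank_of_lt h2
  omega

/-- a form `g` in all ideals `J + (q ^ c)` is in `J` -/
theorem t1 [CharZero K] {N : ℕ} {a : Fin N → MvPolynomial (Fin (N + 1)) K} {e : Fin N → ℕ}
    (ha : ∀ i, (a i).IsHomogeneous (e i)) (he : ∀ i, 1 ≤ e i) (hreg : Reg a)
    {g : MvPolynomial (Fin (N + 1)) K} {d : ℕ} (hg : g.IsHomogeneous d)
    {S : Set (Fin (N + 1) → K)} (hS : OpenC S)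
    (hSJ : ∀ q ∈ S, NZD (Ideal.span (Set.range a)) (lin q))
    (hne : S.Nonempty) {c : ℕ} (hc : 1 ≤ c) (hcd : d < ∑ i, (e i - 1) + c)
    (h : ∀ q ∈ S, g ∈ Jc (Ideal.span (Set.range a)) q c) : g ∈ Ideal.span (Set.range a) := by
  have hJ := homog_J ha
  have h1 : ∀ k, ∀ q ∈ S, g ∈ Jc (Ideal.span (Set.range a)) q (c + k) := by
    intro k
    induction k with
    | zero => exact h
    | succ k ih =>
      intro q hq
      apply soc_lin ha he hreg (hSJ q hq) hg (by omega)
      intro u
      exact rel0 hJ hS hq (hSJ q hq) (finite_E ha he hreg (hSJ q hq)) hg (by omega) ih u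
  obtain ⟨q, hq⟩ := hne
  exact mem_of_Jc hJ hg (by omega) (h1 (d + 1) q hq)

/-- a linear form killed by a power of the generic linear form -/
theorem ell_pow_const [CharZero K] {n : ℕ} {I : Ideal (MvPolynomial (Fin n) K)} {σ : ℕ}
    (hS : Soc I σ) (z : Fin n → K) : ∀ k, k + 1 ≤ σ →
      ell I ^ k * mu I (fun j => C (z j)) = 0 → (lin z : MvPolynomial (Fin n) K) ∈ I := by
  intro k
  induction k with
  | zero =>
    intro _ h
    have h1 : ell I ^ 0 * mu I (fun j => C (z j)) ^ 1 = 0 := by rwa [pow_one]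
    have h2 := (zero_iff (K := K) I).mp h1 0
    rw [pow_zero, one_mul, pow_one] at h2
    have h3 : vl (0 : Fin n → K) (fun j => C (z j)) = z := by
      funext j
      exact eval_C _
    rwa [h3] at h2
  | succ k ih =>
    intro hk h
    apply ih (by omega)
    apply HC.zero_of hS (show k + 1 < σ by omega) ((HC.pow hc_ell).mul (hc_mu _))
    intro i
    have h1 := congrArg (pderiv i) h
    rw [deriv_ell, map_zero, pderiv_mu] at h1
    have h2 : mu I (fun j => pderiv i (C (z j) : MvPolynomial (Fin n) K)) = 0 := by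
      simp only [pderiv_C]
      have := mu_mul (I := I) (0 : MvPolynomial (Fin n) K) (fun _ => (0 : MvPolynomial (Fin n) K))
      simpa using this
    rw [h2, mul_zero, add_zero] at h1
    have h3 := nat_zero (by omega) h1
    rw [mul_left_comm] at h3
    exact h3

end Pool.Agent.Q8.GF
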