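import Pool.Agent.Q8.GF.PosB

/-!
Lemmas for the derivative of the largest rank in the theorem of Gordan and Noether.
-/

open MvPolynomial
open Pool.Agent.W515.SLP (lin)
open H503R3.QCI (Homog NZD Reg homog_span isSocleDegree_ci)
open TH130CI
open Pool.Agent.Y204.LF (OpenC reg_prefix reg_lin no_kill nzd_or_ass nzd_iff)

namespace Pool.Agent.Q8.GF

open Module
open Pool.Agent.Q8.GC

variable {K : Type*} [Field K]

section

variable {n : ℕ} {I : Ideal (MvPolynomial (Fin n) K)}

/-- one more identity of Gordan and Noether -/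
theorem gn_step [CharZero K] {σ : ℕ} (hS : Soc I σ) {m : Fin n → MvPolynomial (Fin n) K} {a b : ℕ}
    (hab : a + (b + 2) < σ) (h1 : ell I ^ (a + 1) * mu I m ^ (b + 1) = 0) :
    ell I ^ a * mu I m ^ (b + 2) = 0 := by
  apply HC.zero_of hS (show a + (b + 2) < σ from hab) ((HC.pow hc_ell).mul (HC.pow (hc_mu m)))
  intro i
  have h2 := congrArg (pderiv i) h1
  rw [deriv_ell, map_zero, Derivation.leibniz_pow] at h2
  simp only [smul_eq_mul, nsmul_eq_mul, Nat.add_sub_cancel] at h2
  apply nat_zero (N := a + 1) (by omega)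
  have h3 := congrArg (fun z => mu I m * z) h2
  simp only [mul_zero] at h3
  linear_combination h3 - ((b + 1 : ℕ) : MvPolynomial (Fin n) (MvPolynomial (Fin n) K ⧸ I)) *
    pderiv i (mu I m) * h1

/-- the ideal generated by the linear forms of a subspace -/
noncomputable def IT (T : Submodule K (Fin n → K)) : Ideal (MvPolynomial (Fin n) K) :=
  Ideal.span ((fun u : Fin n → K => (lin u : MvPolynomial (Fin n) K)) '' (T : Set (Fin n → K)))

lemma lin_mem_IT {T : Submodule K (Fin n → K)} {u : Fin n → K} (hu : u ∈ T) :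
    (lin u : MvPolynomial (Fin n) K) ∈ IT T := Ideal.subset_span ⟨u, hu, rfl⟩

lemma homog_IT (T : Submodule K (Fin n → K)) : Homog (IT T) :=
  homog_span (by rintro _ ⟨u, -, rfl⟩; exact ⟨1, lin_homog u⟩)

lemma lin_add' (u v : Fin n → K) :
    (lin (u + v) : MvPolynomial (Fin n) K) = lin u + lin v := by
  change linL K n (u + v) = _
  rw [map_add]
  rfl

lemma IT_sup (T : Submodule K (Fin n → K)) (q : Fin n → K) :
    IT (T ⊔ Submodule.span K {q}) ≤ IT T ⊔ Ideal.span {(lin q : MvPolynomial (Fin n) K)} := by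
  unfold IT
  rw [Ideal.span_le]
  rintro _ ⟨u, hu, rfl⟩
  obtain ⟨t, ht, v, hv, rfl⟩ := Submodule.mem_sup.mp hu
  obtain ⟨c, rfl⟩ := Submodule.mem_span_singleton.mp hv
  change (lin (t + c • q) : MvPolynomial (Fin n) K) ∈ _
  rw [lin_add', lin_smul']
  apply Ideal.add_mem
  · exact Ideal.mem_sup_left (Ideal.subset_span ⟨t, ht, rfl⟩)
  · exact Ideal.mem_sup_right (Ideal.mul_mem_left _ _ (Ideal.subset_span rfl))

/-- a point as a functional -/
lemma exists_dualpt {y : Fin n → K} (hy0 : y ≠ 0) : ∃ u0 : Fin n → K, ∑ j, u0 j * y j = 1 := by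
  obtain ⟨j0, hj0⟩ : ∃ j0, y j0 ≠ 0 := by
    by_contra hcon
    push Not at hcon
    exact hy0 (funext hcon)
  refine ⟨Pi.single j0 (y j0)⁻¹, ?_⟩
  rw [Finset.sum_eq_single j0]
  · rw [Pi.single_eq_same, inv_mul_cancel₀ hj0]
  · intro j _ hj
    rw [Pi.single_eq_of_ne hj, zero_mul]
  · intro h; exact absurd (Finset.mem_univ _) h

lemma dualpt_sub {y u0 : Fin n → K} (h : ∑ j, u0 j * y j = 1) (j : Fin n) :
    ∑ x, (Pi.single j 1 - y j • u0 : Fin n → K) x * y x = 0 := by
  classical
  simp only [Pi.sub_apply, Pi.smul_apply, smul_eq_mul, sub_mul, Finset.sum_sub_distrib]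
  have e1 : ∑ x, (Pi.single j (1 : K) : Fin n → K) x * y x = y j := by
    rw [Finset.sum_eq_single j]
    · rw [Pi.single_eq_same, one_mul]
    · intro x _ hx
      rw [Pi.single_eq_of_ne hx, zero_mul]
    · intro h; exact absurd (Finset.mem_univ _) h
  have e2 : ∑ x, y j * u0 x * y x = y j := by
    have : ∑ x, y j * u0 x * y x = y j * ∑ x, u0 x * y x := by
      rw [Finset.mul_sum]
      exact Finset.sum_congr rfl fun x _ => mul_assoc _ _ _
    rw [this, h, mul_one]
  rw [e1, e2, sub_self]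

/-- modulo the linear forms which vanish at `y` a form is its value at `y` times a power -/
lemma mk_pt {y u0 : Fin n → K} (h : ∑ j, u0 j * y j = 1) {𝔎 : Ideal (MvPolynomial (Fin n) K)}
    (h𝔎 : ∀ u : Fin n → K, ∑ j, u j * y j = 0 → (lin u : MvPolynomial (Fin n) K) ∈ 𝔎)
    {f : MvPolynomial (Fin n) K} {i : ℕ} (hf : f.IsHomogeneous i) :
    f - C (eval y f) * lin u0 ^ i ∈ 𝔎 := by
  classical
  rw [← Ideal.Quotient.mk_eq_mk_iff_sub_mem]
  have h0 := aeval_line (A := MvPolynomial (Fin n) K ⧸ 𝔎) hf y (Ideal.Quotient.mk 𝔎 (lin u0))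
  have h1 : (aeval fun j => algebraMap K (MvPolynomial (Fin n) K ⧸ 𝔎) (y j) *
      Ideal.Quotient.mk 𝔎 (lin u0)) = Ideal.Quotient.mkₐ K 𝔎 := by
    apply MvPolynomial.algHom_ext
    intro j
    rw [aeval_X]
    symm
    change Ideal.Quotient.mk 𝔎 (X j) = Ideal.Quotient.mk 𝔎 (C (y j)) * Ideal.Quotient.mk 𝔎 (lin u0)
    rw [← map_mul, Ideal.Quotient.mk_eq_mk_iff_sub_mem]
    have h2 := h𝔎 _ (dualpt_sub h j)
    rwa [lin_sub', lin_smul', lin_single] at h2
  rw [h1] at h0
  rw [map_mul, map_pow]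
  exact h0

/-- **The bound from a point**, for a form which kills the element. -/
theorem bound_pt2 {s : ℕ} (hS : Soc I s) {θ : MvPolynomial (Fin n) K} {D' : ℕ}
    (hθ : θ.IsHomogeneous D') (hθI : θ ∉ I) {y : Fin n → K} (hy0 : y ≠ 0)
    (hy : ∀ u : Fin n → K, ∑ j, u j * y j = 0 → lin u * θ ∈ I)
    {g : MvPolynomial (Fin n) K} {t : ℕ} (hg : g.IsHomogeneous t) (hgθ : g * θ ∈ I)
    (hgy : eval y g ≠ 0) : s < D' + t := by
  classical
  by_contra hcon
  push Not at hcon
  obtain ⟨u0, hu0⟩ := exists_dualpt hy0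
  set 𝔎 : Ideal (MvPolynomial (Fin n) K) := I.colon {θ} with h𝔎
  have hm𝔎 : ∀ h, h ∈ 𝔎 ↔ h * θ ∈ I := by
    intro h
    rw [h𝔎, Submodule.mem_colon_singleton]
    rfl
  have h1 : g - C (eval y g) * lin u0 ^ t ∈ 𝔎 :=
    mk_pt hu0 (fun u hu => (hm𝔎 _).mpr (hy u hu)) hg
  have hzt : lin u0 ^ t * θ ∈ I := by
    have h2 := 𝔎.sub_mem ((hm𝔎 g).mpr hgθ) h1
    rw [sub_sub_cancel] at h2
    have h3 := 𝔎.mul_mem_left (C (eval y g)⁻¹) h2
    rw [← mul_assoc, ← map_mul, inv_mul_cancel₀ hgy, map_one, one_mul] at h3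
    exact (hm𝔎 _).mp h3
  have hnot : ∀ i, D' + i ≤ s → lin u0 ^ i * θ ∉ I := by
    intro i
    induction i with
    | zero => intro _; rwa [pow_zero, one_mul]
    | succ i ih =>
      intro hi hmem
      apply ih (by omega)
      have hh : (lin u0 ^ i * θ : MvPolynomial (Fin n) K).IsHomogeneous (D' + i) := by
        have h1 := ((lin_homog u0).pow i).mul hθ
        rw [one_mul, add_comm] at h1
        exact h1
      refine hS _ _ hh (by omega) fun j => ?_
      have h1 := I.mul_mem_left (lin u0 ^ i) (hy _ (dualpt_sub hu0 j))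
      rw [lin_sub', lin_smul', lin_single] at h1
      have h2 := I.mul_mem_left (C (y j)) hmem
      have h3 := I.add_mem h1 h2
      convert h3 using 1
      ring
  exact hnot t hcon hzt

/-- the hyperplane kills the last power -/
lemma kill_H {w : MvPolynomial (Fin n) K} {q : Fin n → K} {J0 : ℕ}
    (hqW : lin q ^ (J0 + 1) * w ∈ I) {T : Submodule K (Fin n → K)}
    (hT : ∀ u ∈ T, lin u * w ∈ I) {u : Fin n → K} (hu : u ∈ T ⊔ Submodule.span K {q}) :
    lin u * (lin q ^ J0 * w) ∈ I := by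
  obtain ⟨t, ht, v, hv, rfl⟩ := Submodule.mem_sup.mp hu
  obtain ⟨c, rfl⟩ := Submodule.mem_span_singleton.mp hv
  rw [lin_add', lin_smul', add_mul]
  apply I.add_mem
  · have h1 := I.mul_mem_left (lin q ^ J0) (hT t ht)
    rwa [mul_left_comm] at h1
  · have h1 := I.mul_mem_left (C c) hqW
    rw [pow_succ'] at h1
    convert h1 using 1
    ring

/-- **The forms of small degree which kill `w`** lie in the ideal of the subspace `T`. -/
theorem mem_IT {σ : ℕ} (hS : Soc I σ) {w : MvPolynomial (Fin n) K} {β : ℕ}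
    (hw : w.IsHomogeneous β) {q : Fin n → K} {J0 : ℕ} (hW : lin q ^ J0 * w ∉ I)
    (hqW : lin q ^ (J0 + 1) * w ∈ I) {T : Submodule K (Fin n → K)}
    (hT : ∀ u ∈ T, lin u * w ∈ I) {y : Fin n → K} (hy0 : y ≠ 0)
    (hy : ∀ u : Fin n → K, ∑ j, u j * y j = 0 → u ∈ T ⊔ Submodule.span K {q}) :
    ∀ (l i : ℕ) (f : MvPolynomial (Fin n) K), f.IsHomogeneous l → β + J0 + l ≤ σ → i + l ≤ J0 →
      lin q ^ i * w * f ∈ I → f ∈ IT T := by
  have hTw : ∀ t ∈ IT T, w * t ∈ I := by
    intro t ht
    have h1 : IT T ≤ I.colon {w} := by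
      unfold IT
      rw [Ideal.span_le]
      rintro _ ⟨u, hu, rfl⟩
      rw [SetLike.mem_coe, Submodule.mem_colon_singleton]
      exact hT u hu
    have h2 := h1 ht
    rw [Submodule.mem_colon_singleton, smul_eq_mul] at h2
    rwa [mul_comm]
  have hWh : (lin q ^ J0 * w : MvPolynomial (Fin n) K).IsHomogeneous (β + J0) := by
    have h1 := ((lin_homog q).pow J0).mul hw
    rw [one_mul, add_comm] at h1
    exact h1
  have hyW : ∀ u : Fin n → K, ∑ j, u j * y j = 0 → lin u * (lin q ^ J0 * w) ∈ I := by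
    intro u hu
    exact kill_H hqW hT (hy u hu)
  intro l
  induction l with
  | zero =>
    intro i f hf _ hi hfI
    have hf' : f = C (coeff 0 f) := by
      rw [← totalDegree_eq_zero_iff_eq_C]
      exact Nat.le_zero.mp (IsHomogeneous.totalDegree_le hf)
    by_cases hc : coeff 0 f = 0
    · rw [hf', hc, map_zero]
      exact Ideal.zero_mem _
    · exfalso
      apply hW
      obtain ⟨k, hk⟩ : ∃ k, J0 = k + i := ⟨J0 - i, by omega⟩
      have h1 := I.mul_mem_left (C (coeff 0 f)⁻¹ * lin q ^ k) hfI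
      have h2 : C (coeff 0 f)⁻¹ * lin q ^ k * (lin q ^ i * w * f) = lin q ^ J0 * w := by
        conv_lhs => rw [hf']
        rw [coeff_C, if_pos rfl, hk, pow_add]
        have h3 : (C (coeff 0 f)⁻¹ * C (coeff 0 f) : MvPolynomial (Fin n) K) = 1 := by
          rw [← map_mul, inv_mul_cancel₀ hc, map_one]
        linear_combination lin q ^ k * (lin q ^ i * w) * h3
      rwa [h2] at h1
  | succ l ih =>
    intro i f hf hl hi hfI
    -- the value at `y`
    have hfy : eval y f = 0 := by
      by_contra hfy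
      obtain ⟨k, hk⟩ : ∃ k, J0 = k + i := ⟨J0 - i, by omega⟩
      have h1 : f * (lin q ^ J0 * w) ∈ I := by
        have h2 := I.mul_mem_left (lin q ^ k) hfI
        rw [hk, pow_add]
        convert h2 using 1
        ring
      have h2 := bound_pt2 hS hWh hW hy0 hyW hf h1 hfy
      omega
    obtain ⟨u0, hu0⟩ := exists_dualpt hy0
    have h1 : f ∈ IT (T ⊔ Submodule.span K {q}) := by
      have h2 := mk_pt hu0 (𝔎 := IT (T ⊔ Submodule.span K {q}))
        (fun u hu => lin_mem_IT (hy u hu)) hf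
      rwa [hfy, map_zero, zero_mul, sub_zero] at h2
    rcases sup_comp' (homog_IT T) (lin_homog q) hf (IT_sup T q h1) with ⟨_, b, hb, hfb⟩ | h2
    · rw [Nat.add_sub_cancel] at hb
      have h3 : b ∈ IT T := by
        apply ih (i + 1) b hb (by omega) (by omega)
        have h4 := I.mul_mem_left (lin q ^ i) (hTw _ hfb)
        have h5 := I.sub_mem hfI h4
        convert h5 using 1
        ring
      have h4 := (IT T).add_mem hfb ((IT T).mul_mem_left (lin q) h3)
      rwa [sub_add_cancel] at h4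
    · exact h2

/-- the values of a polynomial map are nonzerodivisors, if their span contains one -/
theorem exists_vl_nzd {J : Ideal (MvPolynomial (Fin n) K)} {m : Fin n → MvPolynomial (Fin n) K}
    {z : Fin n → K} (hz : z ∈ Submodule.span K (Set.range fun q' => vl q' m))
    (hzJ : NZD J (lin z)) :
    ∃ P : MvPolynomial (Fin n) K, P ≠ 0 ∧ ∀ q, eval q P ≠ 0 → NZD J (lin (vl q m)) := by
  classical
  have hfin := associatedPrimes.finite (MvPolynomial (Fin n) K) (MvPolynomial (Fin n) K ⧸ J)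
  have hp : ∀ p ∈ associatedPrimes (MvPolynomial (Fin n) K) (MvPolynomial (Fin n) K ⧸ J),
      ∃ P : MvPolynomial (Fin n) K, P ≠ 0 ∧ ∀ q, eval q P ≠ 0 →
        (lin (vl q m) : MvPolynomial (Fin n) K) ∉ p := by
    intro p hp
    let V : Submodule K (Fin n → K) := (p.restrictScalars K).comap (linL K n)
    have hV : ∀ u, u ∈ V ↔ (lin u : MvPolynomial (Fin n) K) ∈ p := fun u => Iff.rfl
    obtain ⟨q1, hq1⟩ : ∃ q1, vl q1 m ∉ V := by
      by_contra hcon
      push Not at hcon
      have h1 : Submodule.span K (Set.range fun q' => vl q' m) ≤ V := by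
        rw [Submodule.span_le]
        rintro _ ⟨q', rfl⟩
        exact hcon q'
      exact (nzd_iff J _).mp hzJ p hp ((hV z).mp (h1 hz))
    obtain ⟨χ, hχ⟩ : ∃ χ : Module.Dual K ((Fin n → K) ⧸ V),
        χ (Submodule.Quotient.mk (vl q1 m)) ≠ 0 := by
      by_contra hc
      push Not at hc
      apply hq1
      rw [← Submodule.Quotient.mk_eq_zero]
      exact (Module.forall_dual_apply_eq_zero_iff K _).mp hc
    let ψ : (Fin n → K) →ₗ[K] K := χ ∘ₗ V.mkQ
    let P : MvPolynomial (Fin n) K := ∑ j, m j * C (ψ (Pi.single j 1))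
    have hPe : ∀ q', eval q' P = ψ (vl q' m) := by
      intro q'
      rw [dual_eq ψ (vl q' m)]
      simp only [P, map_sum, map_mul, eval_C]
      rfl
    refine ⟨P, ?_, fun q hq hmem => ?_⟩
    · intro h0
      apply hχ
      have h1 := hPe q1
      rw [h0, map_zero] at h1
      exact h1.symm
    · apply hq
      rw [hPe]
      change χ (Submodule.Quotient.mk (vl q m)) = 0
      rw [(Submodule.Quotient.mk_eq_zero V).mpr ((hV _).mpr hmem), map_zero]
  choose! P hP0 hPm using hp
  refine ⟨∏ p ∈ hfin.toFinset, P p, ?_, fun q hq => ?_⟩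
  · rw [Finset.prod_ne_zero_iff]
    intro p hp
    exact hP0 p (hfin.mem_toFinset.mp hp)
  · rw [nzd_iff]
    intro p hp
    rw [map_prod, Finset.prod_ne_zero_iff] at hq
    exact hPm p hp q (hq p (hfin.mem_toFinset.mpr hp))

/-- a space of linear forms of large dimension contains a nonzerodivisor -/
theorem exists_nzd_of_dim [Infinite K] {k : ℕ} {a : Fin k → MvPolynomial (Fin n) K} {e : Fin k → ℕ}
    (ha : ∀ i, (a i).IsHomogeneous (e i)) (he : ∀ i, 1 ≤ e i) (hreg : Reg a)
    {L : Submodule K (Fin n → K)} (hL : k + 1 ≤ finrank K L) :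
    ∃ z ∈ L, NZD (Ideal.span (Set.range a)) (lin z) := by
  classical
  rcases nzd_or_ass (Ideal.span (Set.range a)) (L.map (linL K n)) with ⟨c, ⟨z, hz, rfl⟩, hc⟩ | h
  · exact ⟨z, hz, hc⟩
  · exfalso
    obtain ⟨w, hw, h⟩ := h
    apply hw
    have hLn : finrank K L ≤ n := by
      have h1 := Submodule.finrank_le L
      rwa [finrank_fin_fun] at h1
    have hbas := (Module.finBasis K L).linearIndependent.map' L.subtype (Submodule.ker_subtype _)
    exact no_kill hLn (show k < finrank K L by omega) (e := fun _ => 1)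
      (fun i => lin_homog _) (fun _ => le_rfl) (reg_lin hbas) ha he hreg
      (fun i => h _ ⟨_, (Module.finBasis K L i).2, rfl⟩)

/-- a regular sequence is not contained in the ideal of a small space of linear forms -/
theorem not_all_mem_IT [Infinite K] {k : ℕ} (hk : k ≤ n) {a : Fin k → MvPolynomial (Fin n) K}
    {e : Fin k → ℕ} (ha : ∀ i, (a i).IsHomogeneous (e i)) (he : ∀ i, 1 ≤ e i) (hreg : Reg a)
    {T : Submodule K (Fin n → K)} (hT : finrank K T < k) (h : ∀ i, a i ∈ IT T) : False := by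
  classical
  have hbas := (Module.finBasis K T).linearIndependent.map' T.subtype (Submodule.ker_subtype _)
  have hIT : IT T ≤ Ideal.span (Set.range fun i =>
      (lin ((T.subtype ∘ Module.finBasis K T) i) : MvPolynomial (Fin n) K)) := by
    unfold IT
    rw [Ideal.span_le]
    rintro _ ⟨u, hu, rfl⟩
    have h1 : u = ∑ i, (Module.finBasis K T).repr ⟨u, hu⟩ i •
        (T.subtype ∘ Module.finBasis K T) i := by
      have h2 := congrArg T.subtype ((Module.finBasis K T).sum_repr ⟨u, hu⟩)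
      rw [map_sum] at h2
      exact h2.symm
    change linL K n u ∈ _
    rw [h1, map_sum]
    refine Ideal.sum_mem _ fun i _ => ?_
    rw [map_smul, smul_eq_C_mul]
    exact Ideal.mul_mem_left _ _ (Ideal.subset_span ⟨i, rfl⟩)
  have h1 := no_kill hk hT ha he hreg (fun i => lin_homog _) (fun _ => le_rfl) (reg_lin hbas)
    (w := 1) (fun i => by rw [mul_one]; exact hIT (h i))
  have h2 : Ideal.span (Set.range fun i =>
      (lin ((T.subtype ∘ Module.finBasis K T) i) : MvPolynomial (Fin n) K)) ≤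
      RingHom.ker (eval (0 : Fin n → K) : MvPolynomial (Fin n) K →+* K) := by
    rw [Ideal.span_le]
    rintro _ ⟨i, rfl⟩
    rw [SetLike.mem_coe, RingHom.mem_ker]
    change eval 0 (lin ((T.subtype ∘ Module.finBasis K T) i) : MvPolynomial (Fin n) K) = 0
    rw [lin_sum, map_sum]
    refine Finset.sum_eq_zero fun j _ => ?_
    rw [smul_eval, eval_X, Pi.zero_apply, mul_zero]
  have h3 := h2 h1
  rw [RingHom.mem_ker, map_one] at h3
  exact one_ne_zero h3

end

/-- a generator of the prefix does not vanish at a point of a general hyperplane -/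
theorem exists_gen_ne [Infinite K] {N : ℕ} {a : Fin (N + 1) → MvPolynomial (Fin (N + 1)) K}
    {e : Fin (N + 1) → ℕ} (ha : ∀ i, (a i).IsHomogeneous (e i)) (he1 : ∀ i, 1 ≤ e i)
    (hreg : Reg a) {q : Fin (N + 1) → K}
    (hqJ : NZD (Ideal.span (Set.range fun i : Fin N => a i.castSucc)) (lin q))
    {y : Fin (N + 1) → K} (hy0 : y ≠ 0) (hyq : ∑ j, q j * y j = 0) :
    ∃ i0 : Fin N, eval y (a i0.castSucc) ≠ 0 := by
  classical
  set a0 : Fin N → MvPolynomial (Fin (N + 1)) K := fun i => a i.castSucc with ha0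
  have hreg0 : Reg a0 := reg_prefix (Nat.le_succ N) hreg
  by_contra hcon
  push Not at hcon
  obtain ⟨j1, hj1⟩ : ∃ j1, y j1 ≠ 0 := by
    by_contra h
    push Not at h
    exact hy0 (funext h)
  have h1 := (isSocleDegree_ci _ _ (Pool.Agent.Q8.GE.snoc_homog (a := a0)
    (e := fun i => e i.castSucc) (fun i => ha _) q 1)
    (Pool.Agent.Q8.GE.snoc_one_le (fun i => he1 _) le_rfl)
    (Pool.Agent.Q8.GE.reg_snoc_pow hreg0 hqJ 1)).2
    (∑ i : Fin N, (e i.castSucc - 1) + 1) (by rw [Pool.Agent.Q8.GE.snoc_sum]; omega)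
    (X j1 ^ (∑ i : Fin N, (e i.castSucc - 1) + 1)) (by
      have h2 := (isHomogeneous_X K j1).pow (∑ i : Fin N, (e i.castSucc - 1) + 1)
      rwa [one_mul] at h2)
  have h3 : Ideal.span (Set.range (Fin.snoc a0 (lin q ^ 1) :
      Fin (N + 1) → MvPolynomial (Fin (N + 1)) K)) ≤
      RingHom.ker (eval y : MvPolynomial (Fin (N + 1)) K →+* K) := by
    rw [Ideal.span_le]
    rintro _ ⟨i, rfl⟩
    rw [SetLike.mem_coe, RingHom.mem_ker]
    refine Fin.lastCases ?_ (fun i => ?_) i
    · rw [Fin.snoc_last, pow_one, lin_sum, map_sum]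
      rw [← hyq]
      refine Finset.sum_congr rfl fun j _ => ?_
      rw [smul_eval, eval_X]
    · rw [Fin.snoc_castSucc]
      exact hcon i
  have h4 := h3 h1
  rw [RingHom.mem_ker, map_pow, eval_X] at h4
  exact pow_ne_zero _ hj1 h4

/-- the dimension of the range of the derivative with the point -/
theorem finrank_T {V : Type*} [AddCommGroup V] [Module K V] [FiniteDimensional K V]
    (M : V →ₗ[K] V) {p : V} (hp0 : p ≠ 0) (hMp : M p ∈ Submodule.span K {p}) :
    finrank K (LinearMap.range M ⊔ Submodule.span K {p} : Submodule K V) =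
      cc (quo M p hMp) 1 + 1 := by
  have h3 := finrank_of_mem (K := K) hp0 (LinearMap.range M ⊔ Submodule.span K {p})
    (Submodule.mem_sup_right (Submodule.mem_span_singleton_self p))
  have h4 : (LinearMap.range M ⊔ Submodule.span K {p}).map (Submodule.span K {p}).mkQ =
      LinearMap.range (quo M p hMp) := by
    apply le_antisymm
    · rintro _ ⟨x, hx, rfl⟩
      obtain ⟨t, ⟨u, rfl⟩, v, hv, rfl⟩ := Submodule.mem_sup.mp hx
      refine ⟨Submodule.Quotient.mk u, ?_⟩
      rw [map_add]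
      have h5 : (Submodule.span K {p}).mkQ v = 0 := by
        rw [Submodule.mkQ_apply, Submodule.Quotient.mk_eq_zero]
        exact hv
      rw [h5, add_zero]
      rfl
    · rintro _ ⟨x, rfl⟩
      obtain ⟨u, rfl⟩ := Submodule.Quotient.mk_surjective _ x
      exact ⟨M u, Submodule.mem_sup_left (LinearMap.mem_range_self _ _), rfl⟩
  rw [← h3, h4]
  unfold cc
  rw [pow_one]

/-- a hyperplane is given by a point -/
theorem exists_hyper {n : ℕ} {H : Submodule K (Fin n → K)} (hH : finrank K H + 1 = n) :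
    ∃ y : Fin n → K, y ≠ 0 ∧ ∀ u : Fin n → K, ∑ j, u j * y j = 0 ↔ u ∈ H := by
  classical
  obtain ⟨v, hv⟩ : ∃ v, v ∉ H := by
    by_contra hcon
    push Not at hcon
    have h1 : H = ⊤ := by
      rw [eq_top_iff]
      intro u _
      exact hcon u
    rw [h1, finrank_top, finrank_fin_fun] at hH
    omega
  obtain ⟨χ, hχ⟩ : ∃ χ : Module.Dual K ((Fin n → K) ⧸ H), χ (Submodule.Quotient.mk v) ≠ 0 := by
    by_contra hcon
    push Not at hcon
    apply hv
    rw [← Submodule.Quotient.mk_eq_zero]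
    exact (Module.forall_dual_apply_eq_zero_iff K _).mp hcon
  let η : (Fin n → K) →ₗ[K] K := χ ∘ₗ H.mkQ
  have hη : H ≤ LinearMap.ker η := by
    intro u hu
    rw [LinearMap.mem_ker]
    change χ (Submodule.Quotient.mk u) = 0
    rw [(Submodule.Quotient.mk_eq_zero H).mpr hu, map_zero]
  have h1 : H = LinearMap.ker η := by
    apply Submodule.eq_of_le_of_finrank_le hη
    have h2 := LinearMap.finrank_range_add_finrank_ker η
    rw [finrank_fin_fun] at h2
    have h3 : 1 ≤ finrank K (LinearMap.range η) := by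
      rw [Nat.one_le_iff_ne_zero]
      intro h4
      rw [Submodule.finrank_eq_zero] at h4
      apply hχ
      have h5 : η v ∈ LinearMap.range η := LinearMap.mem_range_self _ _
      rw [h4, Submodule.mem_bot] at h5
      exact h5
    omega
  refine ⟨fun j => η (Pi.single j 1), ?_, fun u => ?_⟩
  · intro h0
    apply hχ
    change η v = 0
    rw [dual_eq η v]
    refine Finset.sum_eq_zero fun j _ => ?_
    have := congrFun h0 j
    rw [this, Pi.zero_apply, mul_zero]
  · rw [← dual_eq η u, h1, LinearMap.mem_ker]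

end Pool.Agent.Q8.GF
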